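import Mathlib

/-!
# Common prefixes of reduced words

`lcp l l'` is the length of the longest common prefix of two lists.  For elements `a`, `b` of a
free group `norm (a⁻¹ * b) + 2 * lcp a.toWord b.toWord = norm a + norm b`.
-/

set_option autoImplicit false

namespace Pool.Agent.Lib.MP_47235e_al

section Lists

variable {β : Type*} [DecidableEq β]

/-- the length of the longest common prefix -/
def lcp : List β → List β → ℕ
  | a :: l, b :: l' => if a = b then lcp l l' + 1 else 0
  | [], _ => 0
  | _ :: _, [] => 0

theorem le_lcp_iff : ∀ (l l' : List β) (k : ℕ),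
    k ≤ lcp l l' ↔ k ≤ l.length ∧ k ≤ l'.length ∧ l.take k = l'.take k
  | [], l', k => by
    simp only [lcp, Nat.le_zero, List.length_nil]
    constructor
    · rintro rfl; simp
    · rintro ⟨h, -⟩; exact h
  | a :: l, [], k => by
    simp only [lcp, Nat.le_zero, List.length_nil]
    constructor
    · rintro rfl; simp
    · rintro ⟨-, h, -⟩; exact h
  | a :: l, b :: l', 0 => by simp
  | a :: l, b :: l', k + 1 => by
    by_cases h : a = b
    · subst h
      simp only [lcp, if_true, Nat.add_le_add_iff_right, List.length_cons, List.take_succ_cons,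
        List.cons.injEq, true_and]
      exact le_lcp_iff l l' k
    · simp [lcp, h]

theorem lcp_comm (l l' : List β) : lcp l l' = lcp l' l := by
  apply le_antisymm
  · rw [le_lcp_iff]
    obtain ⟨h1, h2, h3⟩ := (le_lcp_iff l l' (lcp l l')).1 le_rfl
    exact ⟨h2, h1, h3.symm⟩
  · rw [le_lcp_iff]
    obtain ⟨h1, h2, h3⟩ := (le_lcp_iff l' l (lcp l' l)).1 le_rfl
    exact ⟨h2, h1, h3.symm⟩

omit [DecidableEq β] in
theorem take_le {l l' : List β} {k j : ℕ} (h : l.take k = l'.take k) (hj : j ≤ k) :
    l.take j = l'.take j := by
  have := congrArg (List.take j) h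
  simpa [List.take_take, hj] using this

/-- the tree property -/
theorem lcp_tree {a b c : List β} (h : lcp b c < lcp a b) : lcp a c = lcp b c := by
  obtain ⟨a1, a2, a3⟩ := (le_lcp_iff a b (lcp a b)).1 le_rfl
  obtain ⟨b1, b2, b3⟩ := (le_lcp_iff b c (lcp b c)).1 le_rfl
  apply le_antisymm
  · by_contra hlt
    have hk : lcp b c + 1 ≤ lcp a c := by omega
    obtain ⟨c1, c2, c3⟩ := (le_lcp_iff a c _).1 hk
    have : lcp b c + 1 ≤ lcp b c := by
      rw [le_lcp_iff]
      refine ⟨by omega, c2, ?_⟩
      rw [← c3]
      exact (take_le a3 (by omega)).symm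
    omega
  · rw [le_lcp_iff]
    refine ⟨by omega, b2, ?_⟩
    rw [← b3]
    exact take_le a3 (by omega)

end Lists

section Words

open FreeGroup

variable {α : Type*} [DecidableEq α]

theorem toWord_mk_of {L : List (α × Bool)} (h : IsReduced L) : (mk L).toWord = L := by
  rw [toWord_mk, h.reduce_eq]

theorem norm_mk_of {L : List (α × Bool)} (h : IsReduced L) : (mk L).norm = L.length := by
  rw [FreeGroup.norm, toWord_mk_of h]

theorem isReduced_invRev {L : List (α × Bool)} (h : IsReduced L) : IsReduced (invRev L) := by
  have h1 : (mk L)⁻¹.toWord = invRev (mk L).toWord := toWord_inv _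
  rw [toWord_mk_of h] at h1
  rw [← h1]
  exact isReduced_toWord

theorem norm_inv_mul_aux : ∀ (l l' : List (α × Bool)), IsReduced l → IsReduced l' →
    ((mk l)⁻¹ * mk l').norm + 2 * lcp l l' = l.length + l'.length
  | [], l', _, h' => by
    have : ((mk [])⁻¹ * mk l' : FreeGroup α) = mk l' := by
      rw [← one_eq_mk]; simp
    rw [this, norm_mk_of h']
    simp [lcp]
  | a :: l, [], h, _ => by
    have : ((mk (a :: l))⁻¹ * mk [] : FreeGroup α) = (mk (a :: l))⁻¹ := by
      rw [← one_eq_mk]; simp
    rw [this, norm_inv_eq, norm_mk_of h]
    simp [lcp]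
  | a :: l, b :: l', h, h' => by
    have hl : IsReduced l := by
      cases l with
      | nil => simp
      | cons c l => exact (isReduced_cons_cons.1 h).2
    have hl' : IsReduced l' := by
      cases l' with
      | nil => simp
      | cons c l' => exact (isReduced_cons_cons.1 h').2
    by_cases hab : a = b
    · subst hab
      have e : ((mk (a :: l))⁻¹ * mk (a :: l') : FreeGroup α) = (mk l)⁻¹ * mk l' := by
        have e1 : (mk (a :: l) : FreeGroup α) = mk [a] * mk l := by
          rw [mul_mk]; rfl
        have e2 : (mk (a :: l') : FreeGroup α) = mk [a] * mk l' := by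
          rw [mul_mk]; rfl
        rw [e1, e2]
        group
      rw [e]
      have := norm_inv_mul_aux l l' hl hl'
      simp only [lcp, if_true, List.length_cons]
      omega
    · have hred : IsReduced (invRev (a :: l) ++ b :: l') := by
        have h1 : IsReduced (invRev (a :: l)) := isReduced_invRev h
        have h2 : IsReduced (invRev [a] ++ b :: l') := by
          show IsReduced ((a.1, !a.2) :: b :: l')
          rw [isReduced_cons_cons]
          refine ⟨fun h3 => ?_, h'⟩
          rcases a with ⟨a1, a2⟩
          rcases b with ⟨b1, b2⟩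
          simp only at h3
          subst h3
          cases a2 <;> cases b2 <;> simp_all
        rw [invRev_cons] at h1 ⊢
        exact h1.append_overlap h2 (by simp [invRev])
      have e : ((mk (a :: l))⁻¹ * mk (b :: l') : FreeGroup α) =
          mk (invRev (a :: l) ++ b :: l') := by
        rw [inv_mk, mul_mk]
      rw [e, norm_mk_of hred]
      simp [lcp, hab]

theorem norm_inv_mul (a b : FreeGroup α) :
    (a⁻¹ * b).norm + 2 * lcp a.toWord b.toWord = a.norm + b.norm := by
  have := norm_inv_mul_aux a.toWord b.toWord isReduced_toWord isReduced_toWord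
  rwa [mk_toWord, mk_toWord] at this

/-- the cancellation in the product -/
def canc (a b : FreeGroup α) : ℕ := lcp a⁻¹.toWord b.toWord

theorem norm_mul_canc (a b : FreeGroup α) :
    (a * b).norm + 2 * canc a b = a.norm + b.norm := by
  have := norm_inv_mul a⁻¹ b
  rwa [inv_inv, norm_inv_eq] at this

theorem canc_inv (a b : FreeGroup α) : canc b⁻¹ a⁻¹ = canc a b := by
  rw [canc, canc, inv_inv, lcp_comm]

/-- the first half (rounded up) of the reduced word -/
def half (a : FreeGroup α) : List (α × Bool) := a.toWord.take ((a.norm + 1) / 2)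

theorem half_ne {a : FreeGroup α} (ha : a ≠ 1) : half a ≠ half a⁻¹ := by
  intro h
  unfold half at h
  rw [norm_inv_eq, toWord_inv] at h
  set w := a.toWord with hw
  set n := a.norm with hn
  have hlen : w.length = n := rfl
  have hn0 : n ≠ 0 := by
    intro h0
    exact ha (norm_eq_zero.1 h0)
  set k := (n + 1) / 2 with hk
  have hw2 : w.take k ++ w.drop k = w := List.take_append_drop _ _
  rcases Nat.even_or_odd' n with ⟨j, hj | hj⟩
  · have hkj : k = j := by omega
    have hs : (w.drop k).length = k := by
      rw [List.length_drop, hlen]; omega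
    have h2 : (invRev w).take k = invRev (w.drop k) := by
      conv_lhs => rw [← hw2, invRev_append]
      rw [List.take_append_of_le_length (by rw [invRev_length, hs])]
      rw [List.take_of_length_le (by rw [invRev_length, hs])]
    rw [h2] at h
    apply ha
    have h3 : mk w = a := mk_toWord
    have h4 : (mk (invRev (w.drop k) ++ w.drop k) : FreeGroup α) = 1 := by
      rw [← mul_mk, ← inv_mk, inv_mul_cancel]
    rw [← h3, ← hw2, h, h4]
  · have hkj : k = j + 1 := by omega
    have hs : (w.drop k).length = j := by
      rw [List.length_drop, hlen]; omega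
    have hp : (w.take k).length = j + 1 := by
      rw [List.length_take, hlen]; omega
    have hpne : w.take k ≠ [] := by
      intro h0; rw [h0] at hp; simp at hp
    obtain ⟨p, x, hpx⟩ := List.eq_nil_or_concat (w.take k) |>.resolve_left hpne
    rw [List.concat_eq_append] at hpx
    have hplen : p.length = j := by
      have := congrArg List.length hpx
      rw [hp] at this
      simp at this
      omega
    have hlx : (invRev (w.drop k) ++ invRev [x]).length = k := by
      rw [List.length_append, invRev_length, invRev_length, hs, hkj]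
      rfl
    have h2 : (invRev w).take k = invRev (w.drop k) ++ invRev [x] := by
      conv_lhs => rw [← hw2, invRev_append]
      rw [hpx, invRev_append]
      rw [← List.append_assoc]
      rw [List.take_append_of_le_length (by rw [hlx])]
      rw [List.take_of_length_le (by rw [hlx])]
    rw [h2, hpx] at h
    have h3 := (List.append_inj' h (by simp [invRev])).2
    simp [invRev] at h3
    have h4 := congrArg Prod.snd h3
    simp at h4

theorem lcp_lt_of_ne {a : FreeGroup α} (ha : a ≠ 1) : 2 * canc a a < a.norm := by
  by_contra h
  apply half_ne ha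
  unfold half
  rw [norm_inv_eq]
  have h1 : (a.norm + 1) / 2 ≤ canc a a := by omega
  exact ((le_lcp_iff _ _ _).1 h1).2.2.symm

theorem norm_lt_sq {a : FreeGroup α} (ha : a ≠ 1) : a.norm < (a * a).norm := by
  have h1 := norm_mul_canc a a
  have h2 := lcp_lt_of_ne ha
  omega

end Words

end Pool.Agent.Lib.MP_47235e_al
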