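import Mathlib
import Pool.Agent.Lib.MP_47235e_al.Lcp

/-!
# Codes of words and the step that lowers the potential
-/

set_option autoImplicit false

namespace Pool.Agent.Lib.MP_47235e_al

section Code

variable {β : Type*} (e : β → ℕ) (B : ℕ)

/-- the number with the digits `e x`, `x ∈ l`, in base `B` (first letter = leading digit) -/
def code : List β → ℕ
  | [] => 0
  | x :: l => e x * B ^ l.length + code l

theorem code_append (p t : List β) :
    code e B (p ++ t) = code e B p * B ^ t.length + code e B t := by
  induction p with
  | nil => simp [code]
  | cons x p ih =>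
    simp only [List.cons_append, code, ih, List.length_append, pow_add]
    ring

theorem code_lt (hB : ∀ x, e x < B) (l : List β) : code e B l < B ^ l.length := by
  induction l with
  | nil => simp [code]
  | cons x l ih =>
    simp only [code, List.length_cons]
    have h1 := hB x
    calc e x * B ^ l.length + code e B l < e x * B ^ l.length + B ^ l.length := by omega
      _ = (e x + 1) * B ^ l.length := by ring
      _ ≤ B * B ^ l.length := Nat.mul_le_mul_right _ (by omega)
      _ = B ^ (l.length + 1) := by ring

theorem code_inj (he : Function.Injective e) (hB : ∀ x, e x < B) :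
    ∀ p q : List β, p.length = q.length → code e B p = code e B q → p = q
  | [], [], _, _ => rfl
  | [], y :: q, h, _ => by simp at h
  | x :: p, [], h, _ => by simp at h
  | x :: p, y :: q, h, hc => by
    simp only [List.length_cons, Nat.add_right_cancel_iff] at h
    simp only [code, h] at hc
    have h1 := code_lt e B hB p
    have h2 := code_lt e B hB q
    rw [h] at h1
    have hxy : e x = e y := by
      rcases lt_trichotomy (e x) (e y) with hlt | heq | hlt
      · have : (e x + 1) * B ^ q.length ≤ e y * B ^ q.length := Nat.mul_le_mul_right _ hlt
        rw [add_mul, one_mul] at this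
        omega
      · exact heq
      · have : (e y + 1) * B ^ q.length ≤ e x * B ^ q.length := Nat.mul_le_mul_right _ hlt
        rw [add_mul, one_mul] at this
        omega
    rw [hxy] at hc
    have h3 := he hxy
    subst h3
    rw [code_inj he hB p q h (by omega)]

end Code

section Step

open FreeGroup

variable {α : Type*} [DecidableEq α] (e : α × Bool → ℕ) (B : ℕ)

/-- the second component of the potential of an element -/
def pot (g : FreeGroup α) : ℕ := code e B (half g) + code e B (half g⁻¹)

theorem pot_inv (g : FreeGroup α) : pot e B g⁻¹ = pot e B g := by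
  rw [pot, pot, inv_inv, add_comm]

theorem half_length (g : FreeGroup α) : (half g).length = (g.norm + 1) / 2 := by
  have : g.toWord.length = g.norm := rfl
  rw [half, List.length_take, this]
  omega

theorem code_half_ne (he : Function.Injective e) (hB : ∀ x, e x < B) {g : FreeGroup α}
    (hg : g ≠ 1) : code e B (half g) ≠ code e B (half g⁻¹) := by
  intro h
  exact half_ne hg (code_inj e B he hB _ _ (by rw [half_length, half_length, norm_inv_eq]) h)

/-- the step lemma -/
theorem pot_step (hB0 : 0 < B) {y z : FreeGroup α} (h1 : 2 * canc y z = y.norm)
    (h2 : y.norm ≤ z.norm) (h3 : code e B (half y) < code e B (half y⁻¹)) :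
    pot e B (y * z) < pot e B z := by
  set k := canc y z with hk
  have hyz : (y * z).norm = z.norm := by
    have := norm_mul_canc y z
    omega
  have hylen : y.toWord.length = y.norm := rfl
  have hzlen : z.toWord.length = z.norm := rfl
  obtain ⟨a1, a2, a3⟩ := (le_lcp_iff y⁻¹.toWord z.toWord k).1 le_rfl
  have hhalf : (y.norm + 1) / 2 = k := by omega
  -- the words
  obtain ⟨p, hp⟩ : ∃ p, p = y.toWord.take k := ⟨_, rfl⟩
  obtain ⟨s, hs⟩ : ∃ s, s = y.toWord.drop k := ⟨_, rfl⟩
  obtain ⟨z', hz'⟩ : ∃ z', z' = z.toWord.drop k := ⟨_, rfl⟩
  have hps : y.toWord = p ++ s := by rw [hp, hs, List.take_append_drop]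
  have hslen : s.length = k := by rw [hs, List.length_drop, hylen]; omega
  have hplen : p.length = k := by rw [hp, List.length_take, hylen]; omega
  have hz'len : z'.length = z.norm - k := by rw [hz', List.length_drop, hzlen]
  have hq : z.toWord.take k = invRev s := by
    rw [← a3, toWord_inv, hps, invRev_append,
      List.take_append_of_le_length (by rw [invRev_length, hslen]),
      List.take_of_length_le (by rw [invRev_length, hslen])]
  have hz : z.toWord = invRev s ++ z' := by rw [← hq, hz', List.take_append_drop]
  have hprod : y * z = mk (p ++ z') := by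
    have e1 : y = mk p * mk s := by rw [mul_mk, ← hps, mk_toWord]
    have e2 : z = (mk s)⁻¹ * mk z' := by rw [inv_mk, mul_mk, ← hz, mk_toWord]
    rw [← mul_mk]
    conv_lhs => rw [e1, e2]
    group
  have hword : (y * z).toWord = p ++ z' := by
    have h5 : (y * z).toWord = reduce (p ++ z') := by rw [hprod, toWord_mk]
    have h6 : (reduce (p ++ z')).length = (p ++ z').length := by
      rw [← h5]
      have : (y * z).toWord.length = (y * z).norm := rfl
      rw [this, hyz, List.length_append, hplen, hz'len]
      omega
    rw [h5]
    exact (Red.sublist reduce.red).eq_of_length h6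
  -- the halves
  have hkh : k ≤ (z.norm + 1) / 2 := by omega
  have hhz : (z.norm + 1) / 2 ≤ z'.length := by omega
  have H1 : half (y * z) = p ++ z'.take ((z.norm + 1) / 2 - k) := by
    rw [half, hword, hyz, List.take_append, hplen, List.take_of_length_le (by omega)]
  have H2 : half z = invRev s ++ z'.take ((z.norm + 1) / 2 - k) := by
    rw [half, hz, List.take_append, invRev_length, hslen,
      List.take_of_length_le (by rw [invRev_length]; omega)]
  have H3 : half (y * z)⁻¹ = (invRev z').take ((z.norm + 1) / 2) := by
    rw [half, norm_inv_eq, hyz, toWord_inv, hword, invRev_append,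
      List.take_append_of_le_length (by rw [invRev_length]; exact hhz)]
  have H4 : half z⁻¹ = (invRev z').take ((z.norm + 1) / 2) := by
    rw [half, norm_inv_eq, toWord_inv, hz, invRev_append,
      List.take_append_of_le_length (by rw [invRev_length]; exact hhz)]
  have H5 : half y = p := by rw [half, hhalf, hp]
  have H6 : half y⁻¹ = invRev s := by rw [half, norm_inv_eq, hhalf, a3, hq]
  rw [H5, H6] at h3
  rw [pot, pot, H1, H2, H3, H4, code_append, code_append]
  have hpos : 0 < B ^ (z'.take ((z.norm + 1) / 2 - k)).length := pow_pos hB0 _
  have := Nat.mul_lt_mul_of_pos_right h3 hpos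
  omega

end Step

end Pool.Agent.Lib.MP_47235e_al
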