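import Mathlib
import Pool.Agent.Lib.MP_47235e_al.Code

/-!
# Reduced generating tuples
-/

set_option autoImplicit false

namespace Pool.Agent.Lib.MP_47235e_al

open FreeGroup

section Nielsen

variable {α ι : Type*} [DecidableEq α]

/-- the value of a letter -/
def val (u : ι → FreeGroup α) (X : ι × Bool) : FreeGroup α := cond X.2 (u X.1) (u X.1)⁻¹

/-- the inverse letter -/
def flip (X : ι × Bool) : ι × Bool := (X.1, !X.2)

omit [DecidableEq α] in
theorem val_flip (u : ι → FreeGroup α) (X : ι × Bool) : val u (flip X) = (val u X)⁻¹ := by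
  rcases X with ⟨i, b⟩
  cases b <;> simp [val, flip]

omit [DecidableEq α] in
theorem val_mem (u : ι → FreeGroup α) (X : ι × Bool) :
    val u X ∈ Subgroup.closure (Set.range u) := by
  have h : u X.1 ∈ Subgroup.closure (Set.range u) := Subgroup.subset_closure ⟨_, rfl⟩
  rcases X with ⟨i, b⟩
  cases b
  · exact Subgroup.inv_mem _ h
  · exact h

omit [DecidableEq α] in
theorem mem_of_val {H : Subgroup (FreeGroup α)} {u : ι → FreeGroup α} {X : ι × Bool}
    (h : val u X ∈ H) : u X.1 ∈ H := by
  rcases X with ⟨i, b⟩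
  cases b
  · simpa [val] using h
  · exact h

/-- the letters `X`, `Y` may be adjacent in a reduced word -/
def Red2 (X Y : ι × Bool) : Prop := X.1 = Y.1 → X.2 = Y.2

theorem Red2.flip {X Y : ι × Bool} (h : Red2 X Y) : Red2 (flip Y) (flip X) := by
  intro h1
  have h2 : X.1 = Y.1 := h1.symm
  show (!Y.2) = (!X.2)
  rw [h h2]

variable [DecidableEq ι]

/-- replace the letter `Y` by the product of the letters `X` and `Y` -/
def repl (u : ι → FreeGroup α) (X Y : ι × Bool) : ι → FreeGroup α :=
  Function.update u Y.1 (cond Y.2 (val u X * val u Y) (val u X * val u Y)⁻¹)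

omit [DecidableEq α] in
theorem val_repl_self (u : ι → FreeGroup α) (X Y : ι × Bool) :
    val (repl u X Y) Y = val u X * val u Y := by
  rcases Y with ⟨j, b⟩
  cases b
  · simp only [val, repl, Function.update_self, cond_false, inv_inv]
  · simp only [val, repl, Function.update_self, cond_true]

omit [DecidableEq α] in
theorem val_repl_of_ne (u : ι → FreeGroup α) {X Y Z : ι × Bool} (h : Z.1 ≠ Y.1) :
    val (repl u X Y) Z = val u Z := by
  simp only [val, repl, Function.update_of_ne h]

omit [DecidableEq α] in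
theorem closure_repl (u : ι → FreeGroup α) {X Y : ι × Bool} (h : X.1 ≠ Y.1) :
    Subgroup.closure (Set.range (repl u X Y)) = Subgroup.closure (Set.range u) := by
  apply le_antisymm
  · rw [Subgroup.closure_le]
    rintro _ ⟨i, rfl⟩
    by_cases hi : i = Y.1
    · have h1 : val (repl u X Y) Y ∈ Subgroup.closure (Set.range u) := by
        rw [val_repl_self]
        exact Subgroup.mul_mem _ (val_mem u X) (val_mem u Y)
      have := mem_of_val h1
      rwa [hi]
    · have : repl u X Y i = u i := by
        simp only [repl, Function.update_of_ne hi]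
      rw [this]
      exact Subgroup.subset_closure ⟨_, rfl⟩
  · rw [Subgroup.closure_le]
    rintro _ ⟨i, rfl⟩
    by_cases hi : i = Y.1
    · have h1 : val u Y ∈ Subgroup.closure (Set.range (repl u X Y)) := by
        have e : val u Y = (val (repl u X Y) X)⁻¹ * val (repl u X Y) Y := by
          rw [val_repl_self, val_repl_of_ne u h, inv_mul_cancel_left]
        rw [e]
        exact Subgroup.mul_mem _ (Subgroup.inv_mem _ (val_mem _ X)) (val_mem _ Y)
      have := mem_of_val h1
      rwa [hi]
    · have : u i = repl u X Y i := by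
        simp only [repl, Function.update_of_ne hi]
      rw [this]
      exact Subgroup.subset_closure ⟨_, rfl⟩

/-- `u` is reduced -/
structure Niel (u : ι → FreeGroup α) : Prop where
  A : ∀ X Y, Red2 X Y → (val u Y).norm ≤ (val u X * val u Y).norm
  B : ∀ X Y Z, Red2 X Y → Red2 Y Z → val u Y ≠ 1 →
    canc (val u X) (val u Y) + canc (val u Y) (val u Z) < (val u Y).norm

variable [Fintype ι] (e : α × Bool → ℕ) (B : ℕ)

/-- the potential of a tuple -/
def Pot (u : ι → FreeGroup α) : ℕ ×ₗ ℕ :=
  toLex (∑ i, (u i).norm, ∑ i, pot e B (u i))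

theorem norm_val (u : ι → FreeGroup α) (Y : ι × Bool) : (val u Y).norm = (u Y.1).norm := by
  rcases Y with ⟨j, b⟩
  cases b
  · exact norm_inv_eq
  · rfl

theorem pot_val (u : ι → FreeGroup α) (Y : ι × Bool) :
    pot e B (val u Y) = pot e B (u Y.1) := by
  rcases Y with ⟨j, b⟩
  cases b
  · exact pot_inv e B _
  · rfl

theorem sum_update (f : FreeGroup α → ℕ) (u : ι → FreeGroup α) (j : ι) (w : FreeGroup α) :
    ∑ i, f (Function.update u j w i) + f (u j) = ∑ i, f (u i) + f w := by
  rw [← Finset.add_sum_erase _ (fun i => f (Function.update u j w i)) (Finset.mem_univ j),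
    ← Finset.add_sum_erase _ (fun i => f (u i)) (Finset.mem_univ j)]
  have : ∑ i ∈ Finset.univ.erase j, f (Function.update u j w i) =
      ∑ i ∈ Finset.univ.erase j, f (u i) := by
    apply Finset.sum_congr rfl
    intro i hi
    rw [Function.update_of_ne (Finset.ne_of_mem_erase hi)]
  rw [this, Function.update_self]
  ring

theorem exists_min (u₀ : ι → FreeGroup α) : ∃ u : ι → FreeGroup α,
    Subgroup.closure (Set.range u) = Subgroup.closure (Set.range u₀) ∧
    ∀ X Y : ι × Bool, X.1 ≠ Y.1 → (val u Y).norm ≤ (val u X * val u Y).norm ∧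
      ((val u X * val u Y).norm = (val u Y).norm →
        pot e B (val u Y) ≤ pot e B (val u X * val u Y)) := by
  obtain ⟨u, hu, hmin⟩ := WellFounded.has_min
    (InvImage.wf (Pot (α := α) (ι := ι) e B) (wellFounded_lt (α := ℕ ×ₗ ℕ)))
    {u : ι → FreeGroup α |
      Subgroup.closure (Set.range u) = Subgroup.closure (Set.range u₀)} ⟨u₀, rfl⟩
  refine ⟨u, hu, fun X Y hXY => ?_⟩
  have h1 := hmin (repl u X Y) (by
    show Subgroup.closure (Set.range (repl u X Y)) = _
    rw [closure_repl u hXY]
    exact hu)
  have h2 : ¬ (Pot e B (repl u X Y) < Pot e B u) := h1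
  rw [Pot, Pot, Prod.Lex.toLex_lt_toLex] at h2
  simp only [not_or, not_and, not_lt] at h2
  obtain ⟨h3, h4⟩ := h2
  have n1 := sum_update (fun g => g.norm) u Y.1
    (cond Y.2 (val u X * val u Y) (val u X * val u Y)⁻¹)
  have n2 := sum_update (fun g => pot e B g) u Y.1
    (cond Y.2 (val u X * val u Y) (val u X * val u Y)⁻¹)
  have n3 : (cond Y.2 (val u X * val u Y) (val u X * val u Y)⁻¹).norm =
      (val u X * val u Y).norm := by
    cases Y.2
    · exact norm_inv_eq
    · rfl
  have n4 : pot e B (cond Y.2 (val u X * val u Y) (val u X * val u Y)⁻¹) =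
      pot e B (val u X * val u Y) := by
    cases Y.2
    · exact pot_inv e B _
    · rfl
  simp only [n3, n4] at n1 n2
  rw [norm_val u Y, pot_val e B u Y]
  change ∑ i, (u i).norm ≤ ∑ i, (Function.update u Y.1
    (cond Y.2 (val u X * val u Y) (val u X * val u Y)⁻¹) i).norm at h3
  change ∑ i, (Function.update u Y.1
    (cond Y.2 (val u X * val u Y) (val u X * val u Y)⁻¹) i).norm = ∑ i, (u i).norm →
    ∑ i, pot e B (u i) ≤ ∑ i, pot e B (Function.update u Y.1
    (cond Y.2 (val u X * val u Y) (val u X * val u Y)⁻¹) i) at h4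
  constructor
  · omega
  · intro h5
    have := h4 (by omega)
    omega

/-- every finitely generated subgroup is generated by a reduced tuple of the same size -/
theorem exists_niel (he : Function.Injective e) (hB : ∀ x, e x < B) (hB0 : 0 < B)
    (u₀ : ι → FreeGroup α) : ∃ u : ι → FreeGroup α,
    Subgroup.closure (Set.range u) = Subgroup.closure (Set.range u₀) ∧ Niel u := by
  obtain ⟨u, hu, hmin⟩ := exists_min e B u₀
  refine ⟨u, hu, ?_⟩
  have hA : ∀ X Y : ι × Bool, Red2 X Y → (val u Y).norm ≤ (val u X * val u Y).norm := by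
    intro X Y hXY
    by_cases h : X.1 = Y.1
    · have hXY' : X = Y := Prod.ext h (hXY h)
      subst hXY'
      by_cases h1 : val u X = 1
      · rw [h1]; simp
      · exact (norm_lt_sq h1).le
    · exact (hmin X Y h).1
  have hA' : ∀ X Y : ι × Bool, Red2 X Y → (val u X).norm ≤ (val u X * val u Y).norm := by
    intro X Y hXY
    have := hA (flip Y) (flip X) hXY.flip
    rw [val_flip, val_flip, ← mul_inv_rev, norm_inv_eq, norm_inv_eq] at this
    exact this
  refine ⟨hA, fun X Y Z hXY hYZ hY => ?_⟩
  have a1 := norm_mul_canc (val u X) (val u Y)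
  have a2 := norm_mul_canc (val u Y) (val u Z)
  have a3 := hA' X Y hXY
  have a4 := hA Y Z hYZ
  have a5 := hA X Y hXY
  have a6 := hA' Y Z hYZ
  by_contra hcon
  have b1 : 2 * canc (val u X) (val u Y) = (val u Y).norm := by omega
  have b2 : 2 * canc (val u Y) (val u Z) = (val u Y).norm := by omega
  have hne1 : Y.1 ≠ Z.1 := by
    intro h
    have hYZ' : Y = Z := Prod.ext h (hYZ h)
    subst hYZ'
    have := lcp_lt_of_ne hY
    omega
  have hne2 : X.1 ≠ Y.1 := by
    intro h
    have hXY' : X = Y := Prod.ext h (hXY h)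
    subst hXY'
    have := lcp_lt_of_ne hY
    omega
  rcases lt_trichotomy (code e B (half (val u Y))) (code e B (half (val u Y)⁻¹)) with
    hlt | heq | hlt
  · have h1 := pot_step e B hB0 b2 (by omega) hlt
    have h2 := (hmin Y Z hne1).2 (by omega)
    omega
  · exact code_half_ne e B he hB hY heq
  · have h1 := pot_step e B hB0 (y := (val u Y)⁻¹) (z := (val u X)⁻¹)
      (by rw [canc_inv, norm_inv_eq]; exact b1) (by rw [norm_inv_eq, norm_inv_eq]; omega)
      (by rw [inv_inv]; exact hlt)
    have h2 := (hmin (flip Y) (flip X) (fun h => hne2 h.symm)).2 (by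
      rw [val_flip, val_flip, ← mul_inv_rev, norm_inv_eq, norm_inv_eq]; omega)
    rw [val_flip, val_flip] at h2
    omega

end Nielsen

end Pool.Agent.Lib.MP_47235e_al
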