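import Mathlib
import Pool.Agent.Lib.MP_47235e_al.Nielsen

/-!
# Lengths of products and comparison of balls
-/

set_option autoImplicit false

namespace Pool.Agent.Lib.MP_47235e_al

open FreeGroup

section Length

variable {α ι : Type*} [DecidableEq α]

/-- the value of a word -/
def prodv (u : ι → FreeGroup α) (l : List (ι × Bool)) : FreeGroup α := (l.map (val u)).prod

omit [DecidableEq α] in
theorem prodv_nil (u : ι → FreeGroup α) : prodv u [] = 1 := rfl

omit [DecidableEq α] in
theorem prodv_cons (u : ι → FreeGroup α) (X : ι × Bool) (l : List (ι × Bool)) :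
    prodv u (X :: l) = val u X * prodv u l := by
  simp [prodv]

omit [DecidableEq α] in
theorem lift_eq (u : ι → FreeGroup α) (w : FreeGroup ι) [DecidableEq ι] :
    FreeGroup.lift u w = prodv u w.toWord := by
  conv_lhs => rw [← mk_toWord (x := w)]
  rw [lift_mk]
  rfl

/-- the length computed from the data `a`, `b` -/
def len (a : ι × Bool → ι × Bool → ℕ) (b : ι × Bool → ℕ) : List (ι × Bool) → ℕ
  | [] => 0
  | [X] => b X
  | X :: Y :: l => a X Y + len a b (Y :: l)

theorem len_mono {a a' : ι × Bool → ι × Bool → ℕ} {b b' : ι × Bool → ℕ}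
    (ha : ∀ X Y, a X Y ≤ a' X Y) (hb : ∀ X, b X ≤ b' X) :
    ∀ l, len a b l ≤ len a' b' l
  | [] => le_rfl
  | [X] => hb X
  | X :: Y :: l => Nat.add_le_add (ha X Y) (len_mono ha hb (Y :: l))

/-- the data of a tuple -/
def dA (u : ι → FreeGroup α) (X Y : ι × Bool) : ℕ := (val u X * val u Y).norm - (val u Y).norm

/-- the data of a tuple -/
def dB (u : ι → FreeGroup α) (X : ι × Bool) : ℕ := (val u X).norm

theorem isReduced_tail {X : ι × Bool} {l : List (ι × Bool)} (h : IsReduced (X :: l)) :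
    IsReduced l := by
  cases l with
  | nil => simp
  | cons c l => exact (isReduced_cons_cons.1 h).2

theorem canc_prodv {u : ι → FreeGroup α} (hu : Niel u) (h1 : ∀ X, val u X ≠ 1) :
    ∀ (l : List (ι × Bool)) (Y : ι × Bool), IsReduced (Y :: l) → ∀ X, Red2 X Y →
      canc (val u X) (prodv u (Y :: l)) = canc (val u X) (val u Y)
  | [], Y, _, X, _ => by
    rw [prodv_cons, prodv_nil, mul_one]
  | Z :: l, Y, h, X, hXY => by
    obtain ⟨hYZ, hZl⟩ := isReduced_cons_cons.1 h
    have ih := canc_prodv hu h1 l Z hZl Y hYZ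
    have hB := hu.B X Y Z hXY hYZ (h1 Y)
    rw [prodv_cons u Y (Z :: l)]
    set y := val u Y with hy
    set P := prodv u (Z :: l) with hP
    have e1 := norm_inv_mul y (y * P)
    rw [inv_mul_cancel_left] at e1
    have e2 := norm_mul_canc y P
    have e3 := norm_mul_canc y (val u Z)
    have hlt : lcp y.toWord (val u X)⁻¹.toWord < lcp (y * P).toWord y.toWord := by
      rw [lcp_comm y.toWord, lcp_comm (y * P).toWord]
      change canc (val u X) y < _
      omega
    have := lcp_tree hlt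
    rw [lcp_comm (y * P).toWord, lcp_comm y.toWord] at this
    exact this

theorem norm_prodv_cons {u : ι → FreeGroup α} (hu : Niel u) (h1 : ∀ X, val u X ≠ 1)
    {X Y : ι × Bool} {l : List (ι × Bool)} (h : IsReduced (X :: Y :: l)) :
    (prodv u (X :: Y :: l)).norm = dA u X Y + (prodv u (Y :: l)).norm := by
  obtain ⟨hXY, hYl⟩ := isReduced_cons_cons.1 h
  rw [prodv_cons]
  have e1 := norm_mul_canc (val u X) (prodv u (Y :: l))
  rw [canc_prodv hu h1 l Y hYl X hXY] at e1
  have e2 := norm_mul_canc (val u X) (val u Y)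
  have e3 := hu.A X Y hXY
  unfold dA
  omega

theorem norm_prodv {u : ι → FreeGroup α} (hu : Niel u) (h1 : ∀ X, val u X ≠ 1) :
    ∀ l : List (ι × Bool), IsReduced l → (prodv u l).norm = len (dA u) (dB u) l
  | [], _ => by rw [prodv_nil, FreeGroup.norm_one]; rfl
  | [X], _ => by rw [prodv_cons, prodv_nil, mul_one]; rfl
  | X :: Y :: l, h => by
    rw [norm_prodv_cons hu h1 h, norm_prodv hu h1 (Y :: l) (isReduced_tail h)]
    rfl

theorem prodv_ne_one {u : ι → FreeGroup α} (hu : Niel u) (h1 : ∀ X, val u X ≠ 1) :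
    ∀ l : List (ι × Bool), IsReduced l → l ≠ [] → 0 < (prodv u l).norm
  | [], _, h => absurd rfl h
  | [X], _, _ => by
    rw [prodv_cons, prodv_nil, mul_one, Nat.pos_iff_ne_zero]
    intro h
    exact h1 X (norm_eq_zero.1 h)
  | X :: Y :: l, h, _ => by
    rw [norm_prodv_cons hu h1 h]
    have := prodv_ne_one hu h1 (Y :: l) (isReduced_tail h) (by simp)
    omega

theorem lift_injective [DecidableEq ι] {u : ι → FreeGroup α} (hu : Niel u)
    (h1 : ∀ X, val u X ≠ 1) : Function.Injective (FreeGroup.lift u) := by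
  rw [injective_iff_map_eq_one]
  intro w hw
  by_contra hne
  rw [lift_eq] at hw
  have h2 : w.toWord ≠ [] := fun h => hne (toWord_eq_nil_iff.1 h)
  have := prodv_ne_one hu h1 w.toWord isReduced_toWord h2
  rw [hw, FreeGroup.norm_one] at this
  exact lt_irrefl _ this

theorem norm_lift [DecidableEq ι] {u : ι → FreeGroup α} (hu : Niel u)
    (h1 : ∀ X, val u X ≠ 1) (w : FreeGroup ι) :
    (FreeGroup.lift u w).norm = len (dA u) (dB u) w.toWord := by
  rw [lift_eq]
  exact norm_prodv hu h1 _ isReduced_toWord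

end Length

section Balls

variable {α : Type*} [DecidableEq α] [Finite α]

theorem finite_ball (n : ℕ) : {h : FreeGroup α | h.norm ≤ n}.Finite := by
  have h1 : {l : List (α × Bool) | l.length ≤ n}.Finite := List.finite_length_le (α × Bool) n
  exact Set.Finite.of_finite_image (f := toWord)
    (h1.subset (by rintro _ ⟨h, hh, rfl⟩; exact hh)) toWord_injective.injOn

/-- the ball in a subgroup, counted with words -/
theorem ball_eq {ι : Type*} [DecidableEq ι] {u : ι → FreeGroup α} (hu : Niel u)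
    (h1 : ∀ X, val u X ≠ 1) (n : ℕ) :
    {h : FreeGroup α | h ∈ Subgroup.closure (Set.range u) ∧ h.norm ≤ n}.ncard =
      {w : FreeGroup ι | len (dA u) (dB u) w.toWord ≤ n}.ncard ∧
    {w : FreeGroup ι | len (dA u) (dB u) w.toWord ≤ n}.Finite := by
  have himg : (FreeGroup.lift u) '' {w : FreeGroup ι | len (dA u) (dB u) w.toWord ≤ n} =
      {h : FreeGroup α | h ∈ Subgroup.closure (Set.range u) ∧ h.norm ≤ n} := by
    ext h
    constructor
    · rintro ⟨w, hw, rfl⟩
      refine ⟨?_, ?_⟩
      · rw [← range_lift_eq_closure]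
        exact ⟨w, rfl⟩
      · rw [norm_lift hu h1]
        exact hw
    · rintro ⟨hh, hn⟩
      rw [← range_lift_eq_closure] at hh
      obtain ⟨w, rfl⟩ := hh
      refine ⟨w, ?_, rfl⟩
      rw [norm_lift hu h1] at hn
      exact hn
  have hinj := lift_injective hu h1
  refine ⟨?_, ?_⟩
  · rw [← himg, Set.ncard_image_of_injective _ hinj]
  · refine Set.Finite.of_finite_image (f := FreeGroup.lift u) ?_ hinj.injOn
    rw [himg]
    exact (finite_ball n).subset fun h hh => hh.2

/-- a tuple with smaller data has larger balls (tuples without trivial elements) -/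
theorem ball_le {ι : Type*} [DecidableEq ι] {u v : ι → FreeGroup α} (hu : Niel u)
    (hv : Niel v) (hu1 : ∀ X, val u X ≠ 1) (hv1 : ∀ X, val v X ≠ 1)
    (hA : ∀ X Y, dA u X Y ≤ dA v X Y) (hB : ∀ X, dB u X ≤ dB v X) (n : ℕ) :
    {h : FreeGroup α | h ∈ Subgroup.closure (Set.range v) ∧ h.norm ≤ n}.ncard ≤
      {h : FreeGroup α | h ∈ Subgroup.closure (Set.range u) ∧ h.norm ≤ n}.ncard := by
  rw [(ball_eq hu hu1 n).1, (ball_eq hv hv1 n).1]
  apply Set.ncard_le_ncard _ (ball_eq hu hu1 n).2
  intro w hw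
  exact (len_mono hA hB _).trans hw

end Balls

section Restrict

variable {α ι : Type*} [DecidableEq α]

/-- restriction of a tuple to the indices in `J` -/
def restr (u : ι → FreeGroup α) (J : Set ι) : J → FreeGroup α := fun j => u j

omit [DecidableEq α] in
theorem val_restr (u : ι → FreeGroup α) (J : Set ι) (X : J × Bool) :
    val (restr u J) X = val u ((X.1 : ι), X.2) := rfl

theorem niel_restr {u : ι → FreeGroup α} (hu : Niel u) (J : Set ι) : Niel (restr u J) where
  A X Y h := hu.A (X.1, X.2) (Y.1, Y.2) fun h1 => h (Subtype.ext h1)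
  B X Y Z h h' := hu.B (X.1, X.2) (Y.1, Y.2) (Z.1, Z.2) (fun h1 => h (Subtype.ext h1))
    (fun h1 => h' (Subtype.ext h1))

omit [DecidableEq α] in
theorem val_restr_ne {u : ι → FreeGroup α} {J : Set ι} (hJ : ∀ i, i ∈ J ↔ u i ≠ 1)
    (X : J × Bool) : val (restr u J) X ≠ 1 := by
  have h := (hJ X.1).1 X.1.2
  rcases X with ⟨i, b⟩
  cases b
  · show (u i)⁻¹ ≠ 1
    rwa [Ne, inv_eq_one]
  · exact h

omit [DecidableEq α] in
theorem closure_restr {u : ι → FreeGroup α} {J : Set ι} (hJ : ∀ i, i ∈ J ↔ u i ≠ 1) :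
    Subgroup.closure (Set.range (restr u J)) = Subgroup.closure (Set.range u) := by
  apply le_antisymm
  · rw [Subgroup.closure_le]
    rintro _ ⟨j, rfl⟩
    exact Subgroup.subset_closure ⟨j, rfl⟩
  · rw [Subgroup.closure_le]
    rintro _ ⟨i, rfl⟩
    by_cases h : u i = 1
    · rw [h]
      exact Subgroup.one_mem _
    · exact Subgroup.subset_closure ⟨⟨i, (hJ i).2 h⟩, rfl⟩

/-- a tuple with smaller data has larger balls -/
theorem ball_le' [DecidableEq ι] [Finite α] {u v : ι → FreeGroup α} (hu : Niel u)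
    (hv : Niel v) (h : ∀ i, u i = 1 ↔ v i = 1)
    (hA : ∀ X Y, dA u X Y ≤ dA v X Y) (hB : ∀ X, dB u X ≤ dB v X) (n : ℕ) :
    {h : FreeGroup α | h ∈ Subgroup.closure (Set.range v) ∧ h.norm ≤ n}.ncard ≤
      {h : FreeGroup α | h ∈ Subgroup.closure (Set.range u) ∧ h.norm ≤ n}.ncard := by
  classical
  have hJu : ∀ i, i ∈ {i | u i ≠ 1} ↔ u i ≠ 1 := fun i => Iff.rfl
  have hJv : ∀ i, i ∈ {i | u i ≠ 1} ↔ v i ≠ 1 := fun i => not_congr (h i)
  rw [← closure_restr hJu, ← closure_restr hJv]
  exact ball_le (niel_restr hu _) (niel_restr hv _) (val_restr_ne hJu) (val_restr_ne hJv)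
    (fun X Y => hA (X.1, X.2) (Y.1, Y.2)) (fun X => hB (X.1, X.2)) n

end Restrict

end Pool.Agent.Lib.MP_47235e_al
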