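import Mathlib

/-!
# Growth rates of two sequences with comparable partial sums
-/

set_option autoImplicit false

namespace Pool.Agent.Lib.MP_47235e_al

open Filter Finset
open scoped ENNReal NNReal Topology

/-- `limsup (f n) ^ (1 / n)` -/
noncomputable def rate (f : ℕ → ℕ) : ℝ≥0∞ :=
  limsup (fun n : ℕ => ((f n : ℕ) : ℝ≥0∞) ^ (1 / (n : ℝ))) atTop

theorem pow_le_iff (c : ℕ) (b : ℝ≥0) {n : ℕ} (hn : 0 < n) :
    ((c : ℕ) : ℝ≥0∞) ^ (1 / (n : ℝ)) ≤ (b : ℝ≥0∞) ↔ (c : ℝ) ≤ (b : ℝ) ^ n := by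
  rw [one_div, ENNReal.rpow_inv_le_iff (by exact_mod_cast hn), ENNReal.rpow_natCast]
  constructor
  · intro h
    have h1 : (c : ℝ≥0) ≤ b ^ n := by exact_mod_cast h
    exact_mod_cast h1
  · intro h
    have h1 : (c : ℝ≥0) ≤ b ^ n := by exact_mod_cast h
    exact_mod_cast h1

theorem sum_bound (g : ℕ → ℕ) (b : ℝ) (hb : 1 ≤ b) (N : ℕ)
    (hg : ∀ n, N ≤ n → (g n : ℝ) ≤ b ^ n) :
    ∃ C : ℝ, 0 ≤ C ∧ ∀ n, ∑ k ∈ range (n + 1), (g k : ℝ) ≤ C + (n + 1) * b ^ n := by
  refine ⟨∑ k ∈ range N, (g k : ℝ), Finset.sum_nonneg fun _ _ => Nat.cast_nonneg _, fun n => ?_⟩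
  have h1 : ∀ k ∈ range (n + 1), (g k : ℝ) ≤ (if k < N then (g k : ℝ) else 0) + b ^ n := by
    intro k hk
    rw [mem_range] at hk
    have hb0 : 0 ≤ b ^ n := pow_nonneg (by linarith) _
    by_cases h : k < N
    · rw [if_pos h]; linarith
    · rw [if_neg h, zero_add]
      exact (hg k (by omega)).trans (pow_le_pow_right₀ hb (by omega))
  have h2 : ∑ k ∈ range (n + 1), (if k < N then (g k : ℝ) else 0) ≤
      ∑ k ∈ range N, (g k : ℝ) := by
    rw [← Finset.sum_filter]
    apply Finset.sum_le_sum_of_subset_of_nonneg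
    · intro k hk
      simp only [Finset.mem_filter] at hk
      exact mem_range.2 hk.2
    · intro k _ _
      exact Nat.cast_nonneg _
  calc ∑ k ∈ range (n + 1), (g k : ℝ)
      ≤ ∑ k ∈ range (n + 1), ((if k < N then (g k : ℝ) else 0) + b ^ n) := Finset.sum_le_sum h1
    _ = ∑ k ∈ range (n + 1), (if k < N then (g k : ℝ) else 0) + (n + 1) * b ^ n := by
        rw [Finset.sum_add_distrib]; simp
    _ ≤ _ := by linarith

theorem rate_eq_zero {f : ℕ → ℕ} (h : ∀ᶠ n in atTop, f n = 0) : rate f = 0 := by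
  unfold rate
  have h1 : (fun n : ℕ => ((f n : ℕ) : ℝ≥0∞) ^ (1 / (n : ℝ))) =ᶠ[atTop] fun _ => 0 := by
    filter_upwards [h, eventually_ge_atTop 1] with n hn hn1
    rw [hn, Nat.cast_zero, ENNReal.zero_rpow_of_pos]
    have : (0 : ℝ) < n := by exact_mod_cast hn1
    positivity
  rw [limsup_congr h1]
  simp

/-- growth rates are monotone in the partial sums -/
theorem rate_le {f g : ℕ → ℕ}
    (h : ∀ n, ∑ k ∈ range (n + 1), f k ≤ ∑ k ∈ range (n + 1), g k) : rate f ≤ rate g := by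
  rcases lt_or_ge (rate g) 1 with h1 | h1
  · -- `g` is eventually zero
    have hg : ∀ᶠ n in atTop, g n = 0 := by
      have h2 := eventually_lt_of_limsup_lt h1
      filter_upwards [h2, eventually_ge_atTop 1] with n hn hn1
      by_contra hne
      have h3 : (1 : ℝ≥0∞) ≤ ((g n : ℕ) : ℝ≥0∞) := by
        exact_mod_cast Nat.one_le_iff_ne_zero.2 hne
      have h4 : (1 : ℝ≥0∞) ≤ ((g n : ℕ) : ℝ≥0∞) ^ (1 / (n : ℝ)) := by
        apply ENNReal.one_le_rpow h3
        have : (0 : ℝ) < n := by exact_mod_cast hn1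
        positivity
      exact absurd hn (not_lt.2 h4)
    obtain ⟨N, hN⟩ := eventually_atTop.1 hg
    have hb : ∀ n, ∑ k ∈ range n, (g k : ℝ) ≤ ∑ k ∈ range N, (g k : ℝ) := by
      intro n
      rw [← Finset.sum_filter_add_sum_filter_not (range n) (fun k => k < N)]
      have e1 : ∑ k ∈ (range n).filter (fun k => ¬ k < N), (g k : ℝ) = 0 := by
        apply Finset.sum_eq_zero
        intro k hk
        simp only [Finset.mem_filter, not_lt] at hk
        simp [hN k hk.2]
      rw [e1, add_zero]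
      apply Finset.sum_le_sum_of_subset_of_nonneg
      · intro k hk
        simp only [Finset.mem_filter] at hk
        exact mem_range.2 hk.2
      · intro k _ _
        exact Nat.cast_nonneg _
    have hs : Summable fun k => (f k : ℝ) := by
      apply summable_of_sum_range_le (c := ∑ k ∈ range N, (g k : ℝ))
        (fun n => Nat.cast_nonneg _)
      intro n
      rcases n with _ | n
      · simp only [range_zero, sum_empty]
        exact Finset.sum_nonneg fun _ _ => Nat.cast_nonneg _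
      · have h2 : (∑ k ∈ range (n + 1), (f k : ℝ)) ≤ ∑ k ∈ range (n + 1), (g k : ℝ) := by
          exact_mod_cast h n
        exact h2.trans (hb _)
    have ht := hs.tendsto_atTop_zero
    have hf : ∀ᶠ n in atTop, f n = 0 := by
      have h2 := ht.eventually (gt_mem_nhds (zero_lt_one : (0 : ℝ) < 1))
      filter_upwards [h2] with n hn
      have : f n < 1 := by exact_mod_cast hn
      omega
    rw [rate_eq_zero hf]
    exact zero_le
  · -- the main case
    by_contra hlt
    rw [not_le] at hlt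
    obtain ⟨b', hb1, hb2⟩ := ENNReal.lt_iff_exists_nnreal_btwn.1 hlt
    obtain ⟨b, hb3, hb4⟩ := ENNReal.lt_iff_exists_nnreal_btwn.1 hb1
    have hb0 : (1 : ℝ) < (b : ℝ) := by
      have h2 : (1 : ℝ≥0∞) < (b : ℝ≥0∞) := lt_of_le_of_lt h1 hb3
      exact_mod_cast h2
    have hbb : (b : ℝ) < (b' : ℝ) := by exact_mod_cast hb4
    have h2 := eventually_lt_of_limsup_lt hb3
    obtain ⟨N, hN⟩ := eventually_atTop.1 (h2.and (eventually_ge_atTop 1))
    obtain ⟨C, hC0, hC⟩ := sum_bound g b hb0.le N fun n hn =>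
      (pow_le_iff _ b (hN n hn).2).1 (hN n hn).1.le
    -- eventually `f n ≤ b' ^ n`
    have hρ : (1 : ℝ) < b' / b := by
      rw [one_lt_div (by linarith)]
      exact hbb
    have ht := tendsto_pow_const_div_const_pow_of_one_lt 1 hρ
    have hpos : (0 : ℝ) < 1 / (2 * (C + 1)) := by positivity
    have h3 := ht.eventually (gt_mem_nhds hpos)
    have hev : ∀ᶠ n : ℕ in atTop, ((f n : ℕ) : ℝ≥0∞) ^ (1 / (n : ℝ)) ≤ (b' : ℝ≥0∞) := by
      filter_upwards [h3, eventually_ge_atTop 1] with n hn hn1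
      rw [pow_le_iff _ _ hn1]
      have hbn : (1 : ℝ) ≤ (b : ℝ) ^ n := one_le_pow₀ hb0.le
      have e1 : (f n : ℝ) ≤ ∑ k ∈ range (n + 1), (f k : ℝ) :=
        Finset.single_le_sum (f := fun k => (f k : ℝ)) (fun _ _ => Nat.cast_nonneg _)
          (by simp)
      have e2 : (∑ k ∈ range (n + 1), (f k : ℝ)) ≤ ∑ k ∈ range (n + 1), (g k : ℝ) := by
        exact_mod_cast h n
      have e3 := hC n
      have hn1' : (1 : ℝ) ≤ n := by exact_mod_cast hn1
      have e4 : C + (n + 1) * (b : ℝ) ^ n ≤ 2 * (C + 1) * n * (b : ℝ) ^ n := by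
        have q1 : C ≤ C * (n * (b : ℝ) ^ n) := by
          have : (1 : ℝ) ≤ n * (b : ℝ) ^ n := by nlinarith
          nlinarith
        have q2 : ((n : ℝ) + 1) * (b : ℝ) ^ n ≤ 2 * n * (b : ℝ) ^ n := by
          have : (n : ℝ) + 1 ≤ 2 * n := by linarith
          exact mul_le_mul_of_nonneg_right this (by linarith)
        have q3 : 0 ≤ C * (n * (b : ℝ) ^ n) := by positivity
        nlinarith
      have e5 : 2 * (C + 1) * n * (b : ℝ) ^ n ≤ (b' : ℝ) ^ n := by
        have hr : (0 : ℝ) < (b' / b : ℝ) ^ n := by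
          have : (0 : ℝ) < b' / b := by linarith
          positivity
        rw [pow_one, div_lt_div_iff₀ hr (by positivity), one_mul] at hn
        have hbne : (b : ℝ) ≠ 0 := by linarith
        have hbn0 : (0 : ℝ) < (b : ℝ) ^ n := by linarith
        have e6 : (b' / b : ℝ) ^ n * (b : ℝ) ^ n = (b' : ℝ) ^ n := by
          rw [← mul_pow, div_mul_cancel₀ _ hbne]
        rw [← e6]
        apply mul_le_mul_of_nonneg_right _ hbn0.le
        linarith
      linarith
    have h5 : rate f ≤ (b' : ℝ≥0∞) := limsup_le_of_le (h := hev)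
    exact absurd hb2 (not_lt.2 h5)

end Pool.Agent.Lib.MP_47235e_al
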