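import Mathlib
import Pool.Agent.Lib.MP_47235e_al.Ball
import Pool.Agent.Lib.MP_47235e_al.Growth

/-!
# Rank two, part 1: tuples that are also minimal under conjugation
-/

set_option autoImplicit false

namespace Pool.Agent.Lib.MP_47235e_al

open FreeGroup

section MinTuple

variable {α ι : Type*} [DecidableEq α] [DecidableEq ι] [Fintype ι] (e : α × Bool → ℕ) (B : ℕ)

theorem exists_min_two (u₀ : ι → FreeGroup α) : ∃ u : ι → FreeGroup α,
    Subgroup.closure (Set.range u) = Subgroup.closure (Set.range u₀) ∧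
    (∀ X Y : ι × Bool, X.1 ≠ Y.1 → (val u Y).norm ≤ (val u X * val u Y).norm ∧
      ((val u X * val u Y).norm = (val u Y).norm →
        pot e B (val u Y) ≤ pot e B (val u X * val u Y))) ∧
    ∑ i, (u i).norm ≤ ∑ i, (u₀ i).norm := by
  obtain ⟨u, hu, hmin⟩ := WellFounded.has_min
    (InvImage.wf (Pot (α := α) (ι := ι) e B) (wellFounded_lt (α := ℕ ×ₗ ℕ)))
    {u : ι → FreeGroup α |
      Subgroup.closure (Set.range u) = Subgroup.closure (Set.range u₀)} ⟨u₀, rfl⟩
  refine ⟨u, hu, fun X Y hXY => ?_, ?_⟩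
  · have h1 := hmin (repl u X Y) (by
      show Subgroup.closure (Set.range (repl u X Y)) = _
      rw [closure_repl u hXY]
      exact hu)
    have h2 : ¬ (Pot e B (repl u X Y) < Pot e B u) := h1
    rw [Pot, Pot, Prod.Lex.toLex_lt_toLex] at h2
    simp only [not_or, not_and, not_lt] at h2
    obtain ⟨h3, h4⟩ := h2
    have n1 := sum_update (fun g => g.norm) u Y.1
      (cond Y.2 (val u X * val u Y) (val u X * val u Y)⁻¹)
    have n2 := sum_update (fun g => pot e B g) u Y.1
      (cond Y.2 (val u X * val u Y) (val u X * val u Y)⁻¹)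
    have n3 : (cond Y.2 (val u X * val u Y) (val u X * val u Y)⁻¹).norm =
        (val u X * val u Y).norm := by
      cases Y.2
      · exact norm_inv_eq
      · rfl
    have n4 : pot e B (cond Y.2 (val u X * val u Y) (val u X * val u Y)⁻¹) =
        pot e B (val u X * val u Y) := by
      cases Y.2
      · exact pot_inv e B _
      · rfl
    simp only [n3, n4] at n1 n2
    rw [norm_val u Y, pot_val e B u Y]
    change ∑ i, (u i).norm ≤ ∑ i, (Function.update u Y.1
      (cond Y.2 (val u X * val u Y) (val u X * val u Y)⁻¹) i).norm at h3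
    change ∑ i, (Function.update u Y.1
      (cond Y.2 (val u X * val u Y) (val u X * val u Y)⁻¹) i).norm = ∑ i, (u i).norm →
      ∑ i, pot e B (u i) ≤ ∑ i, pot e B (Function.update u Y.1
      (cond Y.2 (val u X * val u Y) (val u X * val u Y)⁻¹) i) at h4
    constructor
    · omega
    · intro h5
      have := h4 (by omega)
      omega
  · have h2 : ¬ (Pot e B u₀ < Pot e B u) := hmin u₀ rfl
    rw [Pot, Pot, Prod.Lex.toLex_lt_toLex] at h2
    simp only [not_or, not_and, not_lt] at h2
    exact h2.1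

/-- every finitely generated subgroup is generated by a reduced tuple of the same size and of
no larger total length -/
theorem exists_niel_two (he : Function.Injective e) (hB : ∀ x, e x < B) (hB0 : 0 < B)
    (u₀ : ι → FreeGroup α) : ∃ u : ι → FreeGroup α,
    Subgroup.closure (Set.range u) = Subgroup.closure (Set.range u₀) ∧ Niel u ∧
    ∑ i, (u i).norm ≤ ∑ i, (u₀ i).norm := by
  obtain ⟨u, hu, hmin, hsum⟩ := exists_min_two e B u₀
  refine ⟨u, hu, ?_, hsum⟩
  have hA : ∀ X Y : ι × Bool, Red2 X Y → (val u Y).norm ≤ (val u X * val u Y).norm := by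
    intro X Y hXY
    by_cases h : X.1 = Y.1
    · have hXY' : X = Y := Prod.ext h (hXY h)
      subst hXY'
      by_cases h1 : val u X = 1
      · rw [h1]; simp
      · exact (norm_lt_sq h1).le
    · exact (hmin X Y h).1
  have hA' : ∀ X Y : ι × Bool, Red2 X Y → (val u X).norm ≤ (val u X * val u Y).norm := by
    intro X Y hXY
    have := hA (flip Y) (flip X) hXY.flip
    rw [val_flip, val_flip, ← mul_inv_rev, norm_inv_eq, norm_inv_eq] at this
    exact this
  refine ⟨hA, fun X Y Z hXY hYZ hY => ?_⟩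
  have a1 := norm_mul_canc (val u X) (val u Y)
  have a2 := norm_mul_canc (val u Y) (val u Z)
  have a3 := hA' X Y hXY
  have a4 := hA Y Z hYZ
  have a5 := hA X Y hXY
  have a6 := hA' Y Z hYZ
  by_contra hcon
  have b1 : 2 * canc (val u X) (val u Y) = (val u Y).norm := by omega
  have b2 : 2 * canc (val u Y) (val u Z) = (val u Y).norm := by omega
  have hne1 : Y.1 ≠ Z.1 := by
    intro h
    have hYZ' : Y = Z := Prod.ext h (hYZ h)
    subst hYZ'
    have := lcp_lt_of_ne hY
    omega
  have hne2 : X.1 ≠ Y.1 := by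
    intro h
    have hXY' : X = Y := Prod.ext h (hXY h)
    subst hXY'
    have := lcp_lt_of_ne hY
    omega
  rcases lt_trichotomy (code e B (half (val u Y))) (code e B (half (val u Y)⁻¹)) with
    hlt | heq | hlt
  · have h1 := pot_step e B hB0 b2 (by omega) hlt
    have h2 := (hmin Y Z hne1).2 (by omega)
    omega
  · exact code_half_ne e B he hB hY heq
  · have h1 := pot_step e B hB0 (y := (val u Y)⁻¹) (z := (val u X)⁻¹)
      (by rw [canc_inv, norm_inv_eq]; exact b1) (by rw [norm_inv_eq, norm_inv_eq]; omega)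
      (by rw [inv_inv]; exact hlt)
    have h2 := (hmin (flip Y) (flip X) (fun h => hne2 h.symm)).2 (by
      rw [val_flip, val_flip, ← mul_inv_rev, norm_inv_eq, norm_inv_eq]; omega)
    rw [val_flip, val_flip] at h2
    omega

end MinTuple

section Conj

variable {m : ℕ} {ι : Type*} [DecidableEq ι] [Fintype ι]

theorem exists_niel_fin (u₀ : ι → FreeGroup (Fin m)) :
    ∃ u : ι → FreeGroup (Fin m),
      Subgroup.closure (Set.range u) = Subgroup.closure (Set.range u₀) ∧ Niel u ∧
      ∑ i, (u i).norm ≤ ∑ i, (u₀ i).norm := by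
  refine exists_niel_two (fun x : Fin m × Bool => 2 * (x.1 : ℕ) + (if x.2 then 1 else 0))
    (2 * m + 1) ?_ ?_ (by omega) u₀
  · rintro ⟨i, b⟩ ⟨j, c⟩ h
    simp only at h
    cases b <;> cases c <;> simp at h ⊢ <;> omega
  · rintro ⟨i, b⟩
    have := i.2
    cases b <;> simp <;> omega

/-- the conjugate subgroup `g H g⁻¹` -/
def cj (g : FreeGroup (Fin m)) (H : Subgroup (FreeGroup (Fin m))) :
    Subgroup (FreeGroup (Fin m)) := H.map (MulAut.conj g).toMonoidHom

theorem cj_cj (g h : FreeGroup (Fin m)) (H : Subgroup (FreeGroup (Fin m))) :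
    cj g (cj h H) = cj (g * h) H := by
  unfold cj
  rw [Subgroup.map_map]
  congr 1
  ext x
  simp [MulAut.conj_apply]

theorem cj_one (H : Subgroup (FreeGroup (Fin m))) : cj 1 H = H := by
  unfold cj
  have : (MulAut.conj (1 : FreeGroup (Fin m))).toMonoidHom = MonoidHom.id _ := by
    ext x
    simp
  rw [this, Subgroup.map_id]

theorem cj_closure (g : FreeGroup (Fin m)) (u : ι → FreeGroup (Fin m)) :
    cj g (Subgroup.closure (Set.range u)) =
      Subgroup.closure (Set.range fun i => g * u i * g⁻¹) := by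
  unfold cj
  rw [MonoidHom.map_closure, ← Set.range_comp]
  rfl

/-- a tuple of minimal total length among all tuples that generate a conjugate -/
theorem exists_conj_min (u₀ : ι → FreeGroup (Fin m)) :
    ∃ (g : FreeGroup (Fin m)) (u : ι → FreeGroup (Fin m)),
      Subgroup.closure (Set.range u) = cj g (Subgroup.closure (Set.range u₀)) ∧ Niel u ∧
      ∀ h : FreeGroup (Fin m), ∑ i, (u i).norm ≤ ∑ i, (h * u i * h⁻¹).norm := by
  classical
  have hex : ∃ n : ℕ, ∃ (g : FreeGroup (Fin m)) (u : ι → FreeGroup (Fin m)),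
      Subgroup.closure (Set.range u) = cj g (Subgroup.closure (Set.range u₀)) ∧
      ∑ i, (u i).norm = n := ⟨_, 1, u₀, (cj_one _).symm, rfl⟩
  obtain ⟨g, u₁, h1, h2⟩ := Nat.find_spec hex
  obtain ⟨u, h3, h4, h5⟩ := exists_niel_fin u₁
  refine ⟨g, u, h3.trans h1, h4, fun h => ?_⟩
  have h6 := Nat.find_min' hex ⟨h * g, fun i => h * u i * h⁻¹, by
    rw [← cj_closure, h3, h1, cj_cj], rfl⟩
  have h7 : Nat.find hex ≤ ∑ i, (h * u i * h⁻¹).norm := h6
  omega

end Conj

end Pool.Agent.Lib.MP_47235e_al
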