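import Mathlib
import Pool.Agent.Lib.MP_47235e_al.Two1

/-!
# Part 2: common first letters
-/

set_option autoImplicit false

namespace Pool.Agent.Lib.MP_47235e_al

open FreeGroup

section Head

variable {α : Type*} [DecidableEq α]

/-- the length of the common initial segment of `x` and `y` -/
def kap (x y : FreeGroup α) : ℕ := lcp x.toWord y.toWord

theorem kap_comm (x y : FreeGroup α) : kap x y = kap y x := lcp_comm _ _

theorem canc_eq (x y : FreeGroup α) : canc x y = kap x⁻¹ y := rfl

/-- the reduced word of `x` begins with the letter `a` -/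
def Begins (x : FreeGroup α) (a : α × Bool) : Prop := ∃ t, x.toWord = a :: t

theorem kap_pos {x y : FreeGroup α} : 0 < kap x y ↔ ∃ a, Begins x a ∧ Begins y a := by
  unfold kap Begins
  constructor
  · intro h
    cases hx : x.toWord with
    | nil => rw [hx] at h; simp [lcp] at h
    | cons a t =>
      cases hy : y.toWord with
      | nil => rw [hx, hy] at h; simp [lcp] at h
      | cons b t' =>
        rw [hx, hy] at h
        by_cases hab : a = b
        · subst hab
          exact ⟨a, ⟨t, rfl⟩, ⟨t', rfl⟩⟩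
        · simp [lcp, hab] at h
  · rintro ⟨a, ⟨t, hx⟩, ⟨t', hy⟩⟩
    rw [hx, hy]
    simp [lcp]

theorem begins_unique {x : FreeGroup α} {a b : α × Bool} (h : Begins x a) (h' : Begins x b) :
    a = b := by
  obtain ⟨t, ht⟩ := h
  obtain ⟨t', ht'⟩ := h'
  rw [ht] at ht'
  exact (List.cons.inj ht').1

theorem toWord_single (a : α × Bool) : (mk [a]).toWord = [a] := toWord_mk_of (by simp)

theorem norm_single (a : α × Bool) : (mk [a]).norm = 1 := by
  rw [FreeGroup.norm, toWord_single]; rfl

theorem lcp_single {a : α × Bool} {x : FreeGroup α} (h : Begins x a) :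
    lcp (mk [a]).toWord x.toWord = 1 := by
  obtain ⟨t, ht⟩ := h
  rw [toWord_single, ht]
  simp [lcp]

/-- `|a⁻¹ x| + 1 = |x|` if `x` begins with `a` -/
theorem norm_strip {a : α × Bool} {x : FreeGroup α} (h : Begins x a) :
    ((mk [a])⁻¹ * x).norm + 1 = x.norm := by
  have h1 := norm_inv_mul (mk [a]) x
  rw [lcp_single h, norm_single] at h1
  omega

theorem norm_conj_le {a : α × Bool} {x : FreeGroup α} (h : Begins x a) :
    ((mk [a])⁻¹ * x * (mk [a])⁻¹⁻¹).norm ≤ x.norm := by
  have h1 := norm_strip h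
  have h2 := norm_mul_le ((mk [a])⁻¹ * x) (mk [a] : FreeGroup α)
  rw [norm_single] at h2
  rw [inv_inv]
  omega

theorem norm_conj_le' {a : α × Bool} {x : FreeGroup α} (h : Begins x⁻¹ a) :
    ((mk [a])⁻¹ * x * (mk [a])⁻¹⁻¹).norm ≤ x.norm := by
  have h1 := norm_conj_le h
  have h2 : (mk [a])⁻¹ * x * (mk [a])⁻¹⁻¹ = ((mk [a])⁻¹ * x⁻¹ * (mk [a])⁻¹⁻¹)⁻¹ := by group
  rw [h2, norm_inv_eq]
  rw [norm_inv_eq] at h1
  exact h1

theorem norm_conj_two {a : α × Bool} {x : FreeGroup α} (h : Begins x a) (h' : Begins x⁻¹ a) :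
    ((mk [a])⁻¹ * x * (mk [a])⁻¹⁻¹).norm + 2 ≤ x.norm := by
  rw [inv_inv]
  set g : FreeGroup α := mk [a] with hg
  have hg1 : g.norm = 1 := norm_single a
  have h1 : (g⁻¹ * x).norm + 1 = x.norm := norm_strip h
  have h2 : (g⁻¹ * x⁻¹).norm + 1 = x⁻¹.norm := norm_strip h'
  have h3 : (x * g).norm + 1 = x.norm := by
    have e : g⁻¹ * x⁻¹ = (x * g)⁻¹ := by group
    rw [e, norm_inv_eq, norm_inv_eq] at h2
    exact h2
  have hx2 : 2 ≤ x.norm := by
    by_contra hlt
    have hx1 : x.norm = 1 := by omega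
    have e1 : g⁻¹ * x = 1 := norm_eq_zero.1 (by omega)
    have e2 : x * g = 1 := norm_eq_zero.1 (by omega)
    have e3 : x = g := by
      have := congrArg (fun y => g * y) e1
      simpa using this
    rw [e3] at e2
    have hgne : g ≠ 1 := by
      intro h0
      rw [h0, FreeGroup.norm_one] at hg1
      exact absurd hg1 (by norm_num)
    have := norm_lt_sq hgne
    rw [e2, FreeGroup.norm_one] at this
    omega
  have h4 := norm_inv_mul x (x * g)
  rw [inv_mul_cancel_left, hg1] at h4
  have h5 : 1 ≤ lcp x.toWord (x * g).toWord := by omega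
  obtain ⟨c1, c2, c3⟩ := (le_lcp_iff _ _ _).1 h5
  have h6 : 1 ≤ lcp g.toWord (x * g).toWord := by
    obtain ⟨t, ht⟩ := h
    rw [le_lcp_iff]
    refine ⟨?_, c2, ?_⟩
    · rw [hg, toWord_single]; simp
    · rw [← c3, ht, hg, toWord_single]
      simp
  have h7 := norm_inv_mul g (x * g)
  rw [hg1] at h7
  rw [mul_assoc]
  omega

end Head

end Pool.Agent.Lib.MP_47235e_al
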