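import Mathlib
import Pool.Agent.Lib.MP_47235e_al.Two1

/-!
# Rank two, part 3: counting words with a positive subeigenvector
-/

set_option autoImplicit false

namespace Pool.Agent.Lib.MP_47235e_al

open FreeGroup

section Count

variable {ι : Type*} [DecidableEq ι] [Fintype ι]

/-- the words with `k + 1` letters, first letter `X` and length at most `n` -/
def Wd (a : ι × Bool → ι × Bool → ℕ) (b : ι × Bool → ℕ) :
    ℕ → ι × Bool → ℕ → Finset (List (ι × Bool))
  | 0, X, n => if b X ≤ n then {[X]} else ∅
  | k + 1, X, n => (Finset.univ.filter fun Y : ι × Bool => Y ≠ flip X).biUnion fun Y =>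
      if a X Y ≤ n then (Wd a b k Y (n - a X Y)).image (fun l => X :: l) else ∅

theorem mem_Wd (a : ι × Bool → ι × Bool → ℕ) (b : ι × Bool → ℕ) :
    ∀ (l : List (ι × Bool)) (X : ι × Bool) (n : ℕ), IsReduced (X :: l) →
      len a b (X :: l) ≤ n → X :: l ∈ Wd a b l.length X n
  | [], X, n, _, hn => by
    have : b X ≤ n := hn
    simp [Wd, this]
  | Y :: l, X, n, h, hn => by
    obtain ⟨h1, h2⟩ := isReduced_cons_cons.1 h
    have hn' : a X Y + len a b (Y :: l) ≤ n := hn
    have ih := mem_Wd a b l Y (n - a X Y) h2 (by omega)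
    have hne : Y ≠ flip X := by
      rintro rfl
      have h3 := h1 rfl
      revert h3
      show X.2 = (!X.2) → False
      cases X.2 <;> simp
    rw [List.length_cons, Wd, Finset.mem_biUnion]
    refine ⟨Y, by simp [hne], ?_⟩
    rw [if_pos (by omega)]
    exact Finset.mem_image_of_mem _ ih

theorem card_Wd (a : ι × Bool → ι × Bool → ℕ) (b : ι × Bool → ℕ) {s c : ℝ} (hs0 : 0 < s)
    (hs1 : s ≤ 1) {f : ι × Bool → ℝ}
    (hf : ∀ X, ∑ Y ∈ Finset.univ.filter (fun Y : ι × Bool => Y ≠ flip X),
      s ^ (a X Y) * f Y ≤ f X) (hc0 : 0 ≤ c) (hc : ∀ X, 1 ≤ c * f X) :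
    ∀ (k : ℕ) (X : ι × Bool) (n : ℕ), ((Wd a b k X n).card : ℝ) * s ^ n ≤ c * f X := by
  intro k
  induction k with
  | zero =>
    intro X n
    have h1 : s ^ n ≤ 1 := pow_le_one₀ hs0.le hs1
    have h2 := hc X
    unfold Wd
    split_ifs
    · rw [Finset.card_singleton, Nat.cast_one, one_mul]
      linarith
    · rw [Finset.card_empty, Nat.cast_zero, zero_mul]
      linarith
  | succ k ih =>
    intro X n
    have h1 : ((Wd a b (k + 1) X n).card : ℝ) ≤
        ∑ Y ∈ Finset.univ.filter (fun Y : ι × Bool => Y ≠ flip X),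
          (((if a X Y ≤ n then (Wd a b k Y (n - a X Y)).image (fun l => X :: l)
            else ∅ : Finset (List (ι × Bool))).card : ℕ) : ℝ) := by
      rw [Wd]
      exact_mod_cast Finset.card_biUnion_le
    calc ((Wd a b (k + 1) X n).card : ℝ) * s ^ n
        ≤ (∑ Y ∈ Finset.univ.filter (fun Y : ι × Bool => Y ≠ flip X),
          (((if a X Y ≤ n then (Wd a b k Y (n - a X Y)).image (fun l => X :: l)
            else ∅ : Finset (List (ι × Bool))).card : ℕ) : ℝ)) * s ^ n :=
          mul_le_mul_of_nonneg_right h1 (pow_pos hs0 n).le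
      _ = ∑ Y ∈ Finset.univ.filter (fun Y : ι × Bool => Y ≠ flip X),
          (((if a X Y ≤ n then (Wd a b k Y (n - a X Y)).image (fun l => X :: l)
            else ∅ : Finset (List (ι × Bool))).card : ℕ) : ℝ) * s ^ n := by
          rw [Finset.sum_mul]
      _ ≤ ∑ Y ∈ Finset.univ.filter (fun Y : ι × Bool => Y ≠ flip X),
          c * (s ^ (a X Y) * f Y) := by
          apply Finset.sum_le_sum
          intro Y _
          have hY : 0 ≤ c * f Y := by linarith [hc Y]
          split_ifs with h
          · have e1 : (((Wd a b k Y (n - a X Y)).image (fun l => X :: l)).card : ℝ) ≤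
                ((Wd a b k Y (n - a X Y)).card : ℝ) := by
              exact_mod_cast Finset.card_image_le
            have e2 : s ^ n = s ^ (a X Y) * s ^ (n - a X Y) := by
              rw [← pow_add]; congr 1; omega
            have e3 := ih Y (n - a X Y)
            have e4 : 0 < s ^ (a X Y) := pow_pos hs0 _
            have e5 : 0 < s ^ n := pow_pos hs0 _
            calc (((Wd a b k Y (n - a X Y)).image (fun l => X :: l)).card : ℝ) * s ^ n
                ≤ ((Wd a b k Y (n - a X Y)).card : ℝ) * s ^ n :=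
                  mul_le_mul_of_nonneg_right e1 e5.le
              _ = s ^ (a X Y) * (((Wd a b k Y (n - a X Y)).card : ℝ) * s ^ (n - a X Y)) := by
                  rw [e2]; ring
              _ ≤ s ^ (a X Y) * (c * f Y) := mul_le_mul_of_nonneg_left e3 e4.le
              _ = c * (s ^ (a X Y) * f Y) := by ring
          · rw [Finset.card_empty, Nat.cast_zero, zero_mul]
            have : 0 < s ^ (a X Y) := pow_pos hs0 _
            have e : c * (s ^ (a X Y) * f Y) = s ^ (a X Y) * (c * f Y) := by ring
            rw [e]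
            exact mul_nonneg this.le hY
      _ = c * ∑ Y ∈ Finset.univ.filter (fun Y : ι × Bool => Y ≠ flip X),
          s ^ (a X Y) * f Y := by rw [Finset.mul_sum]
      _ ≤ c * f X := mul_le_mul_of_nonneg_left (hf X) hc0

end Count

section Ball

variable {α ι : Type*} [DecidableEq α] [DecidableEq ι]

theorem length_le_norm {u : ι → FreeGroup α} (hu : Niel u) (h1 : ∀ X, val u X ≠ 1) :
    ∀ (l : List (ι × Bool)) (X Y : ι × Bool), IsReduced (Y :: l) → Red2 X Y →
      canc (val u X) (val u Y) + (l.length + 1) ≤ (prodv u (Y :: l)).norm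
  | [], X, Y, _, hXY => by
    rw [prodv_cons, prodv_nil, mul_one]
    have := hu.B X Y Y hXY (fun _ => rfl) (h1 Y)
    simp only [List.length_nil]
    omega
  | Z :: l, X, Y, h, hXY => by
    obtain ⟨hYZ, hZ⟩ := isReduced_cons_cons.1 h
    have ih := length_le_norm hu h1 l Y Z hZ hYZ
    rw [norm_prodv_cons hu h1 h]
    have e1 := norm_mul_canc (val u Y) (val u Z)
    have e2 := hu.A Y Z hYZ
    have e3 := hu.B X Y Z hXY hYZ (h1 Y)
    unfold dA
    simp only [List.length_cons]
    omega

theorem length_le_len {u : ι → FreeGroup α} (hu : Niel u) (h1 : ∀ X, val u X ≠ 1)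
    {l : List (ι × Bool)} (h : IsReduced l) : l.length ≤ len (dA u) (dB u) l := by
  cases l with
  | nil => simp
  | cons Y l =>
    rw [← norm_prodv hu h1 _ h]
    have := length_le_norm hu h1 l Y Y h (fun _ => rfl)
    simp only [List.length_cons]
    omega

theorem ball_bound [Fintype ι] [Finite α] {u : ι → FreeGroup α} (hu : Niel u)
    (h1 : ∀ X, val u X ≠ 1) {s c : ℝ} (hs0 : 0 < s) (hs1 : s ≤ 1) {f : ι × Bool → ℝ}
    (hf : ∀ X, ∑ Y ∈ Finset.univ.filter (fun Y : ι × Bool => Y ≠ flip X),
      s ^ (dA u X Y) * f Y ≤ f X) (hc0 : 0 ≤ c) (hc : ∀ X, 1 ≤ c * f X) (n : ℕ) :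
    ({h : FreeGroup α | h ∈ Subgroup.closure (Set.range u) ∧ h.norm ≤ n}.ncard : ℝ) * s ^ n ≤
      1 + n * ∑ X, c * f X := by
  rw [(ball_eq hu h1 n).1]
  set T : Finset (List (ι × Bool)) := {[]} ∪ (Finset.range n).biUnion fun k =>
    Finset.univ.biUnion fun X => Wd (dA u) (dB u) k X n with hT
  have h2 : {w : FreeGroup ι | len (dA u) (dB u) w.toWord ≤ n}.ncard ≤ T.card := by
    rw [← Set.ncard_coe_finset T]
    apply Set.ncard_le_ncard_of_injOn (fun w : FreeGroup ι => w.toWord)
    · intro w hw
      have hw' : len (dA u) (dB u) w.toWord ≤ n := hw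
      have hr : IsReduced w.toWord := isReduced_toWord
      have hl := length_le_len hu h1 hr
      show w.toWord ∈ (T : Set (List (ι × Bool)))
      rw [Finset.mem_coe, hT, Finset.mem_union]
      cases hwl : w.toWord with
      | nil => left; simp
      | cons X l =>
        right
        rw [hwl] at hw' hr hl
        rw [Finset.mem_biUnion]
        refine ⟨l.length, ?_, ?_⟩
        · rw [Finset.mem_range]
          simp only [List.length_cons] at hl
          omega
        · rw [Finset.mem_biUnion]
          exact ⟨X, Finset.mem_univ _, mem_Wd _ _ l X n hr hw'⟩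
    · exact toWord_injective.injOn
  have h3 : (T.card : ℝ) ≤ 1 + ∑ k ∈ Finset.range n, ∑ X, ((Wd (dA u) (dB u) k X n).card : ℝ) := by
    have e1 : T.card ≤ 1 + ∑ k ∈ Finset.range n, ∑ X, (Wd (dA u) (dB u) k X n).card := by
      refine (Finset.card_union_le _ _).trans ?_
      rw [Finset.card_singleton]
      apply Nat.add_le_add_left
      refine Finset.card_biUnion_le.trans ?_
      apply Finset.sum_le_sum
      intro k _
      exact Finset.card_biUnion_le
    exact_mod_cast e1
  have hsn : 0 < s ^ n := pow_pos hs0 n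
  have hsn1 : s ^ n ≤ 1 := pow_le_one₀ hs0.le hs1
  calc ({w : FreeGroup ι | len (dA u) (dB u) w.toWord ≤ n}.ncard : ℝ) * s ^ n
      ≤ (1 + ∑ k ∈ Finset.range n, ∑ X, ((Wd (dA u) (dB u) k X n).card : ℝ)) * s ^ n := by
        apply mul_le_mul_of_nonneg_right _ hsn.le
        refine le_trans ?_ h3
        exact_mod_cast h2
    _ = s ^ n + ∑ k ∈ Finset.range n, ∑ X, ((Wd (dA u) (dB u) k X n).card : ℝ) * s ^ n := by
        rw [add_mul, one_mul, Finset.sum_mul]
        congr 1
        apply Finset.sum_congr rfl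
        intro k _
        rw [Finset.sum_mul]
    _ ≤ 1 + ∑ k ∈ Finset.range n, ∑ X, c * f X := by
        apply add_le_add hsn1
        apply Finset.sum_le_sum
        intro k _
        apply Finset.sum_le_sum
        intro X _
        exact card_Wd _ _ hs0 hs1 hf hc0 hc k X n
    _ = 1 + n * ∑ X, c * f X := by
        rw [Finset.sum_const, Finset.card_range, nsmul_eq_mul]

end Ball

end Pool.Agent.Lib.MP_47235e_al
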