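import Mathlib
import Pool.Agent.Lib.MP_47235e_al.Two2
import Pool.Agent.Lib.MP_47235e_al.Two3

/-!
# Part 4: subeigenvectors of tuples with a long edge
-/

set_option autoImplicit false

namespace Pool.Agent.Lib.MP_47235e_al

open FreeGroup

section Dir

variable {α ι : Type*} [DecidableEq α] [DecidableEq ι] [Fintype ι] {u : ι → FreeGroup α}

omit [DecidableEq ι] [Fintype ι] in
theorem flip_flip (X : ι × Bool) : flip (flip X) = X := by
  rcases X with ⟨i, b⟩
  simp [flip]

omit [DecidableEq ι] [Fintype ι] in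
theorem flip_ne (X : ι × Bool) : flip X ≠ X := by
  rcases X with ⟨i, b⟩
  simp [flip]

omit [DecidableEq ι] [Fintype ι] in
theorem red2_of_ne {X Y : ι × Bool} (h : Y ≠ flip X) : Red2 X Y := by
  intro h1
  by_contra h2
  apply h
  rcases X with ⟨i, b⟩
  rcases Y with ⟨j, c⟩
  simp only at h1 h2
  subst h1
  simp only [flip, Prod.mk.injEq, true_and]
  cases b <;> cases c <;> simp_all

/-- the length of the common initial segment of two directions -/
def kp (u : ι → FreeGroup α) (X Y : ι × Bool) : ℕ := kap (val u X) (val u Y)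

omit [DecidableEq ι] [Fintype ι] in
theorem kp_comm (X Y : ι × Bool) : kp u X Y = kp u Y X := kap_comm _ _

omit [DecidableEq ι] [Fintype ι] in
theorem kp_tree {X Y Z : ι × Bool} {h : ℕ} (h1 : h ≤ kp u X Y) (h2 : h ≤ kp u Y Z) :
    h ≤ kp u X Z := by
  unfold kp kap at *
  rw [le_lcp_iff] at *
  exact ⟨h1.1, h2.2.1, h1.2.2.trans h2.2.2⟩

/-- the depth of a direction -/
def dep (u : ι → FreeGroup α) (X : ι × Bool) : ℕ :=
  (Finset.univ.filter fun Y : ι × Bool => Y ≠ X).sup fun Y => kp u X Y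

theorem le_dep {X Y : ι × Bool} (h : Y ≠ X) : kp u X Y ≤ dep u X := by
  unfold dep
  exact Finset.le_sup (f := fun Y => kp u X Y) (by simp [h])

theorem exists_dep (X : ι × Bool) : ∃ Y, Y ≠ X ∧ kp u X Y = dep u X := by
  have hne : (Finset.univ.filter fun Y : ι × Bool => Y ≠ X).Nonempty :=
    ⟨flip X, by simp [flip_ne X]⟩
  obtain ⟨Y, hY, h⟩ := Finset.exists_mem_eq_sup _ hne (fun Y => kp u X Y)
  refine ⟨Y, ?_, h.symm⟩
  simpa using hY

theorem dep_add_lt (hu : Niel u) (h1 : ∀ X, val u X ≠ 1) (X : ι × Bool) :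
    dep u X + dep u (flip X) < (u X.1).norm := by
  obtain ⟨Y, hY, hY'⟩ := exists_dep (u := u) X
  obtain ⟨Z, hZ, hZ'⟩ := exists_dep (u := u) (flip X)
  have r1 : Red2 (flip Y) X := red2_of_ne (by rw [flip_flip]; exact fun h => hY h.symm)
  have r2 : Red2 X Z := red2_of_ne hZ
  have e := hu.B (flip Y) X Z r1 r2 (h1 X)
  rw [canc_eq, canc_eq, val_flip, inv_inv, ← val_flip u X, norm_val] at e
  have e1 : kap (val u Y) (val u X) = kp u X Y := kap_comm _ _
  have e2 : kap (val u (flip X)) (val u Z) = kp u (flip X) Z := rfl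
  rw [e1, e2, hY', hZ'] at e
  exact e

theorem dA_kp (hu : Niel u) {X Y : ι × Bool} (h : Y ≠ flip X) :
    dA u X Y + 2 * kp u (flip X) Y = (u X.1).norm := by
  have e1 := norm_mul_canc (val u X) (val u Y)
  rw [canc_eq, ← val_flip u X] at e1
  have e2 := hu.A X Y (red2_of_ne h)
  have e3 : (val u X).norm = (u X.1).norm := norm_val u X
  have e4 : kap (val u (flip X)) (val u Y) = kp u (flip X) Y := rfl
  rw [e4] at e1
  unfold dA
  omega

/-- the middle part of a letter -/
def mid (u : ι → FreeGroup α) (X : ι × Bool) : ℕ := (u X.1).norm - dep u X - dep u (flip X)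

theorem mid_eq (hu : Niel u) (h1 : ∀ X, val u X ≠ 1) (X : ι × Bool) :
    dep u X + mid u X + dep u (flip X) = (u X.1).norm ∧ 1 ≤ mid u X := by
  have := dep_add_lt hu h1 X
  unfold mid
  omega

theorem mid_flip (X : ι × Bool) : mid u (flip X) = mid u X := by
  unfold mid
  rw [flip_flip]
  show (u X.1).norm - dep u (flip X) - dep u X = _
  omega

/-- a positive subeigenvector -/
def HasSub (u : ι → FreeGroup α) (s : ℝ) : Prop :=
  ∃ f : ι × Bool → ℝ, (∀ X, 0 < f X) ∧
    ∀ X, ∑ Y ∈ Finset.univ.filter (fun Y : ι × Bool => Y ≠ flip X),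
      s ^ (dA u X Y) * f Y ≤ f X

/-- the exponent of a turn -/
def turn (u : ι → FreeGroup α) (W Y : ι × Bool) : ℕ :=
  (dep u W - kp u W Y) + (dep u Y - kp u W Y)

theorem hasSub_of (hu : Niel u) (h1 : ∀ X, val u X ≠ 1) {s : ℝ} (hs0 : 0 < s)
    {g : ι × Bool → ℝ} (hg : ∀ X, 0 < g X)
    (H : ∀ X, s ^ (mid u X) * ∑ Y ∈ Finset.univ.filter (fun Y : ι × Bool => Y ≠ flip X),
      s ^ (turn u (flip X) Y) * g Y ≤ g X) : HasSub u s := by
  refine ⟨fun X => s ^ (dep u X) * g X, fun X => mul_pos (pow_pos hs0 _) (hg X), fun X => ?_⟩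
  have e : ∑ Y ∈ Finset.univ.filter (fun Y : ι × Bool => Y ≠ flip X),
      s ^ (dA u X Y) * (s ^ (dep u Y) * g Y) =
      s ^ (dep u X) * (s ^ (mid u X) *
        ∑ Y ∈ Finset.univ.filter (fun Y : ι × Bool => Y ≠ flip X),
          s ^ (turn u (flip X) Y) * g Y) := by
    rw [Finset.mul_sum, Finset.mul_sum]
    apply Finset.sum_congr rfl
    intro Y hY
    have hY' : Y ≠ flip X := by simpa using hY
    have a1 := dA_kp hu hY'
    have a2 := (mid_eq hu h1 X).1
    have a3 := le_dep (u := u) hY'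
    have a4 : kp u (flip X) Y ≤ dep u Y := by
      rw [kp_comm]
      exact le_dep (fun h => hY' h.symm)
    have a5 : dA u X Y + dep u Y = dep u X + (mid u X + turn u (flip X) Y) := by
      unfold turn
      omega
    calc s ^ (dA u X Y) * (s ^ (dep u Y) * g Y) = s ^ (dA u X Y + dep u Y) * g Y := by
          rw [pow_add]; ring
      _ = _ := by rw [a5, pow_add, pow_add]; ring
  rw [e]
  exact mul_le_mul_of_nonneg_left (H X) (pow_pos hs0 _).le

theorem turn_le_one {s : ℝ} (hs0 : 0 < s) (hs1 : s ≤ 1) (W Y : ι × Bool) :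
    s ^ (turn u W Y) ≤ 1 := pow_le_one₀ hs0.le hs1

theorem card_ne (W : ι × Bool) :
    ((Finset.univ.filter fun Y : ι × Bool => Y ≠ W).card : ℝ) = 2 * Fintype.card ι - 1 := by
  rw [Finset.filter_ne' Finset.univ W, Finset.card_erase_of_mem (Finset.mem_univ _),
    Finset.card_univ, Fintype.card_prod, Fintype.card_bool]
  have : 0 < Fintype.card ι := Fintype.card_pos_iff.2 ⟨W.1⟩
  rw [Nat.cast_sub (by omega)]
  push_cast
  ring

/-- no long edge is needed if `s` is small -/
theorem hasSub_one (hu : Niel u) (h1 : ∀ X, val u X ≠ 1) {s : ℝ} (hs0 : 0 < s) (hs1 : s ≤ 1)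
    (hN : s * (2 * Fintype.card ι - 1) ≤ 1) : HasSub u s := by
  refine hasSub_of hu h1 hs0 (g := fun _ => 1) (fun _ => one_pos) fun X => ?_
  have e1 : ∑ Y ∈ Finset.univ.filter (fun Y : ι × Bool => Y ≠ flip X),
      s ^ (turn u (flip X) Y) * 1 ≤ 2 * Fintype.card ι - 1 := by
    rw [← card_ne (flip X)]
    refine (Finset.sum_le_card_nsmul _ _ 1 fun Y _ => ?_).trans ?_
    · rw [mul_one]
      exact turn_le_one hs0 hs1 _ _
    · simp
  have e2 : s ^ (mid u X) ≤ s := by
    calc s ^ (mid u X) ≤ s ^ 1 := pow_le_pow_of_le_one hs0.le hs1 (mid_eq hu h1 X).2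
      _ = s := pow_one s
  have e3 : 0 ≤ ∑ Y ∈ Finset.univ.filter (fun Y : ι × Bool => Y ≠ flip X),
      s ^ (turn u (flip X) Y) * 1 :=
    Finset.sum_nonneg fun Y _ => mul_nonneg (pow_pos hs0 _).le zero_le_one
  calc _ ≤ s * ∑ Y ∈ Finset.univ.filter (fun Y : ι × Bool => Y ≠ flip X),
        s ^ (turn u (flip X) Y) * 1 := mul_le_mul_of_nonneg_right e2 e3
    _ ≤ s * (2 * Fintype.card ι - 1) := mul_le_mul_of_nonneg_left e1 hs0.le
    _ ≤ 1 := hN

/-- a letter with a long middle part -/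
theorem hasSub_mid (hu : Niel u) (h1 : ∀ X, val u X ≠ 1) {s : ℝ} (hs0 : 0 < s) (hs1 : s ≤ 1)
    {M : ℕ} {X₀ : ι × Bool} (hM : M ≤ mid u X₀)
    (hη : 2 * Fintype.card ι * s ^ M ≤ 1)
    (hN : s * (2 * Fintype.card ι - 3 + 2 * (2 * Fintype.card ι * s ^ M)) ≤ 1) :
    HasSub u s := by
  have hr : 0 < Fintype.card ι := Fintype.card_pos_iff.2 ⟨X₀.1⟩
  have hr' : (1 : ℝ) ≤ Fintype.card ι := by exact_mod_cast hr
  set η : ℝ := 2 * Fintype.card ι * s ^ M with hηdef
  have hη0 : 0 < η := by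
    have := pow_pos hs0 M
    positivity
  let g : ι × Bool → ℝ := fun Y => if Y.1 = X₀.1 then η else 1
  have hg0 : ∀ Y, 0 < g Y := fun Y => by
    show 0 < (if Y.1 = X₀.1 then η else 1)
    split_ifs
    · exact hη0
    · exact one_pos
  have hg1 : ∀ Y, g Y ≤ 1 := fun Y => by
    show (if Y.1 = X₀.1 then η else 1) ≤ 1
    split_ifs
    · exact hη
    · exact le_rfl
  have hterm : ∀ W Y, s ^ (turn u W Y) * g Y ≤ g Y := fun W Y => by
    have := turn_le_one (u := u) hs0 hs1 W Y
    nlinarith [hg0 Y]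
  have hsum : ∑ Y : ι × Bool, g Y = 2 * Fintype.card ι - 2 + 2 * η := by
    rw [Fintype.sum_prod_type]
    have : ∀ i : ι, ∑ b : Bool, g (i, b) = 2 + (if i = X₀.1 then 2 * η - 2 else 0) := by
      intro i
      rw [Fintype.sum_bool]
      show (if i = X₀.1 then η else 1) + (if i = X₀.1 then η else 1) = _
      split_ifs <;> ring
    rw [Finset.sum_congr rfl fun i _ => this i, Finset.sum_add_distrib, Finset.sum_const,
      Finset.sum_ite_eq' Finset.univ X₀.1, if_pos (Finset.mem_univ _), Finset.card_univ,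
      nsmul_eq_mul]
    ring
  refine hasSub_of hu h1 hs0 (g := g) hg0 fun X => ?_
  have hnn : 0 ≤ ∑ Y ∈ Finset.univ.filter (fun Y : ι × Bool => Y ≠ flip X),
      s ^ (turn u (flip X) Y) * g Y :=
    Finset.sum_nonneg fun Y _ => mul_nonneg (pow_pos hs0 _).le (hg0 Y).le
  have hle : ∑ Y ∈ Finset.univ.filter (fun Y : ι × Bool => Y ≠ flip X),
      s ^ (turn u (flip X) Y) * g Y ≤
      ∑ Y ∈ Finset.univ.filter (fun Y : ι × Bool => Y ≠ flip X), g Y :=
    Finset.sum_le_sum fun Y _ => hterm _ _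
  have hsub : ∑ Y ∈ Finset.univ.filter (fun Y : ι × Bool => Y ≠ flip X), g Y + g (flip X) =
      ∑ Y : ι × Bool, g Y := by
    rw [Finset.filter_ne' Finset.univ (flip X)]
    exact Finset.sum_erase_add _ _ (Finset.mem_univ _)
  by_cases hX : X.1 = X₀.1
  · have hmid : mid u X = mid u X₀ := by
      by_cases h2 : X.2 = X₀.2
      · rw [Prod.ext hX h2]
      · have : X = flip X₀ := by
          refine Prod.ext hX ?_
          show X.2 = !X₀.2
          revert h2
          cases X.2 <;> cases X₀.2 <;> simp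
        rw [this, mid_flip]
    have e1 : s ^ (mid u X) ≤ s ^ M := by
      rw [hmid]
      exact pow_le_pow_of_le_one hs0.le hs1 hM
    have e2 : ∑ Y ∈ Finset.univ.filter (fun Y : ι × Bool => Y ≠ flip X),
        s ^ (turn u (flip X) Y) * g Y ≤ 2 * Fintype.card ι := by
      have := hg0 (flip X)
      linarith
    have e3 : g X = η := if_pos hX
    rw [e3]
    calc _ ≤ s ^ M * ∑ Y ∈ Finset.univ.filter (fun Y : ι × Bool => Y ≠ flip X),
          s ^ (turn u (flip X) Y) * g Y := mul_le_mul_of_nonneg_right e1 hnn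
      _ ≤ s ^ M * (2 * Fintype.card ι) := mul_le_mul_of_nonneg_left e2 (pow_pos hs0 _).le
      _ = η := by rw [hηdef]; ring
  · have e2 : s ^ (mid u X) ≤ s := by
      calc s ^ (mid u X) ≤ s ^ 1 := pow_le_pow_of_le_one hs0.le hs1 (mid_eq hu h1 X).2
        _ = s := pow_one s
    have e3 : g X = 1 := if_neg hX
    have e4 : g (flip X) = 1 := if_neg hX
    rw [e3]
    calc _ ≤ s * ∑ Y ∈ Finset.univ.filter (fun Y : ι × Bool => Y ≠ flip X),
          s ^ (turn u (flip X) Y) * g Y := mul_le_mul_of_nonneg_right e2 hnn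
      _ ≤ s * (2 * Fintype.card ι - 3 + 2 * η) := by
          apply mul_le_mul_of_nonneg_left _ hs0.le
          linarith
      _ ≤ 1 := hN

/-- a long edge between two sets of directions -/
theorem hasSub_sep (hu : Niel u) (h1 : ∀ X, val u X ≠ 1) {s : ℝ} (hs0 : 0 < s) (hs1 : s ≤ 1)
    {M : ℕ} {A : Finset (ι × Bool)} (hA : 2 ≤ A.card) (hA' : A.card + 2 ≤ 2 * Fintype.card ι)
    (hsep : ∀ Y ∈ A, ∀ Z ∉ A, kp u Y Z + M ≤ dep u Y)
    (hN : s * (2 * Fintype.card ι - 3 + 2 * Fintype.card ι * s ^ M) ≤ 1) :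
    HasSub u s := by
  refine hasSub_of hu h1 hs0 (g := fun _ => 1) (fun _ => one_pos) fun X => ?_
  set W := flip X with hW
  have hsM : 0 < s ^ M := pow_pos hs0 M
  have ht : ∀ Y, s ^ (turn u W Y) * 1 ≤ (if (Y ∈ A ↔ W ∈ A) then 1 else 0) + s ^ M := by
    intro Y
    rw [mul_one]
    split_ifs with h
    · have := turn_le_one (u := u) hs0 hs1 W Y
      linarith
    · rw [zero_add]
      apply pow_le_pow_of_le_one hs0.le hs1
      unfold turn
      by_cases hWA : W ∈ A
      · have hYA : Y ∉ A := fun hY => h ⟨fun _ => hWA, fun _ => hY⟩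
        have := hsep W hWA Y hYA
        omega
      · have hYA : Y ∈ A := by
          by_contra hY
          exact h ⟨fun h' => absurd h' hY, fun h' => absurd h' hWA⟩
        have := hsep Y hYA W hWA
        rw [kp_comm] at this
        omega
  have hcount : (((Finset.univ.filter fun Y : ι × Bool => Y ≠ W).filter
      fun Y => (Y ∈ A ↔ W ∈ A)).card : ℝ) ≤ 2 * Fintype.card ι - 3 := by
    have hcard : (Finset.univ : Finset (ι × Bool)).card = 2 * Fintype.card ι := by
      rw [Finset.card_univ, Fintype.card_prod, Fintype.card_bool, mul_comm]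
    have : ((Finset.univ.filter fun Y : ι × Bool => Y ≠ W).filter
        fun Y => (Y ∈ A ↔ W ∈ A)).card + 3 ≤ 2 * Fintype.card ι := by
      by_cases hWA : W ∈ A
      · have hs : ((Finset.univ.filter fun Y : ι × Bool => Y ≠ W).filter
            fun Y => (Y ∈ A ↔ W ∈ A)) ⊆ A.erase W := by
          intro Y hY
          simp only [Finset.mem_filter, Finset.mem_univ, true_and] at hY
          exact Finset.mem_erase.2 ⟨hY.1, hY.2.2 hWA⟩
        have := Finset.card_le_card hs
        rw [Finset.card_erase_of_mem hWA] at this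
        omega
      · have hs : ((Finset.univ.filter fun Y : ι × Bool => Y ≠ W).filter
            fun Y => (Y ∈ A ↔ W ∈ A)) ⊆ Aᶜ.erase W := by
          intro Y hY
          simp only [Finset.mem_filter, Finset.mem_univ, true_and] at hY
          exact Finset.mem_erase.2 ⟨hY.1, Finset.mem_compl.2 fun h => hWA (hY.2.1 h)⟩
        have := Finset.card_le_card hs
        rw [Finset.card_erase_of_mem (Finset.mem_compl.2 hWA), Finset.card_compl,
          ← Finset.card_univ, hcard] at this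
        omega
    have h3 : ((((Finset.univ.filter fun Y : ι × Bool => Y ≠ W).filter
        fun Y => (Y ∈ A ↔ W ∈ A)).card + 3 : ℕ) : ℝ) ≤ ((2 * Fintype.card ι : ℕ) : ℝ) := by
      exact_mod_cast this
    push_cast at h3
    linarith
  have hle : ∑ Y ∈ Finset.univ.filter (fun Y : ι × Bool => Y ≠ W),
      s ^ (turn u W Y) * 1 ≤ 2 * Fintype.card ι - 3 + 2 * Fintype.card ι * s ^ M := by
    refine (Finset.sum_le_sum fun Y _ => ht Y).trans ?_
    rw [Finset.sum_add_distrib, Finset.sum_const, nsmul_eq_mul, card_ne]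
    have e1 : ∑ Y ∈ Finset.univ.filter (fun Y : ι × Bool => Y ≠ W),
        (if (Y ∈ A ↔ W ∈ A) then (1 : ℝ) else 0) =
        (((Finset.univ.filter fun Y : ι × Bool => Y ≠ W).filter
          fun Y => (Y ∈ A ↔ W ∈ A)).card : ℝ) := by
      rw [Finset.sum_ite, Finset.sum_const, Finset.sum_const_zero, add_zero, nsmul_eq_mul,
        mul_one]
    rw [e1]
    nlinarith
  have hnn : 0 ≤ ∑ Y ∈ Finset.univ.filter (fun Y : ι × Bool => Y ≠ W),
      s ^ (turn u W Y) * 1 :=
    Finset.sum_nonneg fun Y _ => mul_nonneg (pow_pos hs0 _).le zero_le_one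
  have e2 : s ^ (mid u X) ≤ s := by
    calc s ^ (mid u X) ≤ s ^ 1 := pow_le_pow_of_le_one hs0.le hs1 (mid_eq hu h1 X).2
      _ = s := pow_one s
  calc _ ≤ s * ∑ Y ∈ Finset.univ.filter (fun Y : ι × Bool => Y ≠ W),
        s ^ (turn u W Y) * 1 := mul_le_mul_of_nonneg_right e2 hnn
    _ ≤ s * (2 * Fintype.card ι - 3 + 2 * Fintype.card ι * s ^ M) :=
        mul_le_mul_of_nonneg_left hle hs0.le
    _ ≤ 1 := hN

end Dir

end Pool.Agent.Lib.MP_47235e_al
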