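import Mathlib
import Pool.Agent.Lib.MP_47235e_al.Two5

/-!
# Part 5: long tuples have a long edge
-/

set_option autoImplicit false

namespace Pool.Agent.Lib.MP_47235e_al

open FreeGroup

section Long

variable {m : ℕ} {ι : Type*} [DecidableEq ι] [Fintype ι] {u : ι → FreeGroup (Fin m)}

open Classical in
/-- at most half of the directions begin with the letter `a` -/
theorem count_begins
    (hmin : ∀ h : FreeGroup (Fin m), ∑ i, (u i).norm ≤ ∑ i, (h * u i * h⁻¹).norm)
    (a : Fin m × Bool) :
    (Finset.univ.filter fun Y : ι × Bool => Begins (val u Y) a).card ≤ Fintype.card ι := by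
  have h1 : ∀ i : ι, ((mk [a])⁻¹ * u i * (mk [a])⁻¹⁻¹).norm +
      2 * ((if Begins (val u (i, true)) a then 1 else 0) +
        (if Begins (val u (i, false)) a then 1 else 0)) ≤ (u i).norm + 2 := by
    intro i
    have v1 : val u (i, true) = u i := rfl
    have v2 : val u (i, false) = (u i)⁻¹ := rfl
    rw [v1, v2]
    by_cases c1 : Begins (u i) a
    · by_cases c2 : Begins (u i)⁻¹ a
      · have := norm_conj_two c1 c2
        rw [if_pos c1, if_pos c2]
        omega
      · have := norm_conj_le c1
        rw [if_pos c1, if_neg c2]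
        omega
    · by_cases c2 : Begins (u i)⁻¹ a
      · have := norm_conj_le' c2
        rw [if_neg c1, if_pos c2]
        omega
      · rw [if_neg c1, if_neg c2]
        have e1 := norm_mul_le ((mk [a])⁻¹ * u i) ((mk [a] : FreeGroup (Fin m))⁻¹⁻¹)
        have e2 := norm_mul_le ((mk [a] : FreeGroup (Fin m))⁻¹) (u i)
        rw [norm_inv_eq, norm_inv_eq, norm_single] at e1
        rw [norm_inv_eq, norm_single] at e2
        omega
  have h2 := Finset.sum_le_sum fun (i : ι) (_ : i ∈ Finset.univ) => h1 i
  rw [Finset.sum_add_distrib, Finset.sum_add_distrib, Finset.sum_const, ← Finset.mul_sum] at h2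
  have h3 := hmin (mk [a])⁻¹
  have h4 : (Finset.univ.filter fun Y : ι × Bool => Begins (val u Y) a).card =
      ∑ i : ι, ((if Begins (val u (i, true)) a then 1 else 0) +
        (if Begins (val u (i, false)) a then 1 else 0)) := by
    rw [Finset.card_filter, Fintype.sum_prod_type]
    apply Finset.sum_congr rfl
    intro i _
    rw [Fintype.sum_bool]
  rw [h4]
  rw [Finset.card_univ, smul_eq_mul] at h2
  omega

theorem dep_le
    (hmin : ∀ h : FreeGroup (Fin m), ∑ i, (u i).norm ≤ ∑ i, (h * u i * h⁻¹).norm)
    (hr : 2 ≤ Fintype.card ι) {M : ℕ}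
    (hno : ∀ A : Finset (ι × Bool), 2 ≤ A.card → A.card + 2 ≤ 2 * Fintype.card ι →
      ¬ (∀ Y ∈ A, ∀ Z ∉ A, kp u Y Z + M ≤ dep u Y)) (X : ι × Bool) :
    dep u X ≤ (Fintype.card ι - 1) * M := by
  classical
  set r := Fintype.card ι with hrdef
  let C : ℕ → Finset (ι × Bool) := fun h => Finset.univ.filter fun Y => Y = X ∨ h ≤ kp u X Y
  have hC2 : ∀ h, h ≤ dep u X → 2 ≤ (C h).card := by
    intro h hh
    obtain ⟨Y, hY, hY'⟩ := exists_dep (u := u) X
    have hs : ({X, Y} : Finset (ι × Bool)) ⊆ C h := by
      intro Z hZ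
      rw [Finset.mem_insert, Finset.mem_singleton] at hZ
      rw [Finset.mem_filter]
      refine ⟨Finset.mem_univ _, ?_⟩
      rcases hZ with rfl | rfl
      · exact Or.inl rfl
      · right; omega
    have := Finset.card_le_card hs
    rwa [Finset.card_pair (fun h => hY h.symm)] at this
  have key : ∀ j : ℕ, 1 + j * M ≤ dep u X → (C (1 + j * M)).card + j ≤ r := by
    intro j
    induction j with
    | zero =>
      intro hj
      obtain ⟨Y, hY, hY'⟩ := exists_dep (u := u) X
      have hpos : 0 < kap (val u X) (val u Y) := by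
        have : kap (val u X) (val u Y) = dep u X := hY'
        omega
      obtain ⟨a, ha, -⟩ := kap_pos.1 hpos
      have hs : C (1 + 0 * M) ⊆
          Finset.univ.filter fun Y : ι × Bool => Begins (val u Y) a := by
        intro Z hZ
        rw [Finset.mem_filter] at hZ ⊢
        refine ⟨Finset.mem_univ _, ?_⟩
        rcases hZ.2 with rfl | h
        · exact ha
        · have hpos' : 0 < kap (val u X) (val u Z) := by
            have : kap (val u X) (val u Z) = kp u X Z := rfl
            omega
          obtain ⟨b, hb, hb'⟩ := kap_pos.1 hpos'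
          rwa [begins_unique ha hb]
      have := (Finset.card_le_card hs).trans (count_begins hmin a)
      omega
    | succ j ih =>
      intro hj
      have hj' : 1 + j * M + M ≤ dep u X := by
        have : (j + 1) * M = j * M + M := by ring
        omega
      have ih' := ih (by omega)
      have e : 1 + (j + 1) * M = 1 + j * M + M := by ring
      rw [e]
      set h := 1 + j * M with hh
      have hsub : C (h + M) ⊆ C h := by
        intro Z hZ
        rw [Finset.mem_filter] at hZ ⊢
        refine ⟨Finset.mem_univ _, ?_⟩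
        rcases hZ.2 with hZ | hZ
        · exact Or.inl hZ
        · right; omega
      have hcard := Finset.card_le_card hsub
      by_cases heq : (C (h + M)).card = (C h).card
      · exfalso
        have hset : C (h + M) = C h := Finset.eq_of_subset_of_card_le hsub heq.ge
        apply hno (C h) (hC2 h (by omega)) (by omega)
        intro Y hY Z hZ
        have hZ1 : Z ≠ X := by
          rintro rfl
          apply hZ
          rw [Finset.mem_filter]
          exact ⟨Finset.mem_univ _, Or.inl rfl⟩
        have hZ2 : kp u X Z < h := by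
          by_contra hcon
          apply hZ
          rw [Finset.mem_filter]
          exact ⟨Finset.mem_univ _, Or.inr (by omega)⟩
        have hYM : Y ∈ C (h + M) := by rw [hset]; exact hY
        rw [Finset.mem_filter] at hYM
        rcases hYM.2 with rfl | hYM
        · omega
        · have h5 : kp u Y Z < h := by
            by_contra hcon
            have := kp_tree (h := h) (show h ≤ kp u X Y by omega) (by omega : h ≤ kp u Y Z)
            omega
          by_cases hYX : Y = X
          · subst hYX
            omega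
          · have h6 : kp u Y X ≤ dep u Y := le_dep (fun h => hYX h.symm)
            rw [kp_comm] at h6
            omega
      · omega
  by_contra hcon
  have h1 : 1 + (r - 1) * M ≤ dep u X := by omega
  have h2 := key (r - 1) h1
  have h3 := hC2 _ h1
  omega

/-- either all words are short or there is a subeigenvector -/
theorem hasSub_or_short (hu : Niel u) (h1 : ∀ X, val u X ≠ 1)
    (hmin : ∀ h : FreeGroup (Fin m), ∑ i, (u i).norm ≤ ∑ i, (h * u i * h⁻¹).norm)
    (hr : 2 ≤ Fintype.card ι) {s : ℝ} (hs0 : 0 < s) (hs1 : s ≤ 1) {M : ℕ}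
    (hη : 2 * Fintype.card ι * s ^ M ≤ 1)
    (hN : s * (2 * Fintype.card ι - 3 + 2 * (2 * Fintype.card ι * s ^ M)) ≤ 1) :
    HasSub u s ∨ ∀ i, (u i).norm < (2 * Fintype.card ι - 1) * M := by
  by_cases hcase : ∃ X, M ≤ mid u X
  · obtain ⟨X, hX⟩ := hcase
    exact Or.inl (hasSub_mid hu h1 hs0 hs1 hX hη hN)
  push Not at hcase
  by_cases hA : ∃ A : Finset (ι × Bool), 2 ≤ A.card ∧ A.card + 2 ≤ 2 * Fintype.card ι ∧
      ∀ Y ∈ A, ∀ Z ∉ A, kp u Y Z + M ≤ dep u Y
  · obtain ⟨A, hA1, hA2, hA3⟩ := hA
    refine Or.inl (hasSub_sep hu h1 hs0 hs1 hA1 hA2 hA3 ?_)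
    have hsM : 0 < s ^ M := pow_pos hs0 M
    have hr' : (2 : ℝ) ≤ Fintype.card ι := by exact_mod_cast hr
    have : s * (2 * Fintype.card ι - 3 + 2 * Fintype.card ι * s ^ M) ≤
        s * (2 * Fintype.card ι - 3 + 2 * (2 * Fintype.card ι * s ^ M)) := by
      apply mul_le_mul_of_nonneg_left _ hs0.le
      have : 0 ≤ 2 * (Fintype.card ι : ℝ) * s ^ M := by positivity
      linarith
    linarith
  right
  intro i
  have hno : ∀ A : Finset (ι × Bool), 2 ≤ A.card → A.card + 2 ≤ 2 * Fintype.card ι →
      ¬ (∀ Y ∈ A, ∀ Z ∉ A, kp u Y Z + M ≤ dep u Y) := fun A a1 a2 a3 => hA ⟨A, a1, a2, a3⟩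
  have e1 := dep_le hmin hr hno (i, true)
  have e2 := dep_le hmin hr hno (flip (i, true))
  have e3 := (mid_eq hu h1 (i, true)).1
  have e4 := hcase (i, true)
  have e5 : (2 * Fintype.card ι - 1) * M =
      (Fintype.card ι - 1) * M + M + (Fintype.card ι - 1) * M := by
    obtain ⟨k, hk⟩ : ∃ k, Fintype.card ι = k + 2 := ⟨_, (Nat.sub_add_cancel hr).symm⟩
    rw [hk]
    have a1 : 2 * (k + 2) - 1 = 2 * k + 3 := by omega
    have a2 : k + 2 - 1 = k + 1 := by omega
    rw [a1, a2]
    ring
  rw [e5]
  have e6 : (u (i, true).1).norm = (u i).norm := rfl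
  omega

end Long

end Pool.Agent.Lib.MP_47235e_al
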