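import Mathlib
import Pool.Agent.Lib.MP_47235e_al.Two6

/-!
# Part 6: growth rates
-/

set_option autoImplicit false

namespace Pool.Agent.Lib.MP_47235e_al

open FreeGroup Filter
open scoped ENNReal NNReal Topology

section Rate

theorem rate_le_of_real {F : ℕ → ℕ} {t C0 C1 : ℝ} (ht : 1 ≤ t) (h0 : 0 ≤ C0) (h1 : 0 ≤ C1)
    (h : ∀ n : ℕ, (F n : ℝ) ≤ (C0 + C1 * n) * t ^ n) : rate F ≤ ENNReal.ofReal t := by
  by_contra hcon
  rw [not_le] at hcon
  obtain ⟨b, hb1, hb2⟩ := ENNReal.lt_iff_exists_nnreal_btwn.1 hcon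
  have htb : t < (b : ℝ) := by
    rw [← ENNReal.ofReal_coe_nnreal] at hb1
    exact (ENNReal.ofReal_lt_ofReal_iff_of_nonneg (by linarith)).1 hb1
  have hρ : (1 : ℝ) < b / t := by
    rw [one_lt_div (by linarith)]
    exact htb
  have hten := tendsto_pow_const_div_const_pow_of_one_lt 1 hρ
  have hpos : (0 : ℝ) < 1 / (C0 + C1 + 1) := by positivity
  have h3 := hten.eventually (gt_mem_nhds hpos)
  have hev : ∀ᶠ n : ℕ in atTop, ((F n : ℕ) : ℝ≥0∞) ^ (1 / (n : ℝ)) ≤ (b : ℝ≥0∞) := by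
    filter_upwards [h3, eventually_ge_atTop 1] with n hn hn1
    rw [pow_le_iff _ _ hn1]
    have hn1' : (1 : ℝ) ≤ n := by exact_mod_cast hn1
    have ht0 : 0 < t := by linarith
    have htn : 0 < t ^ n := pow_pos ht0 n
    have e4 : (C0 + C1 * n) * t ^ n ≤ (C0 + C1 + 1) * n * t ^ n := by
      apply mul_le_mul_of_nonneg_right _ htn.le
      nlinarith
    have e5 : (C0 + C1 + 1) * n * t ^ n ≤ (b : ℝ) ^ n := by
      have hr : (0 : ℝ) < (b / t : ℝ) ^ n := by
        have : (0 : ℝ) < b / t := by linarith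
        positivity
      rw [pow_one, div_lt_div_iff₀ hr (by positivity), one_mul] at hn
      have e6 : (b / t : ℝ) ^ n * t ^ n = (b : ℝ) ^ n := by
        rw [← mul_pow, div_mul_cancel₀ _ ht0.ne']
      rw [← e6]
      apply mul_le_mul_of_nonneg_right _ htn.le
      linarith
    linarith [h n]
  have h5 : rate F ≤ (b : ℝ≥0∞) := limsup_le_of_le (h := hev)
  exact absurd hb2 (not_lt.2 h5)

/-- partial sums of a sequence of small growth rate -/
theorem sum_of_rate_lt {F : ℕ → ℕ} {b : ℝ≥0} (hb : 1 ≤ (b : ℝ)) (h : rate F < b) :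
    ∃ C : ℝ, 0 ≤ C ∧ ∀ n, ∑ k ∈ Finset.range (n + 1), (F k : ℝ) ≤ C + (n + 1) * (b : ℝ) ^ n := by
  have h2 := eventually_lt_of_limsup_lt h
  obtain ⟨N, hN⟩ := eventually_atTop.1 (h2.and (eventually_ge_atTop 1))
  exact sum_bound F b hb N fun n hn => (pow_le_iff _ b (hN n hn).2).1 (hN n hn).1.le

end Rate

section Sph

variable {m : ℕ}

/-- the size of the sphere -/
noncomputable def sph (H : Subgroup (FreeGroup (Fin m))) (n : ℕ) : ℕ :=
  {h : FreeGroup (Fin m) | h ∈ H ∧ h.norm = n}.ncard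

/-- the size of the ball -/
noncomputable def bal (H : Subgroup (FreeGroup (Fin m))) (n : ℕ) : ℕ :=
  {h : FreeGroup (Fin m) | h ∈ H ∧ h.norm ≤ n}.ncard

theorem sum_sph (H : Subgroup (FreeGroup (Fin m))) (n : ℕ) :
    ∑ k ∈ Finset.range (n + 1), sph H k = bal H n := by
  unfold sph bal
  induction n with
  | zero =>
    rw [Finset.sum_range_one]
    congr 1
    ext h
    simp
  | succ n ih =>
    rw [Finset.sum_range_succ, ih]
    have h1 : {h : FreeGroup (Fin m) | h ∈ H ∧ h.norm ≤ n + 1} =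
        {h | h ∈ H ∧ h.norm ≤ n} ∪ {h | h ∈ H ∧ h.norm = n + 1} := by
      ext h
      simp only [Set.mem_setOf_eq, Set.mem_union]
      constructor
      · rintro ⟨a, b⟩
        rcases Nat.lt_or_ge n h.norm with c | c
        · exact Or.inr ⟨a, by omega⟩
        · exact Or.inl ⟨a, c⟩
      · rintro (⟨a, b⟩ | ⟨a, b⟩)
        · exact ⟨a, by omega⟩
        · exact ⟨a, by omega⟩
    rw [h1, Set.ncard_union_eq ?_ ((finite_ball n).subset fun h hh => hh.2)
      ((finite_ball (n + 1)).subset fun h hh => hh.2.le)]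
    rw [Set.disjoint_left]
    rintro h ⟨-, a⟩ ⟨-, b⟩
    omega

theorem sph_le_bal (H : Subgroup (FreeGroup (Fin m))) (n : ℕ) : sph H n ≤ bal H n := by
  apply Set.ncard_le_ncard
  · rintro h ⟨a, b⟩
    exact ⟨a, b.le⟩
  · exact (finite_ball n).subset fun h hh => hh.2

theorem bal_cj (H : Subgroup (FreeGroup (Fin m))) (g : FreeGroup (Fin m)) (n : ℕ) :
    bal H n ≤ bal (cj g H) (n + 2 * g.norm) := by
  refine Set.ncard_le_ncard_of_injOn (fun h => g * h * g⁻¹) ?_ ?_
    ((finite_ball (n + 2 * g.norm)).subset fun h hh => hh.2)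
  · rintro h ⟨a, b⟩
    refine ⟨⟨h, a, rfl⟩, ?_⟩
    have e1 := norm_mul_le (g * h) g⁻¹
    have e2 := norm_mul_le g h
    rw [norm_inv_eq] at e1
    show (g * h * g⁻¹).norm ≤ _
    omega
  · intro x _ y _ hxy
    have hxy' : g * x * g⁻¹ = g * y * g⁻¹ := hxy
    exact mul_left_cancel (mul_right_cancel hxy')

/-- conjugation does not lower the growth rate -/
theorem rate_cj (K : Subgroup (FreeGroup (Fin m))) (g : FreeGroup (Fin m))
    (h1 : 1 < rate (sph K)) : rate (sph K) ≤ rate (sph (cj g K)) := by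
  by_contra hcon
  rw [not_le] at hcon
  obtain ⟨b, hb1, hb2⟩ := ENNReal.lt_iff_exists_nnreal_btwn.1 (max_lt h1 hcon)
  have hb : (1 : ℝ) ≤ (b : ℝ) := by
    have h2 : (1 : ℝ≥0∞) < (b : ℝ≥0∞) := lt_of_le_of_lt (le_max_left _ _) hb1
    exact_mod_cast h2.le
  obtain ⟨C, hC0, hC⟩ := sum_of_rate_lt hb (lt_of_le_of_lt (le_max_right _ _) hb1)
  set c := 2 * g.norm with hc
  have hB : ∀ n : ℕ, (sph K n : ℝ) ≤ ((C + (c + 1) * (b : ℝ) ^ c) + (b : ℝ) ^ c * n) *
      (b : ℝ) ^ n := by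
    intro n
    have e1 : (sph K n : ℝ) ≤ (bal (cj g K) (n + c) : ℝ) := by
      exact_mod_cast (sph_le_bal K n).trans (bal_cj K g n)
    have e2 := hC (n + c)
    have e3 : ((∑ k ∈ Finset.range (n + c + 1), sph (cj g K) k : ℕ) : ℝ) =
        (bal (cj g K) (n + c) : ℝ) := by rw [sum_sph]
    push_cast at e3
    rw [e3] at e2
    have hbn : (1 : ℝ) ≤ (b : ℝ) ^ n := one_le_pow₀ hb
    have e4 : C ≤ C * (b : ℝ) ^ n := by nlinarith
    push_cast at e2
    rw [pow_add] at e2
    nlinarith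
  have h3 := rate_le_of_real hb (by positivity) (by positivity) hB
  rw [ENNReal.ofReal_coe_nnreal] at h3
  exact absurd hb2 (not_lt.2 h3)

theorem rate_le_of_sub {ι : Type*} [DecidableEq ι] [Fintype ι] {u : ι → FreeGroup (Fin m)}
    (hu : Niel u) (h1 : ∀ X, val u X ≠ 1) {t : ℝ} (ht : 1 ≤ t) (hs : HasSub u t⁻¹)
    {K : Subgroup (FreeGroup (Fin m))} {g : FreeGroup (Fin m)}
    (hK : Subgroup.closure (Set.range u) = cj g K) :
    rate (sph K) ≤ ENNReal.ofReal t := by
  obtain ⟨f, hf0, hf⟩ := hs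
  have ht0 : 0 < t := by linarith
  have hs0 : 0 < t⁻¹ := inv_pos.2 ht0
  have hs1 : t⁻¹ ≤ 1 := inv_le_one_of_one_le₀ ht
  set c : ℝ := ∑ X, (f X)⁻¹ with hc
  have hc0 : 0 ≤ c := Finset.sum_nonneg fun X _ => (inv_pos.2 (hf0 X)).le
  have hc1 : ∀ X, 1 ≤ c * f X := by
    intro X
    have e1 : (f X)⁻¹ ≤ c :=
      Finset.single_le_sum (f := fun X => (f X)⁻¹) (fun Y _ => (inv_pos.2 (hf0 Y)).le)
        (Finset.mem_univ X)
    have e2 := mul_le_mul_of_nonneg_right e1 (hf0 X).le
    rwa [inv_mul_cancel₀ (hf0 X).ne'] at e2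
  set D : ℝ := ∑ X, c * f X with hD
  have hD0 : 0 ≤ D := Finset.sum_nonneg fun X _ => by linarith [hc1 X]
  have hb := ball_bound hu h1 hs0 hs1 hf hc0 hc1
  set e := 2 * g.norm with he
  refine rate_le_of_real (C0 := (1 + e * D) * t ^ e) (C1 := D * t ^ e) ht
    (by positivity) (by positivity) fun n => ?_
  have e1 : (sph K n : ℝ) ≤ (bal (cj g K) (n + e) : ℝ) := by
    exact_mod_cast (sph_le_bal K n).trans (bal_cj K g n)
  have e2 := hb (n + e)
  rw [hK] at e2
  change (bal (cj g K) (n + e) : ℝ) * t⁻¹ ^ (n + e) ≤ 1 + ((n + e : ℕ) : ℝ) * D at e2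
  have htn : 0 < t ^ (n + e) := pow_pos ht0 _
  rw [inv_pow, ← div_eq_mul_inv, div_le_iff₀ htn] at e2
  push_cast at e2
  calc (sph K n : ℝ) ≤ (1 + ((n : ℝ) + e) * D) * t ^ (n + e) := e1.trans e2
    _ = ((1 + e * D) * t ^ e + D * t ^ e * n) * t ^ n := by rw [pow_add]; ring

end Sph

section Lower

variable {m : ℕ}

theorem norm_prodv_le {ι : Type*} {w : ι → FreeGroup (Fin m)} {L : ℕ}
    (hL : ∀ i, (w i).norm ≤ L) : ∀ l : List (ι × Bool), (prodv w l).norm ≤ L * l.length
  | [] => by rw [prodv_nil, FreeGroup.norm_one]; exact Nat.zero_le _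
  | X :: l => by
    rw [prodv_cons]
    have e1 := norm_mul_le (val w X) (prodv w l)
    have e2 := norm_prodv_le hL l
    have e3 : (val w X).norm ≤ L := by
      rcases X with ⟨j, b⟩
      cases b
      · exact norm_inv_eq.trans_le (hL j)
      · exact hL j
    rw [List.length_cons, Nat.mul_succ]
    omega

theorem isReduced_pos {ι : Type*} (l : List (ι × Bool)) (h : ∀ X ∈ l, X.2 = true) :
    IsReduced l := by
  induction l with
  | nil => simp
  | cons X l ih =>
    cases l with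
    | nil => simp
    | cons Y l =>
      rw [isReduced_cons_cons]
      refine ⟨fun _ => ?_, ih fun Z hZ => h Z (List.mem_cons_of_mem _ hZ)⟩
      rw [h X (by simp), h Y (by simp)]

theorem two_pow_le {w : Fin 2 → FreeGroup (Fin m)} (hw : Niel w) (h1 : ∀ X, val w X ≠ 1)
    {L : ℕ} (hL : ∀ i, (w i).norm ≤ L) (k : ℕ) :
    2 ^ k ≤ bal (Subgroup.closure (Set.range w)) (L * k) := by
  let φ : (Fin k → Bool) → List (Fin 2 × Bool) := fun e =>
    List.ofFn fun i => ((if e i then 0 else 1 : Fin 2), true)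
  have hφr : ∀ e, IsReduced (φ e) := by
    intro e
    apply isReduced_pos
    intro X hX
    rw [List.mem_ofFn] at hX
    obtain ⟨i, rfl⟩ := hX
    rfl
  have hinj : Function.Injective fun e => prodv w (φ e) := by
    intro e e' hee
    have h2 : FreeGroup.lift w (mk (φ e)) = FreeGroup.lift w (mk (φ e')) := by
      rw [lift_eq, lift_eq, toWord_mk_of (hφr e), toWord_mk_of (hφr e')]
      exact hee
    have h3 := lift_injective hw h1 h2
    have h4 := congrArg toWord h3
    rw [toWord_mk_of (hφr e), toWord_mk_of (hφr e')] at h4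
    have h5 := List.ofFn_injective h4
    funext i
    have h6 := congrFun h5 i
    have h7 := (Prod.mk.inj h6).1
    revert h7
    cases e i <;> cases e' i <;> simp
  have h2 : (Set.range fun e => prodv w (φ e)).ncard = 2 ^ k := by
    rw [← Set.image_univ, Set.ncard_image_of_injective _ hinj, Set.ncard_univ,
      Nat.card_eq_fintype_card, Fintype.card_fun, Fintype.card_bool, Fintype.card_fin]
  rw [← h2]
  apply Set.ncard_le_ncard
  · rintro _ ⟨e, rfl⟩
    refine ⟨?_, ?_⟩
    · show ((φ e).map (val w)).prod ∈ _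
      apply Subgroup.list_prod_mem
      intro x hx
      rw [List.mem_map] at hx
      obtain ⟨X, -, rfl⟩ := hx
      exact val_mem w X
    · have := norm_prodv_le hL (φ e)
      have hl : (φ e).length = k := List.length_ofFn
      rwa [hl] at this
  · exact (finite_ball _).subset fun h hh => hh.2

theorem comm_of_one {w : Fin 2 → FreeGroup (Fin m)} {i : Fin 2} (hi : w i = 1)
    {x y : FreeGroup (Fin m)} (hx : x ∈ Subgroup.closure (Set.range w))
    (hy : y ∈ Subgroup.closure (Set.range w)) : x * y = y * x := by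
  obtain ⟨j, hj⟩ : ∃ j : Fin 2, ∀ k, w k ∈ Subgroup.zpowers (w j) := by
    fin_cases i
    · refine ⟨1, fun k => ?_⟩
      fin_cases k
      · have : w 0 = 1 := hi
        show w 0 ∈ _
        rw [this]
        exact Subgroup.one_mem _
      · exact Subgroup.mem_zpowers _
    · refine ⟨0, fun k => ?_⟩
      fin_cases k
      · exact Subgroup.mem_zpowers _
      · have : w 1 = 1 := hi
        show w 1 ∈ _
        rw [this]
        exact Subgroup.one_mem _
  have hle : Subgroup.closure (Set.range w) ≤ Subgroup.zpowers (w j) := by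
    rw [Subgroup.closure_le]
    rintro _ ⟨k, rfl⟩
    exact hj k
  obtain ⟨a, rfl⟩ := Subgroup.mem_zpowers_iff.1 (hle hx)
  obtain ⟨b, rfl⟩ := Subgroup.mem_zpowers_iff.1 (hle hy)
  rw [← zpow_add, ← zpow_add, add_comm]

end Lower

end Pool.Agent.Lib.MP_47235e_al
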