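import Mathlib
import Pool.Agent.Lib.MP_47235e_al.Two7

/-!
# Part 7: subgroups of large cogrowth are short
-/

set_option autoImplicit false

namespace Pool.Agent.Lib.MP_47235e_al

open FreeGroup Filter
open scoped ENNReal NNReal Topology

section Main

variable {m : ℕ}

/-- subgroups of large cogrowth are conjugate to subgroups with short generators -/
theorem short_of_large {r : ℕ} (hr : 2 ≤ r) {t : ℝ} (ht : 2 * (r : ℝ) - 3 < t) {M : ℕ}
    (hM : 4 * (r : ℝ) ≤ (t - (2 * r - 3)) * t ^ M) (u₀ : Fin r → FreeGroup (Fin m))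
    (hK : ENNReal.ofReal t < rate (sph (Subgroup.closure (Set.range u₀)))) :
    ∃ (g : FreeGroup (Fin m)) (u : Fin r → FreeGroup (Fin m)),
      cj g (Subgroup.closure (Set.range u₀)) = Subgroup.closure (Set.range u) ∧
      ∀ i, (u i).norm < (2 * r - 1) * M := by
  classical
  have hr' : (2 : ℝ) ≤ r := by exact_mod_cast hr
  have ht1 : 1 < t := by linarith
  have ht0 : 0 < t := by linarith
  have hs0 : 0 < t⁻¹ := inv_pos.2 ht0
  have hs1 : t⁻¹ ≤ 1 := inv_le_one_of_one_le₀ ht1.le
  obtain ⟨g, u, hg, hu, hmin⟩ := exists_conj_min u₀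
  refine ⟨g, u, hg.symm, ?_⟩
  by_cases hone : ∃ i, u i = 1
  · exfalso
    obtain ⟨i, hi⟩ := hone
    set J : Set (Fin r) := {i | u i ≠ 1} with hJ
    have hJu : ∀ i, i ∈ J ↔ u i ≠ 1 := fun i => Iff.rfl
    have hcard : Fintype.card J + 1 ≤ r := by
      have h1 : J.toFinset ⊆ Finset.univ.erase i := by
        intro k hk
        rw [Set.mem_toFinset] at hk
        refine Finset.mem_erase.2 ⟨?_, Finset.mem_univ _⟩
        rintro rfl
        exact hk hi
      have h2 := Finset.card_le_card h1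
      rw [Finset.card_erase_of_mem (Finset.mem_univ _), Finset.card_univ, Fintype.card_fin,
        Set.toFinset_card] at h2
      omega
    have hcard' : (Fintype.card J : ℝ) + 1 ≤ r := by exact_mod_cast hcard
    have hsub : HasSub (restr u J) t⁻¹ := by
      apply hasSub_one (niel_restr hu J) (val_restr_ne hJu) hs0 hs1
      rw [inv_mul_le_iff₀ ht0]
      linarith
    have := rate_le_of_sub (niel_restr hu J) (val_restr_ne hJu) ht1.le hsub
      ((closure_restr hJu).trans hg)
    exact absurd hK (not_lt.2 this)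
  push Not at hone
  have hval : ∀ X, val u X ≠ 1 := by
    rintro ⟨i, b⟩
    cases b
    · show (u i)⁻¹ ≠ 1
      rw [Ne, inv_eq_one]
      exact hone i
    · exact hone i
  have hfin : ¬ HasSub u t⁻¹ := fun h =>
    absurd hK (not_lt.2 (rate_le_of_sub hu hval ht1.le h hg))
  rcases lt_or_ge t (2 * (r : ℝ) - 1) with hlt | hge
  · have htM : 0 < t ^ M := pow_pos ht0 M
    have e1 : 4 * (r : ℝ) * t⁻¹ ^ M ≤ t - (2 * r - 3) := by
      rw [inv_pow, ← div_eq_mul_inv, div_le_iff₀ htM]
      exact hM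
    have h2 := hasSub_or_short hu hval hmin (M := M) (by rw [Fintype.card_fin]; exact hr)
      hs0 hs1 (by rw [Fintype.card_fin]; linarith)
      (by rw [Fintype.card_fin, inv_mul_le_iff₀ ht0]; linarith)
    rw [Fintype.card_fin] at h2
    exact h2.resolve_left hfin
  · exfalso
    apply hfin
    apply hasSub_one hu hval hs0 hs1
    rw [Fintype.card_fin, inv_mul_le_iff₀ ht0]
    linarith

theorem rate_pos_rank_two {n : ℕ} {u v : FreeGroup (Fin m)} (hu : u.norm ≤ n) (hv : v.norm ≤ n)
    (huv : u * v ≠ v * u) :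
    ENNReal.ofReal (1 + 1 / (5 * n)) < rate (sph (Subgroup.closure {u, v})) := by
  by_contra hcon
  rw [not_lt] at hcon
  have hn : 1 ≤ n := by
    by_contra h0
    have : u.norm = 0 := by omega
    rw [FreeGroup.norm_eq_zero] at this
    rw [this] at huv
    exact huv (by simp)
  have hn' : (1 : ℝ) ≤ n := by exact_mod_cast hn
  -- a good basis
  have hset : Set.range ![u, v] = {u, v} := by
    ext x
    constructor
    · rintro ⟨i, rfl⟩
      fin_cases i
      · exact Or.inl rfl
      · exact Or.inr rfl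
    · rintro (rfl | rfl)
      · exact ⟨0, rfl⟩
      · exact ⟨1, rfl⟩
  obtain ⟨w, hw1, hw2, hw3⟩ := exists_niel_fin ![u, v]
  rw [hset] at hw1
  have hw4 : ∀ i, w i ≠ 1 := by
    intro i hi
    apply huv
    apply comm_of_one hi
    · rw [hw1]; exact Subgroup.subset_closure (by simp)
    · rw [hw1]; exact Subgroup.subset_closure (by simp)
  have hval : ∀ X, val w X ≠ 1 := by
    rintro ⟨i, b⟩
    cases b
    · show (w i)⁻¹ ≠ 1
      rw [Ne, inv_eq_one]
      exact hw4 i
    · exact hw4 i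
  have hL : ∀ i, (w i).norm ≤ 2 * n := by
    intro i
    rw [Fin.sum_univ_two, Fin.sum_univ_two] at hw3
    have e0 : (![u, v] 0 : FreeGroup (Fin m)) = u := rfl
    have e1 : (![u, v] 1 : FreeGroup (Fin m)) = v := rfl
    rw [e0, e1] at hw3
    fin_cases i
    · show (w 0).norm ≤ _
      omega
    · show (w 1).norm ≤ _
      omega
  have hlow := two_pow_le hw2 hval hL
  rw [hw1] at hlow
  -- the upper bound
  set b : ℝ≥0 := ⟨1 + 1 / (4 * n), by positivity⟩ with hb
  have hbr : (b : ℝ) = 1 + 1 / (4 * n) := rfl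
  have hb1 : (1 : ℝ) ≤ b := by
    rw [hbr]
    have : (0 : ℝ) ≤ 1 / (4 * n) := by positivity
    linarith
  have hlt : rate (sph (Subgroup.closure {u, v})) < (b : ℝ≥0∞) := by
    refine lt_of_le_of_lt hcon ?_
    rw [← ENNReal.ofReal_coe_nnreal, hbr]
    apply (ENNReal.ofReal_lt_ofReal_iff (by positivity)).2
    have : (1 : ℝ) / (5 * n) < 1 / (4 * n) := by
      apply one_div_lt_one_div_of_lt (by positivity)
      linarith
    linarith
  obtain ⟨C, hC0, hC⟩ := sum_of_rate_lt hb1 hlt
  have hq : (b : ℝ) ^ (2 * n) ≤ Real.exp (1 / 2) := by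
    have h1 : (b : ℝ) ≤ Real.exp (1 / (4 * n)) := by
      rw [hbr, add_comm]
      exact Real.add_one_le_exp _
    calc (b : ℝ) ^ (2 * n) ≤ Real.exp (1 / (4 * n)) ^ (2 * n) :=
          pow_le_pow_left₀ (by linarith) h1 _
      _ = Real.exp (1 / 2) := by
          rw [← Real.exp_nat_mul]
          congr 1
          push_cast
          field_simp
          norm_num
  have hq2 : Real.exp (1 / 2) < 3 / 2 + 1 / 4 := by
    have h1 : Real.exp (1 / 2) * Real.exp (1 / 2) = Real.exp 1 := by
      rw [← Real.exp_add]; norm_num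
    have h2 := Real.exp_one_lt_d9
    have h3 := Real.exp_pos (1 / 2)
    nlinarith
  set q : ℝ := (b : ℝ) ^ (2 * n) with hqdef
  have hq1 : 1 ≤ q := one_le_pow₀ hb1
  have hF : ∀ k : ℕ, ((2 ^ k : ℕ) : ℝ) ≤ ((C + 1) + 2 * n * k) * q ^ k := by
    intro k
    have e1 : ((2 ^ k : ℕ) : ℝ) ≤ (bal (Subgroup.closure {u, v}) (2 * n * k) : ℝ) := by
      exact_mod_cast hlow k
    have e2 := hC (2 * n * k)
    have e3 : ((∑ j ∈ Finset.range (2 * n * k + 1), sph (Subgroup.closure {u, v}) j : ℕ) : ℝ) =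
        (bal (Subgroup.closure {u, v}) (2 * n * k) : ℝ) := by rw [sum_sph]
    push_cast at e3
    rw [e3, pow_mul (b : ℝ) (2 * n) k] at e2
    have hqk : 1 ≤ q ^ k := one_le_pow₀ hq1
    push_cast at e2
    have e4 : C ≤ C * q ^ k := by nlinarith
    nlinarith
  have h3 := rate_le_of_real (F := fun k => 2 ^ k) hq1 (by positivity) (by positivity) hF
  have h4 : rate (fun k => 2 ^ k) < ((7 / 4 : ℝ≥0) : ℝ≥0∞) := by
    refine lt_of_le_of_lt h3 ?_
    rw [← ENNReal.ofReal_coe_nnreal]
    apply (ENNReal.ofReal_lt_ofReal_iff (by norm_num)).2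
    have : (((7 / 4 : ℝ≥0)) : ℝ) = 7 / 4 := by norm_num
    rw [this]
    linarith
  obtain ⟨k, hk1, hk2⟩ := ((eventually_lt_of_limsup_lt h4).and (eventually_ge_atTop 1)).exists
  have h5 := (pow_le_iff (2 ^ k) (7 / 4) hk2).1 hk1.le
  have h6 : ((7 / 4 : ℝ≥0) : ℝ) ^ k < 2 ^ k := by
    apply pow_lt_pow_left₀ _ (by positivity) (by omega)
    norm_num
  push_cast at h5 h6
  linarith

end Main

end Pool.Agent.Lib.MP_47235e_al
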