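import Mathlib
import Pool.Agent.Lib.MP_47235e_al.Two8

/-!
# Part 8: strict monotonicity of the growth rate
-/

set_option autoImplicit false

namespace Pool.Agent.Lib.MP_47235e_al

open FreeGroup Filter
open scoped ENNReal NNReal Topology

section Words

variable {ι : Type*} [DecidableEq ι] [Fintype ι]

/-- all words with `k + 1` letters and first letter `X` -/
def AW : ℕ → ι × Bool → Finset (List (ι × Bool))
  | 0, X => {[X]}
  | k + 1, X => (Finset.univ.filter fun Y : ι × Bool => Y ≠ flip X).biUnion fun Y =>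
      (AW k Y).image (fun l => X :: l)

theorem AW_spec : ∀ (k : ℕ) (X : ι × Bool) (l : List (ι × Bool)), l ∈ AW k X →
    IsReduced l ∧ l.length = k + 1 ∧ ∃ t, l = X :: t
  | 0, X, l, h => by
    rw [AW, Finset.mem_singleton] at h
    subst h
    exact ⟨by simp, rfl, [], rfl⟩
  | k + 1, X, l, h => by
    rw [AW, Finset.mem_biUnion] at h
    obtain ⟨Y, hY, hl⟩ := h
    rw [Finset.mem_image] at hl
    obtain ⟨l', hl', rfl⟩ := hl
    obtain ⟨h1, h2, t, rfl⟩ := AW_spec k Y l' hl'
    have hY' : Y ≠ flip X := by simpa using hY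
    refine ⟨?_, ?_, _, rfl⟩
    · rw [isReduced_cons_cons]
      exact ⟨red2_of_ne hY', h1⟩
    · rw [List.length_cons, h2]

/-- the `k`-th power of the matrix applied to the vector `f` -/
noncomputable def pw (a : ι × Bool → ι × Bool → ℕ) (s : ℝ) (f : ι × Bool → ℝ) :
    ℕ → ι × Bool → ℝ
  | 0, X => f X
  | k + 1, X => ∑ Y ∈ Finset.univ.filter (fun Y : ι × Bool => Y ≠ flip X),
      s ^ (a X Y) * pw a s f k Y

theorem pw_le_words (a : ι × Bool → ι × Bool → ℕ) (b : ι × Bool → ℕ) {s : ℝ} (hs0 : 0 < s)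
    (k : ℕ) (X : ι × Bool) :
    pw a s (fun X => s ^ (b X)) k X ≤ ∑ l ∈ AW k X, s ^ (len a b l) := by
  induction k generalizing X with
  | zero =>
    rw [AW, Finset.sum_singleton]
    exact le_rfl
  | succ k ih =>
    rw [AW, Finset.sum_biUnion]
    · show ∑ Y ∈ Finset.univ.filter (fun Y : ι × Bool => Y ≠ flip X),
        s ^ (a X Y) * pw a s (fun X => s ^ (b X)) k Y ≤ _
      apply Finset.sum_le_sum
      intro Y _
      rw [Finset.sum_image (by
        intro l _ l' _ h
        exact (List.cons.inj h).2)]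
      calc s ^ (a X Y) * pw a s (fun X => s ^ (b X)) k Y
          ≤ s ^ (a X Y) * ∑ l ∈ AW k Y, s ^ (len a b l) :=
            mul_le_mul_of_nonneg_left (ih Y) (pow_pos hs0 _).le
        _ = ∑ l ∈ AW k Y, s ^ (len a b (X :: l)) := by
            rw [Finset.mul_sum]
            apply Finset.sum_congr rfl
            intro l hl
            obtain ⟨-, -, t, rfl⟩ := AW_spec k Y l hl
            rw [← pow_add]
            rfl
    · intro Y _ Z _ hYZ
      rw [Function.onFun, Finset.disjoint_left]
      intro l hl hl'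
      rw [Finset.mem_image] at hl hl'
      obtain ⟨p, hp, rfl⟩ := hl
      obtain ⟨q, hq, hpq⟩ := hl'
      obtain ⟨-, -, t, rfl⟩ := AW_spec k Y p hp
      obtain ⟨-, -, t', rfl⟩ := AW_spec k Z q hq
      have h1 := (List.cons.inj hpq).2
      exact hYZ (List.cons.inj h1).1.symm

theorem pw_smul (a : ι × Bool → ι × Bool → ℕ) (s c : ℝ) (f : ι × Bool → ℝ) (k : ℕ)
    (X : ι × Bool) : pw a s (fun X => c * f X) k X = c * pw a s f k X := by
  induction k generalizing X with
  | zero => rfl
  | succ k ih =>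
    show ∑ Y ∈ Finset.univ.filter (fun Y : ι × Bool => Y ≠ flip X),
        s ^ (a X Y) * pw a s (fun X => c * f X) k Y = c * ∑ Y ∈ _, _
    rw [Finset.mul_sum]
    apply Finset.sum_congr rfl
    intro Y _
    rw [ih Y]
    ring

theorem pw_mono (a : ι × Bool → ι × Bool → ℕ) {s : ℝ} (hs0 : 0 < s) {f g : ι × Bool → ℝ}
    (h : ∀ X, f X ≤ g X) (k : ℕ) (X : ι × Bool) : pw a s f k X ≤ pw a s g k X := by
  induction k generalizing X with
  | zero => exact h X
  | succ k ih =>
    exact Finset.sum_le_sum fun Y _ => mul_le_mul_of_nonneg_left (ih Y) (pow_pos hs0 _).le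

theorem pw_nonneg (a : ι × Bool → ι × Bool → ℕ) {s : ℝ} (hs0 : 0 < s) {f : ι × Bool → ℝ}
    (h : ∀ X, 0 ≤ f X) (k : ℕ) (X : ι × Bool) : 0 ≤ pw a s f k X := by
  induction k generalizing X with
  | zero => exact h X
  | succ k ih =>
    exact Finset.sum_nonneg fun Y _ => mul_nonneg (pow_pos hs0 _).le (ih Y)

end Words

section Sub

variable {m : ℕ} {ι : Type*} [DecidableEq ι] [Fintype ι] {u : ι → FreeGroup (Fin m)}

/-- for `t` larger than the growth rate there is a subeigenvector -/
theorem hasSub_of_rate_lt (hu : Niel u) (h1 : ∀ X, val u X ≠ 1) {t : ℝ} (ht : 1 < t)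
    (h : rate (sph (Subgroup.closure (Set.range u))) < ENNReal.ofReal t) : HasSub u t⁻¹ := by
  have ht0 : 0 < t := by linarith
  have ht1' : (1 : ℝ≥0∞) < ENNReal.ofReal t := by
    rw [← ENNReal.ofReal_one]
    exact (ENNReal.ofReal_lt_ofReal_iff ht0).2 ht
  obtain ⟨b, hb1, hb2⟩ := ENNReal.lt_iff_exists_nnreal_btwn.1 (max_lt ht1' h)
  have hb : (1 : ℝ) < (b : ℝ) := by
    have h2 : (1 : ℝ≥0∞) < (b : ℝ≥0∞) := lt_of_le_of_lt (le_max_left _ _) hb1
    exact_mod_cast h2
  have hbt : (b : ℝ) < t := by
    rw [← ENNReal.ofReal_coe_nnreal] at hb2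
    exact (ENNReal.ofReal_lt_ofReal_iff ht0).1 hb2
  have h2 := eventually_lt_of_limsup_lt (lt_of_le_of_lt (le_max_right _ _) hb1)
  obtain ⟨N, hN⟩ := eventually_atTop.1 (h2.and (eventually_ge_atTop 1))
  have hsph : ∀ n, N ≤ n → (sph (Subgroup.closure (Set.range u)) n : ℝ) ≤ (b : ℝ) ^ n :=
    fun n hn => (pow_le_iff _ b (hN n hn).2).1 (hN n hn).1.le
  set s := t⁻¹ with hs
  have hs0 : 0 < s := inv_pos.2 ht0
  have hs1 : s ≤ 1 := inv_le_one_of_one_le₀ ht.le
  set q := (b : ℝ) * s with hq
  have hq0 : 0 < q := mul_pos (by linarith) hs0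
  have hq1 : q < 1 := by
    rw [hq, hs, ← div_eq_mul_inv, div_lt_one ht0]
    exact hbt
  -- the sums over words
  have hW : ∀ k, N ≤ k → ∀ X, ∑ l ∈ AW k X, s ^ (len (dA u) (dB u) l) ≤
      q ^ k * (1 - q)⁻¹ := by
    intro k hk X
    set L : List (ι × Bool) → ℕ := fun l => len (dA u) (dB u) l with hL
    obtain ⟨Nm, hNm⟩ : ∃ Nm, ∀ l ∈ AW k X, L l ≤ Nm := by
      refine ⟨∑ l ∈ AW k X, L l, fun l hl => ?_⟩
      exact Finset.single_le_sum (f := L) (fun _ _ => Nat.zero_le _) hl
    have e1 : ∑ l ∈ AW k X, s ^ (L l) =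
        ∑ n ∈ Finset.range (Nm + 1), ∑ l ∈ (AW k X).filter (fun l => L l = n), s ^ (L l) :=
      (Finset.sum_fiberwise_of_maps_to (fun l hl => Finset.mem_range.2
        (Nat.lt_succ_of_le (hNm l hl))) _).symm
    rw [e1]
    have e2 : ∀ n, ∑ l ∈ (AW k X).filter (fun l => L l = n), s ^ (L l) ≤
        (if k ≤ n then q ^ n else 0) := by
      intro n
      have e3 : ∑ l ∈ (AW k X).filter (fun l => L l = n), s ^ (L l) =
          (((AW k X).filter (fun l => L l = n)).card : ℝ) * s ^ n := by
        rw [Finset.sum_congr rfl fun l hl => by rw [(Finset.mem_filter.1 hl).2],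
          Finset.sum_const, nsmul_eq_mul]
      rw [e3]
      split_ifs with hkn
      · have e4 : ((AW k X).filter (fun l => L l = n)).card ≤
            sph (Subgroup.closure (Set.range u)) n := by
          rw [← Set.ncard_coe_finset]
          refine Set.ncard_le_ncard_of_injOn (fun l => prodv u l) ?_ ?_
            ((finite_ball n).subset fun h hh => hh.2.le)
          · intro l hl
            rw [Finset.mem_coe, Finset.mem_filter] at hl
            obtain ⟨r1, -, -⟩ := AW_spec k X l hl.1
            refine ⟨?_, ?_⟩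
            · show (l.map (val u)).prod ∈ _
              apply Subgroup.list_prod_mem
              intro x hx
              rw [List.mem_map] at hx
              obtain ⟨Z, -, rfl⟩ := hx
              exact val_mem u Z
            · show (prodv u l).norm = n
              rw [norm_prodv hu h1 l r1]
              exact hl.2
          · intro l hl l' hl' hll
            rw [Finset.mem_coe, Finset.mem_filter] at hl hl'
            obtain ⟨r1, -, -⟩ := AW_spec k X l hl.1
            obtain ⟨r2, -, -⟩ := AW_spec k X l' hl'.1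
            have h2 : FreeGroup.lift u (mk l) = FreeGroup.lift u (mk l') := by
              rw [lift_eq, lift_eq, toWord_mk_of r1, toWord_mk_of r2]
              exact hll
            have h3 := congrArg toWord (lift_injective hu h1 h2)
            rwa [toWord_mk_of r1, toWord_mk_of r2] at h3
        have e5 : (((AW k X).filter (fun l => L l = n)).card : ℝ) ≤ (b : ℝ) ^ n := by
          refine le_trans ?_ (hsph n (by omega))
          exact_mod_cast e4
        calc _ ≤ (b : ℝ) ^ n * s ^ n := mul_le_mul_of_nonneg_right e5 (pow_pos hs0 _).le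
          _ = q ^ n := by rw [hq, mul_pow]
      · have e4 : (AW k X).filter (fun l => L l = n) = ∅ := by
          rw [Finset.filter_eq_empty_iff]
          intro l hl hln
          obtain ⟨r1, r2, -⟩ := AW_spec k X l hl
          have := length_le_len hu h1 r1
          rw [r2] at this
          have hln' : len (dA u) (dB u) l = n := hln
          omega
        rw [e4, Finset.card_empty, Nat.cast_zero, zero_mul]
    refine (Finset.sum_le_sum fun n _ => e2 n).trans ?_
    rw [← Finset.sum_filter]
    have e6 : ∑ n ∈ (Finset.range (Nm + 1)).filter (fun n => k ≤ n), q ^ n ≤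
        ∑' n : ℕ, q ^ (n + k) := by
      have hsum : Summable fun n : ℕ => q ^ (n + k) := by
        simp only [pow_add]
        exact (summable_geometric_of_lt_one hq0.le hq1).mul_right _
      have e7 : ∑ n ∈ (Finset.range (Nm + 1)).filter (fun n => k ≤ n), q ^ n ≤
          ∑ n ∈ Finset.range (Nm + 1), q ^ (n + k) := by
        have : (Finset.range (Nm + 1)).filter (fun n => k ≤ n) ⊆
            (Finset.range (Nm + 1)).image (fun n => n + k) := by
          intro n hn
          rw [Finset.mem_filter, Finset.mem_range] at hn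
          rw [Finset.mem_image]
          exact ⟨n - k, Finset.mem_range.2 (by omega), by omega⟩
        calc _ ≤ ∑ n ∈ (Finset.range (Nm + 1)).image (fun n => n + k), q ^ n :=
              Finset.sum_le_sum_of_subset_of_nonneg this fun _ _ _ => (pow_pos hq0 _).le
          _ = _ := by
              rw [Finset.sum_image]
              intro x _ y _ hxy
              exact Nat.add_right_cancel hxy
      exact e7.trans (hsum.sum_le_tsum _ fun _ _ => (pow_pos hq0 _).le)
    refine e6.trans (le_of_eq ?_)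
    simp only [pow_add]
    rw [tsum_mul_right, tsum_geometric_of_lt_one hq0.le hq1]
    ring
  -- a constant
  obtain ⟨β, hβ⟩ : ∃ β : ℕ, ∀ X, dB u X ≤ β :=
    ⟨∑ X, dB u X, fun X => Finset.single_le_sum (f := fun X => dB u X)
      (fun _ _ => Nat.zero_le _) (Finset.mem_univ X)⟩
  have hsβ : 0 < s ^ β := pow_pos hs0 β
  have hten : Tendsto (fun k : ℕ => q ^ k * (1 - q)⁻¹) atTop (𝓝 (0 * (1 - q)⁻¹)) :=
    (tendsto_pow_atTop_nhds_zero_of_lt_one hq0.le hq1).mul_const _
  rw [zero_mul] at hten
  obtain ⟨K, hK1, hK2, hK3⟩ := ((hten.eventually (gt_mem_nhds hsβ)).and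
    ((eventually_ge_atTop N).and (eventually_ge_atTop 1))).exists
  -- the power applied to the vector one
  have hone : ∀ X, pw (dA u) s (fun _ => 1) K X ≤ 1 := by
    intro X
    have e1 : pw (dA u) s (fun X => s ^ β * 1) K X ≤ pw (dA u) s (fun X => s ^ (dB u X)) K X :=
      pw_mono _ hs0 (fun X => by
        rw [mul_one]
        exact pow_le_pow_of_le_one hs0.le hs1 (hβ X)) K X
    rw [pw_smul (dA u) s (s ^ β) (fun _ => 1) K X] at e1
    have e2 := (e1.trans (pw_le_words (dA u) (dB u) hs0 K X)).trans (hW K hK2 X)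
    have e3 : s ^ β * pw (dA u) s (fun _ => 1) K X ≤ s ^ β * 1 := by
      rw [mul_one]
      exact e2.trans hK1.le
    exact le_of_mul_le_mul_left e3 hsβ
  have hnn : ∀ k X, 0 ≤ pw (dA u) s (fun _ => 1) k X :=
    pw_nonneg _ hs0 fun _ => zero_le_one
  refine ⟨fun X => ∑ k ∈ Finset.range K, pw (dA u) s (fun _ => 1) k X,
    fun X => ?_, fun X => ?_⟩
  · show 0 < ∑ k ∈ Finset.range K, pw (dA u) s (fun _ => 1) k X
    have e : pw (dA u) s (fun _ => 1) 0 X = 1 := rfl
    have e1 := Finset.single_le_sum (f := fun k => pw (dA u) s (fun _ => 1) k X)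
      (fun k _ => hnn k X) (Finset.mem_range.2 hK3)
    simp only [e] at e1
    linarith
  · show ∑ Y ∈ Finset.univ.filter (fun Y : ι × Bool => Y ≠ flip X),
      s ^ (dA u X Y) * ∑ k ∈ Finset.range K, pw (dA u) s (fun _ => 1) k Y ≤
      ∑ k ∈ Finset.range K, pw (dA u) s (fun _ => 1) k X
    have e1 : ∑ Y ∈ Finset.univ.filter (fun Y : ι × Bool => Y ≠ flip X),
        s ^ (dA u X Y) * ∑ k ∈ Finset.range K, pw (dA u) s (fun _ => 1) k Y =
        ∑ k ∈ Finset.range K, pw (dA u) s (fun _ => 1) (k + 1) X := by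
      simp only [Finset.mul_sum]
      rw [Finset.sum_comm]
      rfl
    rw [e1]
    have e2 := Finset.sum_range_succ (fun k => pw (dA u) s (fun _ => 1) k X) K
    have e3 := Finset.sum_range_succ' (fun k => pw (dA u) s (fun _ => 1) k X) K
    have e : pw (dA u) s (fun _ => 1) 0 X = 1 := rfl
    have e4 := hone X
    rw [e] at e3
    linarith

end Sub

end Pool.Agent.Lib.MP_47235e_al
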