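import Mathlib
import Pool.Agent.Lib.MP_47235e_al.Two9

/-!
# Part 9: the growth rate is strictly decreasing in the data
-/

set_option autoImplicit false

namespace Pool.Agent.Lib.MP_47235e_al

open FreeGroup Filter
open scoped ENNReal NNReal Topology

section Strict

variable {m : ℕ} {ι : Type*} [DecidableEq ι] [Fintype ι] {u v : ι → FreeGroup (Fin m)}

omit [DecidableEq ι] in
theorem exists_third (hr : 2 ≤ Fintype.card ι) (X W : ι × Bool) :
    ∃ Z : ι × Bool, Z ≠ flip X ∧ W ≠ flip Z := by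
  classical
  by_contra hcon
  push Not at hcon
  have h1 : (Finset.univ : Finset (ι × Bool)) ⊆ {flip X, flip W} := by
    intro Z _
    rw [Finset.mem_insert, Finset.mem_singleton]
    by_cases h : Z = flip X
    · exact Or.inl h
    · right
      rw [hcon Z h, flip_flip]
  have h2 := (Finset.card_le_card h1).trans Finset.card_le_two
  rw [Finset.card_univ, Fintype.card_prod, Fintype.card_bool] at h2
  omega

theorem term_le {a : ι × Bool → ι × Bool → ℕ} {s : ℝ} (hs0 : 0 < s) {f : ι × Bool → ℝ}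
    (hf : ∀ X, 0 ≤ f X) {X Y : ι × Bool} (h : Y ≠ flip X) :
    s ^ (a X Y) * f Y ≤ ∑ Y ∈ Finset.univ.filter (fun Y : ι × Bool => Y ≠ flip X),
      s ^ (a X Y) * f Y :=
  Finset.single_le_sum (f := fun Y => s ^ (a X Y) * f Y)
    (fun Z _ => mul_nonneg (pow_pos hs0 _).le (hf Z)) (by simp [h])

/-- a positive subeigenvector at the growth rate itself -/
theorem exists_perron (hu : Niel u) (hu1 : ∀ X, val u X ≠ 1) (hr : 2 ≤ Fintype.card ι)
    {t : ℝ} (ht : 1 < t)
    (h : rate (sph (Subgroup.closure (Set.range u))) ≤ ENNReal.ofReal t) : HasSub u t⁻¹ := by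
  have ht0 : 0 < t := by linarith
  -- vectors for larger values
  have h1 : ∀ n : ℕ, ∃ G ∈ stdSimplex ℝ (ι × Bool),
      ∀ X, ∑ Y ∈ Finset.univ.filter (fun Y : ι × Bool => Y ≠ flip X),
        (t + 1 / ((n : ℝ) + 1))⁻¹ ^ (dA u X Y) * G Y ≤ G X := by
    intro n
    have hn : (0 : ℝ) < 1 / ((n : ℝ) + 1) := by positivity
    have h2 : rate (sph (Subgroup.closure (Set.range u))) <
        ENNReal.ofReal (t + 1 / ((n : ℝ) + 1)) :=
      lt_of_le_of_lt h ((ENNReal.ofReal_lt_ofReal_iff (by linarith)).2 (by linarith))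
    obtain ⟨f, hf0, hf⟩ := hasSub_of_rate_lt hu hu1 (by linarith) h2
    have hne : (Finset.univ : Finset (ι × Bool)).Nonempty := by
      rw [← Finset.card_pos, Finset.card_univ, Fintype.card_prod, Fintype.card_bool]
      omega
    set S : ℝ := ∑ X, f X with hS
    have hS0 : 0 < S := Finset.sum_pos (fun X _ => hf0 X) hne
    refine ⟨fun X => S⁻¹ * f X, ⟨fun X => (mul_pos (inv_pos.2 hS0) (hf0 X)).le, ?_⟩, fun X => ?_⟩
    · rw [← Finset.mul_sum, ← hS, inv_mul_cancel₀ hS0.ne']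
    · have e : ∑ Y ∈ Finset.univ.filter (fun Y : ι × Bool => Y ≠ flip X),
          (t + 1 / ((n : ℝ) + 1))⁻¹ ^ (dA u X Y) * (S⁻¹ * f Y) =
          S⁻¹ * ∑ Y ∈ Finset.univ.filter (fun Y : ι × Bool => Y ≠ flip X),
            (t + 1 / ((n : ℝ) + 1))⁻¹ ^ (dA u X Y) * f Y := by
        rw [Finset.mul_sum]
        apply Finset.sum_congr rfl
        intro Y _
        ring
      show ∑ Y ∈ _, (t + 1 / ((n : ℝ) + 1))⁻¹ ^ (dA u X Y) * (S⁻¹ * f Y) ≤ _
      rw [e]
      exact mul_le_mul_of_nonneg_left (hf X) (inv_pos.2 hS0).le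
  choose G hG hG' using h1
  obtain ⟨F, hF, φ, hφ, hlim⟩ := (isCompact_stdSimplex ℝ (ι × Bool)).tendsto_subseq hG
  have hcoord : ∀ X, Tendsto (fun n => G (φ n) X) atTop (𝓝 (F X)) := fun X =>
    (tendsto_pi_nhds.1 hlim) X
  have hs : Tendsto (fun n : ℕ => (t + 1 / ((φ n : ℝ) + 1))⁻¹) atTop (𝓝 t⁻¹) := by
    have e1 : Tendsto (fun n : ℕ => 1 / ((φ n : ℝ) + 1)) atTop (𝓝 0) :=
      tendsto_one_div_add_atTop_nhds_zero_nat.comp hφ.tendsto_atTop
    have e2 : Tendsto (fun n : ℕ => t + 1 / ((φ n : ℝ) + 1)) atTop (𝓝 (t + 0)) :=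
      tendsto_const_nhds.add e1
    rw [add_zero] at e2
    exact e2.inv₀ ht0.ne'
  have hFsub : ∀ X, ∑ Y ∈ Finset.univ.filter (fun Y : ι × Bool => Y ≠ flip X),
      t⁻¹ ^ (dA u X Y) * F Y ≤ F X := by
    intro X
    refine le_of_tendsto_of_tendsto' (tendsto_finset_sum _ fun Y _ =>
      (hs.pow (dA u X Y)).mul (hcoord Y)) (hcoord X) fun n => hG' (φ n) X
  have hF0 : ∀ X, 0 ≤ F X := hF.1
  obtain ⟨W, hW⟩ : ∃ W, 0 < F W := by
    by_contra hcon
    push Not at hcon
    have e1 : ∑ X, F X = 0 := Finset.sum_eq_zero fun X _ => le_antisymm (hcon X) (hF0 X)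
    rw [hF.2] at e1
    exact one_ne_zero e1
  have hs0 : 0 < t⁻¹ := inv_pos.2 ht0
  refine ⟨F, fun X => ?_, hFsub⟩
  obtain ⟨Z, hZ1, hZ2⟩ := exists_third hr X W
  have e1 : 0 < F Z := by
    have e2 := (term_le (a := dA u) hs0 hF0 hZ2).trans (hFsub Z)
    exact lt_of_lt_of_le (mul_pos (pow_pos hs0 _) hW) e2
  have e2 := (term_le (a := dA u) hs0 hF0 hZ1).trans (hFsub X)
  exact lt_of_lt_of_le (mul_pos (pow_pos hs0 _) e1) e2

/-- strict monotonicity -/
theorem rate_lt_of_dA (hu : Niel u) (hu1 : ∀ X, val u X ≠ 1) (hv : Niel v)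
    (hv1 : ∀ X, val v X ≠ 1) (hr : 2 ≤ Fintype.card ι)
    (hle : ∀ X Y, Y ≠ flip X → dA u X Y ≤ dA v X Y) {X₀ Y₀ : ι × Bool} (hXY : Y₀ ≠ flip X₀)
    (hlt : dA u X₀ Y₀ < dA v X₀ Y₀)
    (hc : 1 < rate (sph (Subgroup.closure (Set.range u)))) :
    rate (sph (Subgroup.closure (Set.range v))) <
      rate (sph (Subgroup.closure (Set.range u))) := by
  -- the growth rate is a real number
  have hfin : rate (sph (Subgroup.closure (Set.range u))) ≠ ⊤ := by
    have hr' : (2 : ℝ) ≤ Fintype.card ι := by exact_mod_cast hr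
    have h1 : HasSub u (2 * (Fintype.card ι : ℝ) - 1)⁻¹ := by
      apply hasSub_one hu hu1
      · apply inv_pos.2; linarith
      · apply inv_le_one_of_one_le₀; linarith
      · rw [inv_mul_cancel₀]; linarith
    have h2 := rate_le_of_sub hu hu1 (by linarith) h1 (cj_one _).symm
    exact ne_top_of_le_ne_top ENNReal.ofReal_ne_top h2
  set t := (rate (sph (Subgroup.closure (Set.range u)))).toReal with htdef
  have hteq : ENNReal.ofReal t = rate (sph (Subgroup.closure (Set.range u))) :=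
    ENNReal.ofReal_toReal hfin
  have ht : 1 < t := by
    rw [← hteq, ← ENNReal.ofReal_one] at hc
    exact (ENNReal.ofReal_lt_ofReal_iff_of_nonneg zero_le_one).1 hc
  have ht0 : 0 < t := by linarith
  obtain ⟨F, hF0, hF⟩ := exists_perron hu hu1 hr ht hteq.ge
  set s := t⁻¹ with hs
  have hs0 : 0 < s := inv_pos.2 ht0
  have hs1 : s < 1 := inv_lt_one_of_one_lt₀ ht
  -- the operator of `v`
  let op : ℝ → (ι × Bool → ℝ) → (ι × Bool → ℝ) := fun s f X =>
    ∑ Y ∈ Finset.univ.filter (fun Y : ι × Bool => Y ≠ flip X), s ^ (dA v X Y) * f Y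
  have op_mono : ∀ f g : ι × Bool → ℝ, (∀ X, f X ≤ g X) → ∀ X, op s f X ≤ op s g X :=
    fun f g hfg X => Finset.sum_le_sum fun Y _ =>
      mul_le_mul_of_nonneg_left (hfg Y) (pow_pos hs0 _).le
  have op_lt : ∀ f g : ι × Bool → ℝ, (∀ X, f X ≤ g X) → ∀ X Z, Z ≠ flip X → f Z < g Z →
      op s f X < op s g X := by
    intro f g hfg X Z hZ hfgZ
    apply Finset.sum_lt_sum
    · exact fun Y _ => mul_le_mul_of_nonneg_left (hfg Y) (pow_pos hs0 _).le
    · exact ⟨Z, by simp [hZ], mul_lt_mul_of_pos_left hfgZ (pow_pos hs0 _)⟩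
  have h1 : ∀ X, op s F X ≤ F X := by
    intro X
    refine (Finset.sum_le_sum fun Y hY => ?_).trans (hF X)
    have hY' : Y ≠ flip X := by simpa using hY
    exact mul_le_mul_of_nonneg_right (pow_le_pow_of_le_one hs0.le hs1.le (hle X Y hY'))
      (hF0 Y).le
  have h1' : op s F X₀ < F X₀ := by
    refine lt_of_lt_of_le ?_ (hF X₀)
    apply Finset.sum_lt_sum
    · intro Y hY
      have hY' : Y ≠ flip X₀ := by simpa using hY
      exact mul_le_mul_of_nonneg_right (pow_le_pow_of_le_one hs0.le hs1.le (hle X₀ Y hY'))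
        (hF0 Y).le
    · refine ⟨Y₀, by simp [hXY], ?_⟩
      exact mul_lt_mul_of_pos_right (pow_lt_pow_right_of_lt_one₀ hs0 hs1 hlt) (hF0 Y₀)
  have h2 : ∀ X, op s (op s F) X ≤ op s F X := op_mono _ _ h1
  have h2' : ∀ X, X₀ ≠ flip X → op s (op s F) X < op s F X := fun X hX =>
    op_lt _ _ h1 X X₀ hX h1'
  have h3 : ∀ X, op s (op s (op s F)) X < op s (op s F) X := by
    intro X
    obtain ⟨Z, hZ1, hZ2⟩ := exists_third hr X X₀
    exact op_lt _ _ h2 X Z hZ1 (h2' Z hZ2)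
  let G : ι × Bool → ℝ := fun X => F X + op s F X + op s (op s F) X
  have hop0 : ∀ f : ι × Bool → ℝ, (∀ X, 0 ≤ f X) → ∀ X, 0 ≤ op s f X := fun f hf X =>
    Finset.sum_nonneg fun Y _ => mul_nonneg (pow_pos hs0 _).le (hf Y)
  have hG0 : ∀ X, 0 < G X := fun X => by
    have e1 := hop0 F (fun X => (hF0 X).le) X
    have e2 := hop0 (op s F) (hop0 F (fun X => (hF0 X).le)) X
    have e3 := hF0 X
    show 0 < F X + op s F X + op s (op s F) X
    linarith
  have hGop : ∀ X, op s G X < G X := by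
    intro X
    have e1 : op s G X = op s F X + op s (op s F) X + op s (op s (op s F)) X := by
      show ∑ Y ∈ Finset.univ.filter (fun Y : ι × Bool => Y ≠ flip X),
        s ^ (dA v X Y) * (F Y + op s F Y + op s (op s F) Y) = _
      rw [Finset.sum_congr rfl fun Y _ => by rw [mul_add, mul_add], Finset.sum_add_distrib,
        Finset.sum_add_distrib]
    rw [e1]
    show _ < F X + op s F X + op s (op s F) X
    have e2 := h3 X
    have e3 := h2 X
    have e4 := h1 X
    linarith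
  -- a slightly larger value of `s`
  have hcont : ∀ X, ∀ᶠ x in 𝓝 s, op x G X < G X := by
    intro X
    have e1 : Continuous fun x : ℝ => op x G X := by
      show Continuous fun x : ℝ => ∑ Y ∈ Finset.univ.filter (fun Y : ι × Bool => Y ≠ flip X),
        x ^ (dA v X Y) * G Y
      exact continuous_finset_sum _ fun Y _ => (continuous_pow _).mul continuous_const
    exact e1.tendsto s |>.eventually (gt_mem_nhds (hGop X))
  have hall : ∀ᶠ x in 𝓝 s, ∀ X, op x G X < G X := Filter.eventually_all.2 hcont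
  obtain ⟨x, hx1, hx2⟩ := ((hall.filter_mono nhdsWithin_le_nhds).and
    (Ioo_mem_nhdsGT hs1)).exists
  have hx0 : 0 < x := hs0.trans hx2.1
  have hsub : HasSub v (x⁻¹)⁻¹ := by
    rw [inv_inv]
    exact ⟨G, hG0, fun X => (hx1 X).le⟩
  have h4 := rate_le_of_sub hv hv1 (one_le_inv_iff₀.2 ⟨hx0, hx2.2.le⟩) hsub (cj_one _).symm
  refine lt_of_le_of_lt h4 ?_
  rw [← hteq]
  apply (ENNReal.ofReal_lt_ofReal_iff ht0).2
  have : x⁻¹ < s⁻¹ := (inv_lt_inv₀ hx0 hs0).2 hx2.1
  rwa [hs, inv_inv] at this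

end Strict

end Pool.Agent.Lib.MP_47235e_al
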