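import Mathlib
import Pool.Agent.Lib.MP_47235e_al.Two10

/-!
# Part 10: finitely many conjugacy classes of given growth rate
-/

set_option autoImplicit false

namespace Pool.Agent.Lib.MP_47235e_al

open FreeGroup Filter
open scoped ENNReal NNReal Topology

section Zero

variable {m : ℕ} {ι : Type*} [DecidableEq ι] [Fintype ι] {u v : ι → FreeGroup (Fin m)}

theorem exists_zero (hu1 : ∀ X, val u X ≠ 1)
    (hmin : ∀ h : FreeGroup (Fin m), ∑ i, (u i).norm ≤ ∑ i, (h * u i * h⁻¹).norm)
    (W : ι × Bool) : ∃ Y, Y ≠ W ∧ kp u W Y = 0 := by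
  classical
  obtain ⟨a, ha⟩ : ∃ a, Begins (val u W) a := by
    cases h : (val u W).toWord with
    | nil => exact absurd (toWord_eq_nil_iff.1 h) (hu1 W)
    | cons a t => exact ⟨a, t, h⟩
  have h1 := count_begins hmin a
  obtain ⟨Y, hY⟩ : ∃ Y, ¬ Begins (val u Y) a := by
    by_contra hcon
    push Not at hcon
    rw [Finset.filter_true_of_mem fun Y _ => hcon Y, Finset.card_univ, Fintype.card_prod,
      Fintype.card_bool] at h1
    have : 0 < Fintype.card ι := Fintype.card_pos_iff.2 ⟨W.1⟩
    omega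
  refine ⟨Y, ?_, ?_⟩
  · rintro rfl
    exact hY ha
  · by_contra hne
    have hpos : 0 < kap (val u W) (val u Y) := Nat.pos_of_ne_zero hne
    obtain ⟨b, hb, hb'⟩ := kap_pos.1 hpos
    rw [← begins_unique ha hb] at hb'
    exact hY hb'

theorem exists_strict (hu : Niel u) (hv : Niel v) (hv1 : ∀ X, val v X ≠ 1)
    (hmin : ∀ h : FreeGroup (Fin m), ∑ i, (v i).norm ≤ ∑ i, (h * v i * h⁻¹).norm)
    (hA : ∀ X Y, dA u X Y ≤ dA v X Y) (hB : ∀ X, dB u X ≤ dB v X)
    (hne : (dA u, dB u) ≠ (dA v, dB v)) :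
    ∃ X Y, Y ≠ flip X ∧ dA u X Y < dA v X Y := by
  by_contra hcon
  push Not at hcon
  have hAe : ∀ X Y, Y ≠ flip X → dA u X Y = dA v X Y := fun X Y h =>
    le_antisymm (hA X Y) (hcon X Y h)
  apply hne
  refine Prod.ext ?_ ?_
  · funext X Y
    by_cases h : Y = flip X
    · subst h
      show (val u X * val u (flip X)).norm - _ = (val v X * val v (flip X)).norm - _
      rw [val_flip, val_flip, mul_inv_cancel, mul_inv_cancel, FreeGroup.norm_one]
      omega
    · exact hAe X Y h
  · funext X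
    obtain ⟨Y, hY, hY0⟩ := exists_zero hv1 hmin (flip X)
    have e1 := dA_kp hv hY
    have e2 := dA_kp hu hY
    have e3 := hAe X Y hY
    have e4 : dB u X = (u X.1).norm := norm_val u X
    have e5 : dB v X = (v X.1).norm := norm_val v X
    have e6 := hB X
    show dB u X = dB v X
    omega

/-- nontrivial reduced tuples, minimal under conjugation, with growth rate `c` -/
def Good (ι : Type*) [Fintype ι] (m : ℕ) (c : ℝ≥0∞) : Set (ι → FreeGroup (Fin m)) :=
  {w | Niel w ∧ (∀ X, val w X ≠ 1) ∧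
    (∀ h : FreeGroup (Fin m), ∑ i, (w i).norm ≤ ∑ i, (h * w i * h⁻¹).norm) ∧
    rate (sph (Subgroup.closure (Set.range w))) = c}

theorem finite_good {c : ℝ≥0∞} (hc : 1 < c) : (Good ι m c).Finite := by
  by_cases hr : 2 ≤ Fintype.card ι
  · refine Set.Finite.of_finite_fibers (fun w : ι → FreeGroup (Fin m) => (dA w, dB w)) ?_ ?_
    · by_contra hinf
      have hinf' : Set.Infinite ((fun w : ι → FreeGroup (Fin m) => (dA w, dB w)) ''
        Good ι m c) := hinf
      let d : ℕ → (ι × Bool → ι × Bool → ℕ) × (ι × Bool → ℕ) := fun n =>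
        (hinf'.natEmbedding _ n).1
      have hd : Function.Injective d := fun i j h =>
        (hinf'.natEmbedding _).injective (Subtype.ext h)
      have hd2 : ∀ n, ∃ w ∈ Good ι m c, (dA w, dB w) = d n := fun n =>
        (hinf'.natEmbedding _ n).2
      obtain ⟨i, j, hij, hle⟩ := wellQuasiOrdered_le d
      obtain ⟨u, ⟨u1, u2, u3, u4⟩, u5⟩ := hd2 i
      obtain ⟨v, ⟨v1, v2, v3, v4⟩, v5⟩ := hd2 j
      have hne : (dA u, dB u) ≠ (dA v, dB v) := by
        rw [u5, v5]
        intro h
        exact hij.ne (hd h)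
      rw [← u5, ← v5] at hle
      obtain ⟨X, Y, hXY, hlt⟩ := exists_strict u1 v1 v2 v3 (fun X Y => hle.1 X Y)
        (fun X => hle.2 X) hne
      have h1 := rate_lt_of_dA u1 u2 v1 v2 hr (fun X Y _ => hle.1 X Y) hXY hlt (by rw [u4]; exact hc)
      rw [u4, v4] at h1
      exact lt_irrefl _ h1
    · rintro x -
      have h1 : {w : ι → FreeGroup (Fin m) | ∀ i, w i ∈
          {h : FreeGroup (Fin m) | h.norm ≤ x.2 (i, true)}}.Finite :=
        Set.Finite.pi' fun i => finite_ball _
      refine h1.subset ?_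
      rintro w ⟨-, hw⟩ i
      have hw' : (dA w, dB w) = x := hw
      show (w i).norm ≤ x.2 (i, true)
      rw [← hw']
      exact le_rfl
  · have : Good ι m c = ∅ := by
      rw [Set.eq_empty_iff_forall_notMem]
      rintro w ⟨h1, h2, -, h4⟩
      have h5 : (Fintype.card ι : ℝ) ≤ 1 := by
        have : Fintype.card ι ≤ 1 := by omega
        exact_mod_cast this
      have h6 : HasSub w (1 : ℝ)⁻¹ := by
        rw [inv_one]
        exact hasSub_one h1 h2 one_pos le_rfl (by linarith)
      have h7 := rate_le_of_sub h1 h2 le_rfl h6 (cj_one _).symm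
      rw [h4, ENNReal.ofReal_one] at h7
      exact absurd hc (not_lt.2 h7)
    rw [this]
    exact Set.finite_empty

end Zero

section Final

variable {m : ℕ}

theorem rate_cj_eq (K : Subgroup (FreeGroup (Fin m))) (g : FreeGroup (Fin m))
    (h : 1 < rate (sph K)) : rate (sph (cj g K)) = rate (sph K) := by
  have h1 := rate_cj K g h
  refine le_antisymm ?_ h1
  have h2 := rate_cj (cj g K) g⁻¹ (lt_of_lt_of_le h h1)
  rwa [cj_cj, inv_mul_cancel, cj_one] at h2

theorem sum_restr {r : ℕ} {u : Fin r → FreeGroup (Fin m)} (J : Set (Fin r)) [Fintype J]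
    (hJ : ∀ i, i ∈ J ↔ u i ≠ 1) (f : FreeGroup (Fin m) → FreeGroup (Fin m)) (hf : f 1 = 1) :
    ∑ j : J, (f (restr u J j)).norm = ∑ i, (f (u i)).norm := by
  have e1 : ∑ i ∈ Finset.univ.filter (fun i => u i ≠ 1), (f (u i)).norm =
      ∑ i, (f (u i)).norm := by
    apply Finset.sum_filter_of_ne
    intro i _ hne h1
    apply hne
    rw [h1, hf, FreeGroup.norm_one]
  rw [← e1]
  exact (Finset.sum_subtype (Finset.univ.filter (fun i => u i ≠ 1))
    (p := fun i => i ∈ J) (fun i => by simp [hJ]) (fun i => (f (u i)).norm)).symm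

/-- only finitely many conjugacy classes of `r`-generated subgroups have a given growth rate
greater than one -/
theorem finite_classes (m r : ℕ) {c : ℝ≥0∞} (hc : 1 < c) :
    ∃ T : Set (Subgroup (FreeGroup (Fin m))), T.Finite ∧
      ∀ u₀ : Fin r → FreeGroup (Fin m),
        rate (sph (Subgroup.closure (Set.range u₀))) = c →
        ∃ g, cj g (Subgroup.closure (Set.range u₀)) ∈ T := by
  classical
  refine ⟨⋃ J : Set (Fin r), (fun w : J → FreeGroup (Fin m) =>
    Subgroup.closure (Set.range w)) '' Good J m c, ?_, ?_⟩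
  · exact Set.finite_iUnion fun J => (finite_good hc).image _
  · intro u₀ h0
    obtain ⟨g, u, hg, hu, hmin⟩ := exists_conj_min u₀
    refine ⟨g, ?_⟩
    set J : Set (Fin r) := {i | u i ≠ 1} with hJ
    have hJu : ∀ i, i ∈ J ↔ u i ≠ 1 := fun i => Iff.rfl
    rw [Set.mem_iUnion]
    refine ⟨J, restr u J, ⟨niel_restr hu J, val_restr_ne hJu, fun h => ?_, ?_⟩, ?_⟩
    · have key : ∀ F : Fintype J, ∑ i : J, (restr u J i).norm ≤
          ∑ i : J, (h * restr u J i * h⁻¹).norm := by
        intro F
        rw [sum_restr J hJu (fun x => x) rfl, sum_restr J hJu (fun x => h * x * h⁻¹) (by simp)]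
        exact hmin h
      exact key _
    · rw [closure_restr hJu, hg, rate_cj_eq _ _ (by rw [h0]; exact hc), h0]
    · show Subgroup.closure (Set.range (restr u J)) = _
      rw [closure_restr hJu, hg]

theorem rate_mono {H K : Subgroup (FreeGroup (Fin m))} (h : H ≤ K) :
    rate (sph H) ≤ rate (sph K) := by
  apply rate_le
  intro n
  apply Finset.sum_le_sum
  intro k _
  apply Set.ncard_le_ncard
  · rintro x ⟨a, b⟩
    exact ⟨h a, b⟩
  · exact (finite_ball k).subset fun h hh => hh.2.le

/-- the data of a tuple -/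
noncomputable def dat {r : ℕ} (u : Fin r → FreeGroup (Fin m)) :
    (Fin r × Bool → Fin r × Bool → ℕ) × (Fin r × Bool → ℕ) × (Fin r → ℕ) × (Fin r → ℕ) :=
  (dA u, dB u, (fun i => if u i = 1 then 1 else 0), fun i => if u i = 1 then 0 else 1)

theorem rate_le_of_dat {r : ℕ} {u v : Fin r → FreeGroup (Fin m)} (hu : Niel u)
    (hv : Niel v) (h : dat u ≤ dat v) :
    rate (sph (Subgroup.closure (Set.range v))) ≤
      rate (sph (Subgroup.closure (Set.range u))) := by
  obtain ⟨hA, hB, h1, h2⟩ := h
  apply rate_le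
  intro n
  rw [sum_sph, sum_sph]
  refine ball_le' hu hv (fun i => ?_) (fun X Y => hA X Y) (fun X => hB X) n
  have h3 : (if u i = 1 then 1 else 0) ≤ (if v i = 1 then 1 else 0) := h1 i
  have h4 : (if u i = 1 then 0 else 1) ≤ (if v i = 1 then 0 else 1) := h2 i
  constructor
  · intro h5
    by_contra h6
    rw [if_pos h5, if_neg h6] at h3
    omega
  · intro h5
    by_contra h6
    rw [if_neg h6, if_pos h5] at h4
    omega

/-- a nonempty set of subgroups generated by at most `r` elements has a member of maximal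
growth rate -/
theorem exists_rate_max {r : ℕ} (S : Set (Subgroup (FreeGroup (Fin m)))) (hS : S.Nonempty)
    (h : ∀ L ∈ S, ∃ u : Fin r → FreeGroup (Fin m), L = Subgroup.closure (Set.range u)) :
    ∃ K ∈ S, ∀ L ∈ S, rate (sph L) ≤ rate (sph K) := by
  by_contra hcon
  push Not at hcon
  obtain ⟨K₀, hK₀⟩ := hS
  choose! next hnext hlt using hcon
  let seq : ℕ → Subgroup (FreeGroup (Fin m)) := fun n => next^[n] K₀
  have hseq : ∀ n, seq n ∈ S := by
    intro n
    induction n with
    | zero => exact hK₀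
    | succ n ih =>
      show next^[n + 1] K₀ ∈ S
      rw [Function.iterate_succ_apply']
      exact hnext _ ih
  have hmono : StrictMono fun n => rate (sph (seq n)) := by
    apply strictMono_nat_of_lt_succ
    intro n
    show rate (sph (seq n)) < rate (sph (next^[n + 1] K₀))
    rw [Function.iterate_succ_apply']
    exact hlt _ (hseq n)
  have hu : ∀ n, ∃ u : Fin r → FreeGroup (Fin m),
      Subgroup.closure (Set.range u) = seq n ∧ Niel u := by
    intro n
    obtain ⟨u₀, hu₀⟩ := h _ (hseq n)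
    obtain ⟨u, h1, h2, -⟩ := exists_niel_fin u₀
    exact ⟨u, h1.trans hu₀.symm, h2⟩
  choose u hu1 hu2 using hu
  obtain ⟨i, j, hij, hd⟩ := wellQuasiOrdered_le (fun n => dat (u n))
  have h1 := rate_le_of_dat (hu2 i) (hu2 j) hd
  rw [hu1, hu1] at h1
  exact absurd (hmono hij) (not_lt.2 h1)

end Final

end Pool.Agent.Lib.MP_47235e_al
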