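import Mathlib
import Pool.Agent.Lib.MP_47235e_al.Two11

/-!
# Part 11: subgroups that contain all but one of the right number of basis elements
-/

set_option autoImplicit false

namespace Pool.Agent.Lib.MP_47235e_al

open FreeGroup Filter
open scoped ENNReal NNReal Topology

section Lower

variable {m : ℕ} {ι : Type*} [DecidableEq ι] [Fintype ι] {u : ι → FreeGroup (Fin m)}

/-- sums over long words tend to zero above the growth rate -/
theorem AW_sum_le (hu : Niel u) (h1 : ∀ X, val u X ≠ 1) {t : ℝ} (ht : 1 < t)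
    (h : rate (sph (Subgroup.closure (Set.range u))) < ENNReal.ofReal t) :
    ∃ (N : ℕ) (q : ℝ), 0 < q ∧ q < 1 ∧ ∀ k, N ≤ k → ∀ X,
      ∑ l ∈ AW k X, t⁻¹ ^ (len (dA u) (dB u) l) ≤ q ^ k * (1 - q)⁻¹ := by
  have ht0 : 0 < t := by linarith
  have ht1' : (1 : ℝ≥0∞) < ENNReal.ofReal t := by
    rw [← ENNReal.ofReal_one]
    exact (ENNReal.ofReal_lt_ofReal_iff ht0).2 ht
  obtain ⟨b, hb1, hb2⟩ := ENNReal.lt_iff_exists_nnreal_btwn.1 (max_lt ht1' h)
  have hb : (1 : ℝ) < (b : ℝ) := by
    have h2 : (1 : ℝ≥0∞) < (b : ℝ≥0∞) := lt_of_le_of_lt (le_max_left _ _) hb1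
    exact_mod_cast h2
  have hbt : (b : ℝ) < t := by
    rw [← ENNReal.ofReal_coe_nnreal] at hb2
    exact (ENNReal.ofReal_lt_ofReal_iff ht0).1 hb2
  have h2 := eventually_lt_of_limsup_lt (lt_of_le_of_lt (le_max_right _ _) hb1)
  obtain ⟨N, hN⟩ := eventually_atTop.1 (h2.and (eventually_ge_atTop 1))
  have hsph : ∀ n, N ≤ n → (sph (Subgroup.closure (Set.range u)) n : ℝ) ≤ (b : ℝ) ^ n :=
    fun n hn => (pow_le_iff _ b (hN n hn).2).1 (hN n hn).1.le
  set s := t⁻¹ with hs
  have hs0 : 0 < s := inv_pos.2 ht0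
  have hs1 : s ≤ 1 := inv_le_one_of_one_le₀ ht.le
  set q := (b : ℝ) * s with hq
  have hq0 : 0 < q := mul_pos (by linarith) hs0
  have hq1 : q < 1 := by
    rw [hq, hs, ← div_eq_mul_inv, div_lt_one ht0]
    exact hbt
  refine ⟨N, q, hq0, hq1, fun k hk X => ?_⟩
  set L : List (ι × Bool) → ℕ := fun l => len (dA u) (dB u) l with hL
  obtain ⟨Nm, hNm⟩ : ∃ Nm, ∀ l ∈ AW k X, L l ≤ Nm := by
    refine ⟨∑ l ∈ AW k X, L l, fun l hl => ?_⟩
    exact Finset.single_le_sum (f := L) (fun _ _ => Nat.zero_le _) hl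
  have e1 : ∑ l ∈ AW k X, s ^ (L l) =
      ∑ n ∈ Finset.range (Nm + 1), ∑ l ∈ (AW k X).filter (fun l => L l = n), s ^ (L l) :=
    (Finset.sum_fiberwise_of_maps_to (fun l hl => Finset.mem_range.2
      (Nat.lt_succ_of_le (hNm l hl))) _).symm
  rw [e1]
  have e2 : ∀ n, ∑ l ∈ (AW k X).filter (fun l => L l = n), s ^ (L l) ≤
      (if k ≤ n then q ^ n else 0) := by
    intro n
    have e3 : ∑ l ∈ (AW k X).filter (fun l => L l = n), s ^ (L l) =
        (((AW k X).filter (fun l => L l = n)).card : ℝ) * s ^ n := by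
      rw [Finset.sum_congr rfl fun l hl => by rw [(Finset.mem_filter.1 hl).2],
        Finset.sum_const, nsmul_eq_mul]
    rw [e3]
    split_ifs with hkn
    · have e4 : ((AW k X).filter (fun l => L l = n)).card ≤
          sph (Subgroup.closure (Set.range u)) n := by
        rw [← Set.ncard_coe_finset]
        refine Set.ncard_le_ncard_of_injOn (fun l => prodv u l) ?_ ?_
          ((finite_ball n).subset fun h hh => hh.2.le)
        · intro l hl
          rw [Finset.mem_coe, Finset.mem_filter] at hl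
          obtain ⟨r1, -, -⟩ := AW_spec k X l hl.1
          refine ⟨?_, ?_⟩
          · show (l.map (val u)).prod ∈ _
            apply Subgroup.list_prod_mem
            intro x hx
            rw [List.mem_map] at hx
            obtain ⟨Z, -, rfl⟩ := hx
            exact val_mem u Z
          · show (prodv u l).norm = n
            rw [norm_prodv hu h1 l r1]
            exact hl.2
        · intro l hl l' hl' hll
          rw [Finset.mem_coe, Finset.mem_filter] at hl hl'
          obtain ⟨r1, -, -⟩ := AW_spec k X l hl.1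
          obtain ⟨r2, -, -⟩ := AW_spec k X l' hl'.1
          have h2 : FreeGroup.lift u (mk l) = FreeGroup.lift u (mk l') := by
            rw [lift_eq, lift_eq, toWord_mk_of r1, toWord_mk_of r2]
            exact hll
          have h3 := congrArg toWord (lift_injective hu h1 h2)
          rwa [toWord_mk_of r1, toWord_mk_of r2] at h3
      have e5 : (((AW k X).filter (fun l => L l = n)).card : ℝ) ≤ (b : ℝ) ^ n := by
        refine le_trans ?_ (hsph n (by omega))
        exact_mod_cast e4
      calc _ ≤ (b : ℝ) ^ n * s ^ n := mul_le_mul_of_nonneg_right e5 (pow_pos hs0 _).le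
        _ = q ^ n := by rw [hq, mul_pow]
    · have e4 : (AW k X).filter (fun l => L l = n) = ∅ := by
        rw [Finset.filter_eq_empty_iff]
        intro l hl hln
        obtain ⟨r1, r2, -⟩ := AW_spec k X l hl
        have := length_le_len hu h1 r1
        rw [r2] at this
        have hln' : len (dA u) (dB u) l = n := hln
        omega
      rw [e4, Finset.card_empty, Nat.cast_zero, zero_mul]
  refine (Finset.sum_le_sum fun n _ => e2 n).trans ?_
  rw [← Finset.sum_filter]
  have e6 : ∑ n ∈ (Finset.range (Nm + 1)).filter (fun n => k ≤ n), q ^ n ≤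
      ∑' n : ℕ, q ^ (n + k) := by
    have hsum : Summable fun n : ℕ => q ^ (n + k) := by
      simp only [pow_add]
      exact (summable_geometric_of_lt_one hq0.le hq1).mul_right _
    have e7 : ∑ n ∈ (Finset.range (Nm + 1)).filter (fun n => k ≤ n), q ^ n ≤
        ∑ n ∈ Finset.range (Nm + 1), q ^ (n + k) := by
      have : (Finset.range (Nm + 1)).filter (fun n => k ≤ n) ⊆
          (Finset.range (Nm + 1)).image (fun n => n + k) := by
        intro n hn
        rw [Finset.mem_filter, Finset.mem_range] at hn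
        rw [Finset.mem_image]
        exact ⟨n - k, Finset.mem_range.2 (by omega), by omega⟩
      calc _ ≤ ∑ n ∈ (Finset.range (Nm + 1)).image (fun n => n + k), q ^ n :=
            Finset.sum_le_sum_of_subset_of_nonneg this fun _ _ _ => (pow_pos hq0 _).le
        _ = _ := by
            rw [Finset.sum_image]
            intro x _ y _ hxy
            exact Nat.add_right_cancel hxy
    exact e7.trans (hsum.sum_le_tsum _ fun _ _ => (pow_pos hq0 _).le)
  refine e6.trans (le_of_eq ?_)
  simp only [pow_add]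
  rw [tsum_mul_right, tsum_geometric_of_lt_one hq0.le hq1]
  ring

/-- a positive supereigenvector bounds the growth rate from below -/
theorem le_rate_of_super [Nonempty ι] (hu : Niel u) (h1 : ∀ X, val u X ≠ 1) {t : ℝ}
    (ht : 1 < t) {f : ι × Bool → ℝ} (hf0 : ∀ X, 0 < f X)
    (hf : ∀ X, f X ≤ ∑ Y ∈ Finset.univ.filter (fun Y : ι × Bool => Y ≠ flip X),
      t⁻¹ ^ (dA u X Y) * f Y) :
    ENNReal.ofReal t ≤ rate (sph (Subgroup.closure (Set.range u))) := by
  by_contra hcon
  rw [not_le] at hcon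
  obtain ⟨N, q, hq0, hq1, hq⟩ := AW_sum_le hu h1 ht hcon
  have ht0 : 0 < t := by linarith
  set s := t⁻¹ with hs
  have hs0 : 0 < s := inv_pos.2 ht0
  have hs1 : s ≤ 1 := inv_le_one_of_one_le₀ ht.le
  obtain ⟨β, hβ⟩ : ∃ β : ℕ, ∀ X, dB u X ≤ β :=
    ⟨∑ X, dB u X, fun X => Finset.single_le_sum (f := fun X => dB u X)
      (fun _ _ => Nat.zero_le _) (Finset.mem_univ X)⟩
  obtain ⟨i⟩ := ‹Nonempty ι›
  set X₀ : ι × Bool := (i, true) with hX₀
  set S : ℝ := ∑ X, f X with hS
  have hS0 : 0 < S := Finset.sum_pos (fun X _ => hf0 X) ⟨X₀, Finset.mem_univ _⟩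
  set c : ℝ := s ^ β / S with hc
  have hc0 : 0 < c := div_pos (pow_pos hs0 _) hS0
  have hcf : ∀ X, c * f X ≤ s ^ (dB u X) := by
    intro X
    have e1 : f X ≤ S := Finset.single_le_sum (f := f) (fun Y _ => (hf0 Y).le)
      (Finset.mem_univ X)
    calc c * f X ≤ c * S := mul_le_mul_of_nonneg_left e1 hc0.le
      _ = s ^ β := by rw [hc, div_mul_cancel₀ _ hS0.ne']
      _ ≤ s ^ (dB u X) := pow_le_pow_of_le_one hs0.le hs1 (hβ X)
  have hpw : ∀ k X, f X ≤ pw (dA u) s f k X := by
    intro k
    induction k with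
    | zero => exact fun X => le_rfl
    | succ k ih =>
      intro X
      refine (hf X).trans ?_
      exact Finset.sum_le_sum fun Y _ => mul_le_mul_of_nonneg_left (ih Y) (pow_pos hs0 _).le
  have hlow : ∀ k, c * f X₀ ≤ ∑ l ∈ AW k X₀, s ^ (len (dA u) (dB u) l) := by
    intro k
    calc c * f X₀ ≤ c * pw (dA u) s f k X₀ := mul_le_mul_of_nonneg_left (hpw k X₀) hc0.le
      _ = pw (dA u) s (fun X => c * f X) k X₀ := (pw_smul (dA u) s c f k X₀).symm
      _ ≤ pw (dA u) s (fun X => s ^ (dB u X)) k X₀ := pw_mono _ hs0 hcf k X₀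
      _ ≤ _ := pw_le_words (dA u) (dB u) hs0 k X₀
  have hten : Tendsto (fun k : ℕ => q ^ k * (1 - q)⁻¹) atTop (𝓝 (0 * (1 - q)⁻¹)) :=
    (tendsto_pow_atTop_nhds_zero_of_lt_one hq0.le hq1).mul_const _
  rw [zero_mul] at hten
  obtain ⟨K, hK1, hK2⟩ := ((hten.eventually (gt_mem_nhds (mul_pos hc0 (hf0 X₀)))).and
    (eventually_ge_atTop N)).exists
  have := (hlow K).trans (hq K hK2 X₀)
  linarith

end Lower

section Letters

variable {m q : ℕ}

/-- the subgroup generated by the first `q` basis elements -/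
def firsts (m q : ℕ) : Subgroup (FreeGroup (Fin m)) :=
  Subgroup.closure {x | ∃ i : Fin m, i.val < q ∧ x = FreeGroup.of i}

theorem kap_zero {x y : FreeGroup (Fin m)} {a b : Fin m × Bool} (ha : Begins x a)
    (hb : Begins y b) (hab : a ≠ b) : kap x y = 0 := by
  by_contra hne
  obtain ⟨c, hc, hd⟩ := kap_pos.1 (Nat.pos_of_ne_zero hne)
  exact hab ((begins_unique ha hc).trans (begins_unique hb hd).symm)

theorem begins_single (i : Fin m) (b : Bool) : Begins (mk [(i, b)] : FreeGroup (Fin m)) (i, b) :=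
  ⟨[], toWord_single _⟩

theorem single_mem {i : Fin m} (hi : i.val < q) (b : Bool) :
    (mk [(i, b)] : FreeGroup (Fin m)) ∈ firsts m q := by
  have h1 : FreeGroup.of i ∈ firsts m q := Subgroup.subset_closure ⟨i, hi, rfl⟩
  cases b
  · have : (mk [(i, false)] : FreeGroup (Fin m)) = (FreeGroup.of i)⁻¹ := by
      rw [FreeGroup.of, inv_mk]
      rfl
    rw [this]
    exact Subgroup.inv_mem _ h1
  · exact h1

/-- an element of minimal length outside `firsts` begins with another letter -/
theorem begins_other {K : Subgroup (FreeGroup (Fin m))} (hK : firsts m q ≤ K)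
    {w : FreeGroup (Fin m)} (hw : w ∈ K) (hw' : w ∉ firsts m q)
    (hmin : ∀ x ∈ K, x ∉ firsts m q → w.norm ≤ x.norm) :
    ∃ a : Fin m × Bool, Begins w a ∧ q ≤ a.1.val := by
  obtain ⟨a, ha⟩ : ∃ a, Begins w a := by
    cases h : w.toWord with
    | nil =>
      exfalso
      apply hw'
      rw [toWord_eq_nil_iff.1 h]
      exact Subgroup.one_mem _
    | cons a t => exact ⟨a, t, h⟩
  refine ⟨a, ha, ?_⟩
  by_contra hlt
  have hmem : (mk [a] : FreeGroup (Fin m)) ∈ firsts m q := single_mem (by omega) a.2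
  have h1 := norm_strip ha
  have h2 := hmin ((mk [a])⁻¹ * w) (K.mul_mem (K.inv_mem (hK hmem)) hw) (by
    intro h3
    apply hw'
    have := (firsts m q).mul_mem hmem h3
    rwa [mul_inv_cancel_left] at this)
  omega

/-- the tuple of the first basis elements and `w` -/
def tup (hq : q ≤ m) (w : FreeGroup (Fin m)) : Option (Fin q) → FreeGroup (Fin m)
  | some i => FreeGroup.of ⟨i.val, lt_of_lt_of_le i.2 hq⟩
  | none => w

theorem val_tup_some (hq : q ≤ m) (w : FreeGroup (Fin m)) (i : Fin q) (b : Bool) :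
    val (tup hq w) (some i, b) = mk [(⟨i.val, lt_of_lt_of_le i.2 hq⟩, b)] := by
  cases b
  · show (FreeGroup.of _)⁻¹ = _
    rw [FreeGroup.of, inv_mk]
    rfl
  · rfl

variable (hq : q ≤ m) {w : FreeGroup (Fin m)} {a a' : Fin m × Bool}

/-- the first letters of the directions -/
theorem begins_tup (ha : Begins w a) (ha' : Begins w⁻¹ a') (X : Option (Fin q) × Bool) :
    (∃ i : Fin q, X.1 = some i ∧
      Begins (val (tup hq w) X) (⟨i.val, lt_of_lt_of_le i.2 hq⟩, X.2)) ∨
    (X.1 = none ∧ Begins (val (tup hq w) X) (if X.2 then a else a')) := by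
  rcases X with ⟨_ | i, b⟩
  · right
    refine ⟨rfl, ?_⟩
    cases b
    · exact ha'
    · exact ha
  · left
    refine ⟨i, rfl, ?_⟩
    rw [val_tup_some]
    exact begins_single _ _

theorem kap_tup (ha : Begins w a) (ha' : Begins w⁻¹ a') (hqa : q ≤ a.1.val)
    (hqa' : q ≤ a'.1.val) {X Y : Option (Fin q) × Bool} (h : Y ≠ X)
    (hn : X.1 ≠ none ∨ Y.1 ≠ none) : kap (val (tup hq w) X) (val (tup hq w) Y) = 0 := by
  rcases begins_tup hq ha ha' X with ⟨i, hi, hX⟩ | ⟨hi, hX⟩ <;>
    rcases begins_tup hq ha ha' Y with ⟨j, hj, hY⟩ | ⟨hj, hY⟩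
  · apply kap_zero hX hY
    intro h1
    apply h
    have h2 := congrArg Prod.snd h1
    have h3 := congrArg (fun z => (Prod.fst z).val) h1
    simp only at h2 h3
    refine Prod.ext ?_ h2.symm
    rw [hi, hj, Fin.ext h3]
  · apply kap_zero hX hY
    intro h1
    have h3 := congrArg (fun z => (Prod.fst z).val) h1
    have := i.2
    by_cases hb : Y.2 = true
    · simp only [hb, if_true] at h3
      omega
    · simp only [hb] at h3
      simp at h3
      omega
  · apply kap_zero hX hY
    intro h1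
    have h3 := congrArg (fun z => (Prod.fst z).val) h1
    have := j.2
    by_cases hb : X.2 = true
    · simp only [hb, if_true] at h3
      omega
    · simp only [hb] at h3
      simp at h3
      omega
  · rcases hn with hn | hn
    · exact absurd hi hn
    · exact absurd hj hn

end Letters

end Pool.Agent.Lib.MP_47235e_al
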