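import Mathlib
import Pool.Agent.Lib.MP_47235e_al.Two12

/-!
# Part 12: the cogrowth of subgroups that contain all but one of the right number of letters
-/

set_option autoImplicit false

namespace Pool.Agent.Lib.MP_47235e_al

open FreeGroup Filter
open scoped ENNReal NNReal Topology

section Tup

variable {m q : ℕ} (hq : q ≤ m) {w : FreeGroup (Fin m)} {a a' : Fin m × Bool}

theorem val_tup_ne (ha : Begins w a) (ha' : Begins w⁻¹ a') (X : Option (Fin q) × Bool) :
    val (tup hq w) X ≠ 1 := by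
  intro h
  rcases begins_tup hq ha ha' X with ⟨i, -, t, ht⟩ | ⟨-, t, ht⟩
  · rw [h, toWord_one] at ht
    exact absurd ht (by simp)
  · rw [h, toWord_one] at ht
    exact absurd ht (by simp)

theorem norm_some (i : Fin q) (b : Bool) : (val (tup hq w) (some i, b)).norm = 1 := by
  rw [val_tup_some]
  exact norm_single _

theorem norm_none (b : Bool) : (val (tup hq w) (none, b)).norm = w.norm := by
  cases b
  · exact norm_inv_eq
  · rfl

/-- cancellation happens only between equal letters `w` -/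
theorem canc_tup (ha : Begins w a) (ha' : Begins w⁻¹ a') (hqa : q ≤ a.1.val)
    (hqa' : q ≤ a'.1.val) {X Y : Option (Fin q) × Bool} (h : Y ≠ flip X)
    (hn : X.1 ≠ none ∨ Y.1 ≠ none) :
    canc (val (tup hq w) X) (val (tup hq w) Y) = 0 := by
  rw [canc_eq, ← val_flip]
  exact kap_tup hq ha ha' hqa hqa' h hn

theorem niel_tup (ha : Begins w a) (ha' : Begins w⁻¹ a') (hqa : q ≤ a.1.val)
    (hqa' : q ≤ a'.1.val) : Niel (tup hq w) := by
  have hv := val_tup_ne hq ha ha'
  have key : ∀ X Y : Option (Fin q) × Bool, Red2 X Y →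
      canc (val (tup hq w) X) (val (tup hq w) Y) = 0 ∨
      (X = Y ∧ 2 * canc (val (tup hq w) X) (val (tup hq w) Y) < (val (tup hq w) Y).norm) := by
    intro X Y hXY
    have hne : Y ≠ flip X := by
      rintro rfl
      have h3 := hXY rfl
      revert h3
      show X.2 = (!X.2) → False
      cases X.2 <;> simp
    by_cases hn : X.1 ≠ none ∨ Y.1 ≠ none
    · exact Or.inl (canc_tup hq ha ha' hqa hqa' hne hn)
    · right
      push Not at hn
      have h1 : X = Y := Prod.ext (hn.1.trans hn.2.symm) (hXY (hn.1.trans hn.2.symm))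
      subst h1
      exact ⟨rfl, lcp_lt_of_ne (hv X)⟩
  have hpos : ∀ X, 1 ≤ (val (tup hq w) X).norm := by
    intro X
    by_contra h0
    have : (val (tup hq w) X).norm = 0 := by omega
    exact hv X (FreeGroup.norm_eq_zero.1 this)
  refine ⟨fun X Y hXY => ?_, fun X Y Z hXY hYZ hY => ?_⟩
  · have e1 := norm_mul_canc (val (tup hq w) X) (val (tup hq w) Y)
    rcases key X Y hXY with h | ⟨rfl, h⟩
    · have := hpos X
      omega
    · omega
  · have := hpos Y
    rcases key X Y hXY with h | ⟨h0, h⟩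
    · rcases key Y Z hYZ with h' | ⟨rfl, h'⟩
      · omega
      · omega
    · rcases key Y Z hYZ with h' | ⟨rfl, h'⟩
      · omega
      · subst h0
        omega

theorem sum_option_bool (q : ℕ) (x y : ℝ) :
    ∑ Y : Option (Fin q) × Bool, (if Y.1 = none then y else x) = 2 * q * x + 2 * y := by
  rw [Fintype.sum_prod_type]
  have h1 : ∀ o : Option (Fin q), ∑ b : Bool, (if (o, b).1 = none then y else x) =
      2 * (if o = none then y else x) := by
    intro o
    rw [Fintype.sum_bool]
    show (if o = none then y else x) + (if o = none then y else x) = _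
    ring
  rw [Finset.sum_congr rfl fun o _ => h1 o, ← Finset.mul_sum, Fintype.sum_option]
  simp
  ring

/-- lower bound for the growth rate -/
theorem le_rate_tup (ha : Begins w a) (ha' : Begins w⁻¹ a') (hqa : q ≤ a.1.val)
    (hqa' : q ≤ a'.1.val) (hq1 : 1 ≤ q) {t : ℝ} (ht : 1 < t)
    (hlow : t ≤ 2 * q - 1 + 4 * q * t⁻¹ ^ w.norm) :
    ENNReal.ofReal t ≤ rate (sph (Subgroup.closure (Set.range (tup hq w)))) := by
  have ht0 : 0 < t := by linarith
  have hs0 : 0 < t⁻¹ := inv_pos.2 ht0
  have hs1 : t⁻¹ ≤ 1 := inv_le_one_of_one_le₀ ht.le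
  have hq' : (1 : ℝ) ≤ q := by exact_mod_cast hq1
  have hN := niel_tup hq ha ha' hqa hqa'
  have hv := val_tup_ne hq ha ha'
  set y : ℝ := 2 * q * t⁻¹ ^ w.norm with hy
  have hy0 : 0 < y := by
    have := pow_pos hs0 w.norm
    positivity
  let f : Option (Fin q) × Bool → ℝ := fun Y => if Y.1 = none then y else 1
  have hf0 : ∀ X, 0 < f X := fun X => by
    show 0 < (if X.1 = none then y else 1)
    split_ifs
    · exact hy0
    · exact one_pos
  have hsum : ∑ Y, f Y = 2 * q * 1 + 2 * y := sum_option_bool q 1 y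
  have hsub : ∀ X : Option (Fin q) × Bool,
      ∑ Y ∈ Finset.univ.filter (fun Y : Option (Fin q) × Bool => Y ≠ flip X), f Y +
        f (flip X) = 2 * q * 1 + 2 * y := by
    intro X
    rw [← hsum, Finset.filter_ne' Finset.univ (flip X)]
    exact Finset.sum_erase_add _ _ (Finset.mem_univ _)
  apply le_rate_of_super hN hv ht hf0
  rintro ⟨_ | i, b⟩
  · -- the letter `w`
    have e0 : f (none, b) = y := rfl
    rw [e0]
    have e1 : ∀ Y ∈ Finset.univ.filter (fun Y : Option (Fin q) × Bool => Y ≠ flip (none, b)),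
        t⁻¹ ^ w.norm * (if Y.1 = none then 0 else 1) ≤
          t⁻¹ ^ (dA (tup hq w) (none, b) Y) * f Y := by
      intro Y hY
      have hY' : Y ≠ flip (none, b) := by simpa using hY
      by_cases hYn : Y.1 = none
      · rw [if_pos hYn, mul_zero]
        exact mul_nonneg (pow_pos hs0 _).le (hf0 Y).le
      · have e2 : f Y = 1 := if_neg hYn
        rw [if_neg hYn, e2, mul_one, mul_one]
        have e3 := norm_mul_canc (val (tup hq w) (none, b)) (val (tup hq w) Y)
        rw [canc_tup hq ha ha' hqa hqa' hY' (Or.inr hYn), norm_none] at e3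
        have e4 : dA (tup hq w) (none, b) Y = w.norm := by
          unfold dA
          omega
        rw [e4]
    refine le_trans ?_ (Finset.sum_le_sum e1)
    rw [← Finset.mul_sum]
    have e5 : ∑ Y ∈ Finset.univ.filter
        (fun Y : Option (Fin q) × Bool => Y ≠ flip (none, b)),
        (if Y.1 = none then (0 : ℝ) else 1) = 2 * q := by
      have e6 : ∑ Y : Option (Fin q) × Bool, (if Y.1 = none then (0 : ℝ) else 1) =
          2 * q * 1 + 2 * 0 := sum_option_bool q 1 0
      have e7 : ∑ Y ∈ Finset.univ.filter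
          (fun Y : Option (Fin q) × Bool => Y ≠ flip (none, b)),
          (if Y.1 = none then (0 : ℝ) else 1) +
          (if (flip ((none : Option (Fin q)), b)).1 = none then (0 : ℝ) else 1) =
          ∑ Y : Option (Fin q) × Bool, (if Y.1 = none then (0 : ℝ) else 1) := by
        rw [Finset.filter_ne' Finset.univ (flip ((none : Option (Fin q)), b))]
        exact Finset.sum_erase_add _ _ (Finset.mem_univ _)
      have e8 : (if (flip ((none : Option (Fin q)), b)).1 = none then (0 : ℝ) else 1) = 0 :=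
        if_pos rfl
      rw [e8, e6] at e7
      linarith
    rw [e5, hy]
    exact le_of_eq (by ring)
  · -- a basis element
    have e0 : f (some i, b) = 1 := rfl
    rw [e0]
    have e1 : ∀ Y ∈ Finset.univ.filter
        (fun Y : Option (Fin q) × Bool => Y ≠ flip (some i, b)),
        t⁻¹ ^ (dA (tup hq w) (some i, b) Y) * f Y = t⁻¹ * f Y := by
      intro Y hY
      have hY' : Y ≠ flip (some i, b) := by simpa using hY
      have e3 := norm_mul_canc (val (tup hq w) (some i, b)) (val (tup hq w) Y)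
      rw [canc_tup hq ha ha' hqa hqa' hY' (Or.inl (by simp)), norm_some] at e3
      have e4 : dA (tup hq w) (some i, b) Y = 1 := by
        unfold dA
        omega
      rw [e4, pow_one]
    rw [Finset.sum_congr rfl e1, ← Finset.mul_sum]
    have e2 := hsub (some i, b)
    have e3 : f (flip (some i, b)) = 1 := rfl
    rw [e3] at e2
    have e4 : ∑ Y ∈ Finset.univ.filter
        (fun Y : Option (Fin q) × Bool => Y ≠ flip (some i, b)), f Y = 2 * q - 1 + 2 * y := by
      linarith
    rw [e4]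
    have e5 : t ≤ 2 * q - 1 + 2 * y := by
      rw [hy]
      calc t ≤ 2 * q - 1 + 4 * q * t⁻¹ ^ w.norm := hlow
        _ = 2 * q - 1 + 2 * (2 * q * t⁻¹ ^ w.norm) := by ring
    calc (1 : ℝ) = t⁻¹ * t := (inv_mul_cancel₀ ht0.ne').symm
      _ ≤ t⁻¹ * (2 * q - 1 + 2 * y) := mul_le_mul_of_nonneg_left e5 hs0.le

end Tup

/-- a subgroup which contains the first `q` basis elements and a word of length `n` outside the
subgroup they generate has cogrowth greater than `2 q - 1 + 2 q / (2 q + 1) ^ n` -/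
theorem rate_gt_of_firsts {m q n : ℕ} (hq1 : 1 ≤ q) {K : Subgroup (FreeGroup (Fin m))}
    (hK : firsts m q ≤ K) {v : FreeGroup (Fin m)} (hv : v ∈ K) (hv' : v ∉ firsts m q)
    (hn : v.norm ≤ n) (hqm : q ≤ m) :
    ENNReal.ofReal (2 * q - 1 + 2 * q * ((2 * q + 1 : ℝ)⁻¹) ^ n) < rate (sph K) := by
  classical
  have hex : ∃ k : ℕ, ∃ x ∈ K, x ∉ firsts m q ∧ x.norm = k := ⟨_, v, hv, hv', rfl⟩
  obtain ⟨w, hw, hw', hwk⟩ := Nat.find_spec hex
  have hmin : ∀ x ∈ K, x ∉ firsts m q → w.norm ≤ x.norm := by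
    intro x hx hx'
    rw [hwk]
    exact Nat.find_min' hex ⟨x, hx, hx', rfl⟩
  obtain ⟨a, ha, hqa⟩ := begins_other hK hw hw' hmin
  obtain ⟨a', ha', hqa'⟩ := begins_other hK (K.inv_mem hw)
    (fun h => hw' (by simpa using (firsts m q).inv_mem h))
    (fun x hx hx' => by rw [norm_inv_eq]; exact hmin x hx hx')
  have hwn : w.norm ≤ n := (hmin v hv hv').trans hn
  have hw1 : 1 ≤ w.norm := by
    by_contra h0
    have : w.norm = 0 := by omega
    rw [FreeGroup.norm_eq_zero] at this
    apply hw'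
    rw [this]
    exact Subgroup.one_mem _
  have hq' : (1 : ℝ) ≤ q := by exact_mod_cast hq1
  set z : ℝ := (2 * q + 1 : ℝ)⁻¹ with hz
  have hz0 : 0 < z := inv_pos.2 (by linarith)
  have hz1 : z ≤ 1 := inv_le_one_of_one_le₀ (by linarith)
  have hzq : (2 * q + 1 : ℝ) * z = 1 := mul_inv_cancel₀ (by linarith)
  have hzn : 0 < z ^ n := pow_pos hz0 n
  have hzle : z ^ n ≤ z ^ w.norm := pow_le_pow_of_le_one hz0.le hz1 hwn
  have hzw : z ^ w.norm ≤ z := by
    calc z ^ w.norm ≤ z ^ 1 := pow_le_pow_of_le_one hz0.le hz1 hw1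
      _ = z := pow_one z
  set t : ℝ := 2 * q - 1 + 4 * q * z ^ w.norm with ht
  have ht2 : t ≤ 2 * q + 1 := by
    have e1 : 4 * (q : ℝ) * z ^ w.norm ≤ 4 * q * z :=
      mul_le_mul_of_nonneg_left hzw (by linarith)
    have e2 : 4 * (q : ℝ) * z ≤ 2 := by nlinarith
    rw [ht]
    linarith
  have hzw0 : 0 < z ^ w.norm := pow_pos hz0 _
  have ht1 : 1 < t := by
    have : 0 < 4 * (q : ℝ) * z ^ w.norm := by positivity
    rw [ht]
    linarith
  have ht0 : 0 < t := by linarith
  have hzt : z ≤ t⁻¹ := by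
    rw [hz]
    exact (inv_le_inv₀ (by linarith) ht0).2 ht2
  have hlow : t ≤ 2 * q - 1 + 4 * q * t⁻¹ ^ w.norm := by
    have e1 : z ^ w.norm ≤ t⁻¹ ^ w.norm := pow_le_pow_left₀ hz0.le hzt _
    have e2 : 4 * (q : ℝ) * z ^ w.norm ≤ 4 * q * t⁻¹ ^ w.norm :=
      mul_le_mul_of_nonneg_left e1 (by linarith)
    rw [ht]
    rw [ht] at e2
    linarith
  have h1 := le_rate_tup hqm ha ha' hqa hqa' hq1 ht1 hlow
  have h2 : Subgroup.closure (Set.range (tup hqm w)) ≤ K := by
    rw [Subgroup.closure_le]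
    rintro _ ⟨_ | i, rfl⟩
    · exact hw
    · exact hK (Subgroup.subset_closure ⟨_, i.2, rfl⟩)
  refine lt_of_lt_of_le ?_ (h1.trans (rate_mono h2))
  apply (ENNReal.ofReal_lt_ofReal_iff ht0).2
  have e1 : 2 * (q : ℝ) * z ^ n < 4 * q * z ^ w.norm := by
    have : 2 * (q : ℝ) * z ^ n ≤ 2 * q * z ^ w.norm :=
      mul_le_mul_of_nonneg_left hzle (by linarith)
    have e3 : 0 < (q : ℝ) * z ^ w.norm := by positivity
    nlinarith
  rw [ht]
  linarith

end Pool.Agent.Lib.MP_47235e_al
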